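import Pool.Agent.Helper58_Iso.Beta

namespace Pool.Agent.Helper58_Iso

open Function

namespace Gluing

variable {k : ℕ} {ι ι' : Type}

theorem iso_of_coord {G : Gluing k ι} {G' : Gluing k ι'} {n : ℕ} (T : Fin n → ι)
    (T' : Fin n → ι') (hT : Bijective T) (hT' : Bijective T') (σ : Fin k → Fin n → Fin n)
    (h : ∀ c i, G.nbr c (T i) = T (σ c i)) (h' : ∀ c i, G'.nbr c (T' i) = T' (σ c i)) :
    Iso G G' := by
  have key : ∀ i, ((Equiv.ofBijective T hT).symm.trans (Equiv.ofBijective T' hT')) (T i) =
      T' i := by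
    intro i
    have h1 : (Equiv.ofBijective T hT) i = T i := rfl
    rw [Equiv.trans_apply, ← h1, Equiv.symm_apply_apply]
    rfl
  refine ⟨(Equiv.ofBijective T hT).symm.trans (Equiv.ofBijective T' hT'), fun c s => ?_⟩
  obtain ⟨i, rfl⟩ := hT.2 s
  rw [h, key, key, h']

/-- the `(3,3,3)` data -/
structure AlphaData (G : Gluing k ι) (x y z : Fin k) : Prop where
  hU : ∀ c t, G.nbr c t ≠ t → c = x ∨ c = y ∨ c = z
  hu : ∀ c, (c = x ∨ c = y ∨ c = z) → ∃ t, G.nbr c t ≠ t
  hb : ∀ c d, c ≠ d → G.WB c d 3

theorem AlphaData.perm {G : Gluing k ι} {x y z : Fin k} (h : AlphaData G x y z)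
    {a b c : Fin k} (hp : ∀ d, (d = a ∨ d = b ∨ d = c) ↔ (d = x ∨ d = y ∨ d = z)) :
    AlphaData G a b c :=
  ⟨fun d t hd => (hp d).2 (h.hU d t hd), fun d hd => h.hu d ((hp d).1 hd), h.hb⟩

theorem AlphaData.transfer [Finite ι] [Finite ι'] {G : Gluing k ι} {G' : Gluing k ι'}
    {x y z : Fin k} (h : AlphaData G x y z) (hS : Sim G G') : AlphaData G' x y z := by
  refine ⟨?_, ?_, fun c d hcd => (hS.wb (h.hb c d hcd) (h.hb d c hcd.symm)).1⟩
  · intro c t hc
    by_contra hne
    refine hc (hS.unused (c := c) ?_ t)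
    intro s
    by_contra hs
    exact hne (h.hU _ _ hs)
  · intro c hc
    by_contra hne
    push Not at hne
    obtain ⟨t, ht⟩ := h.hu c hc
    exact ht (hS.symm.unused hne t)

theorem WB.three {G : Gluing k ι} {c d : Fin k} (h : G.WB d c 3) {t : ι}
    (hd : G.nbr d t ≠ t) (hc : G.nbr c t ≠ t) : G.nbr d (G.nbr c t) = G.nbr c t := by
  obtain ⟨b, hb, h2⟩ := h (G.nbr d t)
  interval_cases b
  · rw [alt_succ_even _ _ _ _ _ (by omega), alt_zero, G.invol] at h2
    exact absurd h2.symm hd
  · rw [alt_succ_odd _ _ _ _ _ (by omega), alt_succ_even _ _ _ _ _ (by omega), alt_zero,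
      G.invol] at h2
    exact absurd h2 hc
  · rw [alt_succ_even _ _ _ _ _ (by omega), alt_succ_odd _ _ _ _ _ (by omega),
      alt_succ_even _ _ _ _ _ (by omega), alt_zero, G.invol] at h2
    exact h2

def E3 (a b c : Fin k) (i : ℕ) : Fin k := if i % 3 = 0 then a else if i % 3 = 1 then b else c

theorem E3_zero (a b c : Fin k) {i : ℕ} (h : i % 3 = 0) : E3 a b c i = a := by simp [E3, h]
theorem E3_one (a b c : Fin k) {i : ℕ} (h : i % 3 = 1) : E3 a b c i = b := by simp [E3, h]
theorem E3_two (a b c : Fin k) {i : ℕ} (h : i % 3 = 2) : E3 a b c i = c := by simp [E3, h]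

theorem E3_ne (a b c : Fin k) (hab : a ≠ b) (hac : a ≠ c) (hbc : b ≠ c) (i : ℕ) :
    E3 a b c i ≠ E3 a b c (i + 1) := by
  have : i % 3 = 0 ∨ i % 3 = 1 ∨ i % 3 = 2 := by omega
  rcases this with h | h | h
  · rw [E3_zero _ _ _ h, E3_one _ _ _ (by omega)]; exact hab
  · rw [E3_one _ _ _ h, E3_two _ _ _ (by omega)]; exact hbc
  · rw [E3_two _ _ _ h, E3_zero _ _ _ (by omega)]; exact hac.symm

/-- a leaf of colour `a`, followed by `b` and not by `c` -/
structure LT (G : Gluing k ι) (a b c : Fin k) (s : ι) : Prop where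
  b1 : G.nbr b s = s
  c1 : G.nbr c s = s
  b2 : G.nbr b (G.nbr a s) ≠ G.nbr a s
  c2 : G.nbr c (G.nbr a s) = G.nbr a s

theorem LT.a1 {G : Gluing k ι} {a b c : Fin k} {s : ι} (h : LT G a b c s) : G.nbr a s ≠ s := by
  intro ha
  have := h.b2
  rw [ha] at this
  exact this h.b1

theorem AlphaData.lin [Finite ι] {G : Gluing k ι} {a b c : Fin k} (hab : a ≠ b) (hac : a ≠ c)
    (hbc : b ≠ c) (h : AlphaData G a b c) (hG : G.Conn) {s : ι} (hs : LT G a b c s) :
    LinW G (E3 a b c) (Nat.card ι) (G.walk (E3 a b c) s) := by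
  have hts : ∀ i, G.walk (E3 a b c) s (i + 1) = G.nbr (E3 a b c i) (G.walk (E3 a b c) s i) :=
    fun i => rfl
  refine lin_of_regular G hG _ (E3_ne a b c hab hac hbc) _ hts ?_
  intro i hi q hq
  set t := G.walk (E3 a b c) s with ht
  have hqU := h.hU _ _ hq
  have h0 : t 0 = s := rfl
  have e0 : t 1 = G.nbr a s := by simpa [E3, h0] using hts 0
  rcases Nat.lt_or_ge i 2 with hi2 | hi2
  · interval_cases i
    · left
      rw [h0] at hq
      rcases hqU with rfl | rfl | rfl
      · simp [E3]
      · exact absurd hs.b1 hq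
      · exact absurd hs.c1 hq
    · simp only [E3]
      norm_num
      rw [e0] at hq
      rcases hqU with rfl | rfl | rfl
      · exact Or.inr rfl
      · exact Or.inl rfl
      · exact absurd hs.c2 hq
  · obtain ⟨j, rfl⟩ : ∃ j, i = j + 2 := ⟨i - 2, by omega⟩
    have hl : j + 2 - 1 = j + 1 := by omega
    rw [hl]
    have hno : q ≠ E3 a b c j := by
      intro hqe
      refine (h.hb (E3 a b c j) (E3 a b c (j + 1)) (E3_ne a b c hab hac hbc j)).no_alt hts j
        (m := 2) ?_ ?_ ?_
      · intro l hl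
        interval_cases l <;> simp
      · intro l hl
        exact hi _ (by omega)
      · rw [← hqe]
        simpa using hq
    have hmod : j % 3 = 0 ∨ j % 3 = 1 ∨ j % 3 = 2 := by omega
    rcases hmod with hm | hm | hm
    · rw [E3_zero _ _ _ hm] at hno
      rw [E3_two (i := j + 2) _ _ _ (by omega), E3_one (i := j + 1) _ _ _ (by omega)]
      rcases hqU with rfl | rfl | rfl
      · exact absurd rfl hno
      · exact Or.inr ⟨by omega, rfl⟩
      · exact Or.inl rfl
    · rw [E3_one _ _ _ hm] at hno
      rw [E3_zero (i := j + 2) _ _ _ (by omega), E3_two (i := j + 1) _ _ _ (by omega)]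
      rcases hqU with rfl | rfl | rfl
      · exact Or.inl rfl
      · exact absurd rfl hno
      · exact Or.inr ⟨by omega, rfl⟩
    · rw [E3_two _ _ _ hm] at hno
      rw [E3_one (i := j + 2) _ _ _ (by omega), E3_zero (i := j + 1) _ _ _ (by omega)]
      rcases hqU with rfl | rfl | rfl
      · exact Or.inr ⟨by omega, rfl⟩
      · exact Or.inl rfl
      · exact absurd rfl hno

theorem LinW.leaf {G : Gluing k ι} {e : ℕ → Fin k} {N : ℕ} {t : ℕ → ι}
    (h : LinW G e N t) (he : ∀ i, e i ≠ e (i + 1)) {u : ι} (hu : G.Leaf u) :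
    u = t 0 ∨ u = t (N - 1) := by
  obtain ⟨i, hi, rfl⟩ := h.1 u
  by_contra hne
  push Not at hne
  have hi0 : i ≠ 0 := fun hh => hne.1 (by rw [hh])
  have hiN : i ≠ N - 1 := fun hh => hne.2 (by rw [hh])
  obtain ⟨j, rfl⟩ : ∃ j, i = j + 1 := ⟨i - 1, by omega⟩
  have h1 : G.nbr (e (j + 1)) (t (j + 1)) ≠ t (j + 1) := by
    rw [h.2.2 (j + 1) hi, if_pos ⟨by omega, rfl⟩]
    exact h.step_ne (by omega)
  have h2 : G.nbr (e j) (t (j + 1)) ≠ t (j + 1) := by
    rw [h.2.2 (j + 1) hi, if_neg, if_pos ⟨by omega, rfl⟩]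
    · exact (h.step_ne (by omega)).symm
    · rintro ⟨_, h3⟩
      exact he j h3
  exact he j (hu _ _ h2 h1)

theorem AlphaData.edge [Finite ι'] {G' : Gluing k ι'} {a b c : Fin k} (hab : a ≠ b)
    (hbc : b ≠ c) (h' : AlphaData G' a b c) (hG' : G'.Conn) {u v : ι'}
    (huv : u ≠ v) (a1 : G'.nbr a u = v) (a2 : G'.nbr c u = u) (a3 : G'.nbr c v = v) :
    ∃ s, LT G' a b c s := by
  have a1' : G'.nbr a v = u := by rw [← a1, G'.invol]
  by_cases bu : G'.nbr b u = u
  · by_cases bv : G'.nbr b v = v
    · exfalso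
      refine exists_ne_of_conn hG' {u, v} ⟨u, by simp⟩ ?_ b ?_ (h'.hu b (by simp))
      · intro d w hw
        by_cases hd : G'.nbr d w = w
        · rw [hd]; exact hw
        · have hdU := h'.hU _ _ hd
          rcases hw with rfl | hw
          · rcases hdU with rfl | rfl | rfl
            · rw [a1]; simp
            · exact absurd bu hd
            · exact absurd a2 hd
          · rw [Set.mem_singleton_iff] at hw
            subst hw
            rcases hdU with rfl | rfl | rfl
            · rw [a1']; simp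
            · exact absurd bv hd
            · exact absurd a3 hd
      · rintro w (rfl | hw)
        · exact bu
        · rw [Set.mem_singleton_iff] at hw
          subst hw
          exact bv
    · exact ⟨u, bu, a2, by rwa [a1], by rwa [a1]⟩
  · by_cases bv : G'.nbr b v = v
    · exact ⟨v, bv, a3, by rwa [a1'], by rwa [a1']⟩
    · exfalso
      have := (h'.hb b a hab.symm).three bu (c := a) (by rw [a1]; exact huv.symm)
      rw [a1] at this
      exact bv this

theorem AlphaData.second [Finite ι] [Finite ι'] {G : Gluing k ι} {G' : Gluing k ι'}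
    {a b c : Fin k} (hab : a ≠ b) (hbc : b ≠ c) (hac : a ≠ c) (h : AlphaData G a b c)
    (hS : Sim G G') (hG : G.Conn) {s : ι} (hs : LT G a b c s) :
    (∃ s, LT G' a b c s) ∨ (∃ s, LT G' c b a s) := by
  have h' := h.transfer hS
  have hG' := hS.conn.1 hG
  obtain ⟨t, ht⟩ := (hS.per a c 2).1 ⟨s, per_two_of_edge hs.a1 hs.c1 hs.c2⟩
  obtain ⟨u, v, huv, ⟨a1, a2, a3⟩ | ⟨a1, a2, a3⟩⟩ :=
    per_two (qq_pp_of_wb _ _ _ _ (h'.hb a c hac) (h'.hb c a hac.symm)).1 ht
  · exact Or.inl (h'.edge hab hbc hG' huv a1 a2 a3)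
  · refine Or.inr ((h'.perm (a := c) (b := b) (c := a) ?_).edge hbc.symm hab.symm hG' huv
      a1 a2 a3)
    intro d
    constructor <;> rintro (h | h | h) <;> simp [h]

theorem AlphaData.first [Finite ι] [Finite ι'] {G : Gluing k ι} {G' : Gluing k ι'}
    {a b c : Fin k} (hab : a ≠ b) (hbc : b ≠ c) (h : AlphaData G a b c)
    (hS : Sim G G') (hG : G.Conn) {s : ι} (h1 : G.nbr b s = s) (h2 : G.nbr c s = s) :
    ∃ s', G'.nbr b s' = s' ∧ G'.nbr c s' = s' ∧ G'.nbr a s' ≠ s' ∧
      (G'.nbr b (G'.nbr a s') ≠ G'.nbr a s' ∨ G'.nbr c (G'.nbr a s') ≠ G'.nbr a s') := by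
  have h' := h.transfer hS
  have hG' := hS.conn.1 hG
  obtain ⟨s', a1, a2⟩ := hS.exists_fixed_two
    (qq_pp_of_wb _ _ _ _ (h'.hb b c hbc) (h'.hb c b hbc.symm)).1 ⟨s, h1, h2⟩
  refine ⟨s', a1, a2, ?_, ?_⟩
  · intro a3
    refine exists_ne_of_conn hG' {s'} ⟨s', by simp⟩ ?_ a ?_ (h'.hu a (by simp))
    · intro d w hw
      rw [Set.mem_singleton_iff] at hw
      subst hw
      by_contra hd
      rw [Set.mem_singleton_iff] at hd
      rcases h'.hU _ _ hd with rfl | rfl | rfl
      · exact hd a3
      · exact hd a1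
      · exact hd a2
    · intro w hw
      rw [Set.mem_singleton_iff] at hw
      subst hw
      exact a3
  · by_contra hne
    push Not at hne
    obtain ⟨b1, b2⟩ := hne
    refine exists_ne_of_conn hG' {s', G'.nbr a s'} ⟨s', by simp⟩ ?_ b ?_ (h'.hu b (by simp))
    · intro d w hw
      by_cases hd : G'.nbr d w = w
      · rw [hd]; exact hw
      · have hdU := h'.hU _ _ hd
        rcases hw with rfl | hw
        · rcases hdU with rfl | rfl | rfl
          · simp
          · exact absurd a1 hd
          · exact absurd a2 hd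
        · rw [Set.mem_singleton_iff] at hw
          subst hw
          rcases hdU with rfl | rfl | rfl
          · rw [G'.invol]; simp
          · exact absurd b1 hd
          · exact absurd b2 hd
    · rintro w (rfl | hw)
      · exact a1
      · rw [Set.mem_singleton_iff] at hw
        subst hw
        exact b1

def Triple (G : Gluing k ι) (x y z : Fin k) (s : ι) : Prop :=
  G.nbr x s ≠ s ∧ G.nbr y s ≠ s ∧ G.nbr z s ≠ s

theorem AlphaData.triple_univ {G : Gluing k ι} {x y z : Fin k} (hxy : x ≠ y) (hxz : x ≠ z)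
    (hyz : y ≠ z) (h : AlphaData G x y z) (hG : G.Conn) {s : ι} (hs : G.Triple x y z s) (u : ι) :
    u = s ∨ u = G.nbr x s ∨ u = G.nbr y s ∨ u = G.nbr z s := by
  obtain ⟨hx, hy, hz⟩ := hs
  have e1 := (h.hb x y hxy).three hx hy
  have e2 := (h.hb x z hxz).three hx hz
  have e3 := (h.hb y x hxy.symm).three hy hx
  have e4 := (h.hb y z hyz).three hy hz
  have e5 := (h.hb z x hxz.symm).three hz hx
  have e6 := (h.hb z y hyz.symm).three hz hy
  have huniv := hG {s, G.nbr x s, G.nbr y s, G.nbr z s} ⟨s, by simp⟩ (by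
    intro d w hw
    by_cases hd : G.nbr d w = w
    · rw [hd]; exact hw
    · have hdU := h.hU _ _ hd
      rcases hw with rfl | rfl | rfl | hw
      · rcases hdU with rfl | rfl | rfl <;> simp
      · rcases hdU with rfl | rfl | rfl
        · rw [G.invol]; simp
        · exact absurd e3 hd
        · exact absurd e5 hd
      · rcases hdU with rfl | rfl | rfl
        · exact absurd e1 hd
        · rw [G.invol]; simp
        · exact absurd e6 hd
      · rw [Set.mem_singleton_iff] at hw
        subst hw
        rcases hdU with rfl | rfl | rfl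
        · exact absurd e2 hd
        · exact absurd e4 hd
        · rw [G.invol]; simp)
  have : u ∈ ({s, G.nbr x s, G.nbr y s, G.nbr z s} : Set ι) := by rw [huniv]; trivial
  simpa using this

theorem AlphaData.triple_two {G : Gluing k ι} {x y z : Fin k} (hxy : x ≠ y) (hxz : x ≠ z)
    (hyz : y ≠ z) (h : AlphaData G x y z) (hG : G.Conn) {s : ι} (hs : G.Triple x y z s) {u : ι}
    (c d : Fin k) (hcd : c ≠ d) (hc : G.nbr c u ≠ u) (hd : G.nbr d u ≠ u) : u = s := by
  have huniv := h.triple_univ hxy hxz hyz hG hs u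
  obtain ⟨hx, hy, hz⟩ := hs
  have e1 := (h.hb x y hxy).three hx hy
  have e2 := (h.hb x z hxz).three hx hz
  have e3 := (h.hb y x hxy.symm).three hy hx
  have e4 := (h.hb y z hyz).three hy hz
  have e5 := (h.hb z x hxz.symm).three hz hx
  have e6 := (h.hb z y hyz.symm).three hz hy
  rcases huniv with hu | hu | hu | hu
  · exact hu
  · exfalso
    rw [hu] at hc hd
    have hcx : c = x := by
      rcases h.hU _ _ hc with h1 | h1 | h1
      · exact h1
      · subst h1; exact absurd e3 hc
      · subst h1; exact absurd e5 hc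
    have hdx : d = x := by
      rcases h.hU _ _ hd with h1 | h1 | h1
      · exact h1
      · subst h1; exact absurd e3 hd
      · subst h1; exact absurd e5 hd
    exact hcd (hcx.trans hdx.symm)
  · exfalso
    rw [hu] at hc hd
    have hcx : c = y := by
      rcases h.hU _ _ hc with h1 | h1 | h1
      · subst h1; exact absurd e1 hc
      · exact h1
      · subst h1; exact absurd e6 hc
    have hdx : d = y := by
      rcases h.hU _ _ hd with h1 | h1 | h1
      · subst h1; exact absurd e1 hd
      · exact h1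
      · subst h1; exact absurd e6 hd
    exact hcd (hcx.trans hdx.symm)
  · exfalso
    rw [hu] at hc hd
    have hcx : c = z := by
      rcases h.hU _ _ hc with h1 | h1 | h1
      · subst h1; exact absurd e2 hc
      · subst h1; exact absurd e4 hc
      · exact h1
    have hdx : d = z := by
      rcases h.hU _ _ hd with h1 | h1 | h1
      · subst h1; exact absurd e2 hd
      · subst h1; exact absurd e4 hd
      · exact h1
    exact hcd (hcx.trans hdx.symm)

theorem AlphaData.triple_transfer [Finite ι] [Finite ι'] {G : Gluing k ι} {G' : Gluing k ι'}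
    {x y z : Fin k} (hxy : x ≠ y) (hxz : x ≠ z) (hyz : y ≠ z) (h : AlphaData G x y z)
    (hS : Sim G G') (hG : G.Conn) {s : ι} (hs : G.Triple x y z s) :
    ∃ s', G'.Triple x y z s' := by
  have h' := h.transfer hS
  have hG' := hS.conn.1 hG
  have hs0 := hs
  obtain ⟨hx, hy, hz⟩ := hs0
  obtain ⟨s', a1, a2, a3, a4⟩ := h.first hxy hyz hS hG (s := G.nbr x s)
    ((h.hb y x hxy.symm).three hy hx) ((h.hb z x hxz.symm).three hz hx)
  have a3' : G'.nbr x (G'.nbr x s') ≠ G'.nbr x s' := by rw [G'.invol]; exact a3.symm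
  -- a second leaf type is impossible
  have key : ∀ p q r : Fin k, (∀ d, (d = p ∨ d = q ∨ d = r) ↔ (d = x ∨ d = y ∨ d = z)) →
      p ≠ q → ∀ u, LT G p q r u → (r = x ∨ r = y ∨ r = z) → False := by
    intro p q r hp hpq u hu hr
    have h1 : G.nbr p (G.nbr p u) ≠ G.nbr p u := by rw [G.invol]; exact hu.a1.symm
    have h2 := h.triple_two hxy hxz hyz hG hs p q hpq h1 hu.b2
    have h3 := hu.c2
    rw [h2] at h3
    rcases hr with rfl | rfl | rfl
    · exact hx h3
    · exact hy h3
    · exact hz h3
  by_cases b1 : G'.nbr y (G'.nbr x s') = G'.nbr x s'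
  · exfalso
    have b2 : G'.nbr z (G'.nbr x s') ≠ G'.nbr x s' := by
      rcases a4 with a4 | a4
      · exact absurd b1 a4
      · exact a4
    have hp : ∀ d, (d = x ∨ d = z ∨ d = y) ↔ (d = x ∨ d = y ∨ d = z) := by
      intro d; constructor <;> rintro (h | h | h) <;> simp [h]
    rcases (h'.perm hp).second hxz hyz.symm hxy hS.symm hG' (s := s')
      ⟨a2, a1, b2, b1⟩ with ⟨u, hu⟩ | ⟨u, hu⟩
    · exact key _ _ _ hp hxz u hu (by simp)
    · refine key _ _ _ ?_ hyz u hu (by simp)
      intro d; constructor <;> rintro (h | h | h) <;> simp [h]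
  · by_cases b2 : G'.nbr z (G'.nbr x s') = G'.nbr x s'
    · exfalso
      rcases h'.second hxy hyz hxz hS.symm hG' (s := s')
        ⟨a1, a2, b1, b2⟩ with ⟨u, hu⟩ | ⟨u, hu⟩
      · exact key _ _ _ (fun d => Iff.rfl) hxy u hu (by simp)
      · refine key _ _ _ ?_ hyz.symm u hu (by simp)
        intro d; constructor <;> rintro (h | h | h) <;> simp [h]
    · exact ⟨G'.nbr x s', a3', b1, b2⟩

theorem AlphaData.triple_coord {G : Gluing k ι} {x y z : Fin k} (hxy : x ≠ y) (hxz : x ≠ z)
    (hyz : y ≠ z) (h : AlphaData G x y z) (hG : G.Conn) {s : ι} (hs : G.Triple x y z s) :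
    Bijective (![s, G.nbr x s, G.nbr y s, G.nbr z s] : Fin 4 → ι) ∧
    ∀ c i, G.nbr c ((![s, G.nbr x s, G.nbr y s, G.nbr z s] : Fin 4 → ι) i) =
      (![s, G.nbr x s, G.nbr y s, G.nbr z s] : Fin 4 → ι)
        (if c = x then Equiv.swap 0 1 i else if c = y then Equiv.swap 0 2 i else
          if c = z then Equiv.swap 0 3 i else i) := by
  have huniv := h.triple_univ hxy hxz hyz hG hs
  obtain ⟨hx, hy, hz⟩ := hs
  have e1 := (h.hb x y hxy).three hx hy
  have e2 := (h.hb x z hxz).three hx hz
  have e3 := (h.hb y x hxy.symm).three hy hx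
  have e4 := (h.hb y z hyz).three hy hz
  have e5 := (h.hb z x hxz.symm).three hz hx
  have e6 := (h.hb z y hyz.symm).three hz hy
  have n1 : G.nbr x s ≠ G.nbr y s := by
    intro hh
    rw [← hh, G.invol] at e1
    exact hx e1.symm
  have n2 : G.nbr x s ≠ G.nbr z s := by
    intro hh
    rw [← hh, G.invol] at e2
    exact hx e2.symm
  have n3 : G.nbr y s ≠ G.nbr z s := by
    intro hh
    rw [← hh, G.invol] at e4
    exact hy e4.symm
  constructor
  · constructor
    · intro i j hij
      fin_cases i <;> fin_cases j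
      · rfl
      · exact absurd hij.symm hx
      · exact absurd hij.symm hy
      · exact absurd hij.symm hz
      · exact absurd hij hx
      · rfl
      · exact absurd hij n1
      · exact absurd hij n2
      · exact absurd hij hy
      · exact absurd hij.symm n1
      · rfl
      · exact absurd hij n3
      · exact absurd hij hz
      · exact absurd hij.symm n2
      · exact absurd hij.symm n3
      · rfl
    · intro u
      rcases huniv u with hu | hu | hu | hu
      · exact ⟨0, hu.symm⟩
      · exact ⟨1, hu.symm⟩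
      · exact ⟨2, hu.symm⟩
      · exact ⟨3, hu.symm⟩
  · intro c i
    by_cases hcx : c = x
    · subst hcx
      rw [if_pos rfl]
      fin_cases i
      · rfl
      · exact G.invol _ _
      · exact e1
      · exact e2
    · rw [if_neg hcx]
      by_cases hcy : c = y
      · subst hcy
        rw [if_pos rfl]
        fin_cases i
        · rfl
        · exact e3
        · exact G.invol _ _
        · exact e4
      · rw [if_neg hcy]
        by_cases hcz : c = z
        · subst hcz
          rw [if_pos rfl]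
          fin_cases i
          · rfl
          · exact e5
          · exact e6
          · exact G.invol _ _
        · rw [if_neg hcz]
          by_contra hne
          rcases h.hU _ _ hne with h1 | h1 | h1
          · exact hcx h1
          · exact hcy h1
          · exact hcz h1

theorem AlphaData.iso_triple [Finite ι] [Finite ι'] {G : Gluing k ι} {G' : Gluing k ι'}
    {x y z : Fin k} (hxy : x ≠ y) (hxz : x ≠ z) (hyz : y ≠ z) (h : AlphaData G x y z)
    (hS : Sim G G') (hG : G.Conn) {s : ι} (hs : G.Triple x y z s) : Iso G G' := by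
  obtain ⟨s', hs'⟩ := h.triple_transfer hxy hxz hyz hS hG hs
  obtain ⟨h1, h2⟩ := h.triple_coord hxy hxz hyz hG hs
  obtain ⟨h3, h4⟩ := (h.transfer hS).triple_coord hxy hxz hyz (hS.conn.1 hG) hs'
  exact iso_of_coord _ _ h1 h3 _ h2 h4

theorem AlphaData.iso_lt [Finite ι] [Finite ι'] {G : Gluing k ι} {G' : Gluing k ι'}
    {a b c : Fin k} (hab : a ≠ b) (hac : a ≠ c) (hbc : b ≠ c) (h : AlphaData G a b c)
    (hS : Sim G G') (hG : G.Conn) {s : ι} (hs : LT G a b c s)
    (hno : ∀ u, ¬ G'.Triple a b c u) : Iso G G' := by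
  have h' := h.transfer hS
  have hG' := hS.conn.1 hG
  have l1 := h.lin hab hac hbc hG hs
  by_cases hex : ∃ s', LT G' a b c s'
  · obtain ⟨s', hs'⟩ := hex
    have l2 := h'.lin hab hac hbc hG' hs'
    rw [← hS.card] at l2
    exact iso_of_lin ⟨_, l1⟩ ⟨_, l2⟩
  · exfalso
    have hp1 : ∀ d, (d = a ∨ d = c ∨ d = b) ↔ (d = a ∨ d = b ∨ d = c) := by
      intro d; constructor <;> rintro (h | h | h) <;> simp [h]
    -- `G'` has a leaf of type `(a, c)`
    obtain ⟨s', a1, a2, a3, a4⟩ := h.first hab hbc hS hG hs.b1 hs.c1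
    have a3' : G'.nbr a (G'.nbr a s') ≠ G'.nbr a s' := by rw [G'.invol]; exact a3.symm
    have f1 : LT G' a c b s' := by
      by_cases b1 : G'.nbr b (G'.nbr a s') = G'.nbr a s'
      · refine ⟨a2, a1, ?_, b1⟩
        rcases a4 with a4 | a4
        · exact absurd b1 a4
        · exact a4
      · exfalso
        by_cases b2 : G'.nbr c (G'.nbr a s') = G'.nbr a s'
        · exact hex ⟨s', a1, a2, b1, b2⟩
        · exact hno _ ⟨a3', b1, b2⟩
    -- `G'` has a leaf of type `(c, b)`
    obtain ⟨u', f2⟩ : ∃ u, LT G' c b a u := by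
      rcases h.second hab hbc hac hS hG hs with hh | hh
      · exact absurd hh hex
      · exact hh
    -- back to `G`
    obtain ⟨v, hv⟩ : ∃ v, LT G a c b v ∨ LT G b c a v := by
      rcases (h'.perm hp1).second hac hbc.symm hab hS.symm hG' f1 with ⟨v, hv⟩ | ⟨v, hv⟩
      · exact ⟨v, Or.inl hv⟩
      · exact ⟨v, Or.inr hv⟩
    obtain ⟨w, w1, w2, w3, -⟩ := (h'.perm (a := c) (b := b) (c := a) (by
      intro d; constructor <;> rintro (h | h | h) <;> simp [h])).first hbc.symm hab.symm
        hS.symm hG' (s := u') f2.b1 f2.c1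
    have leaf1 : ∀ p q r : Fin k, (∀ d, (d = a ∨ d = b ∨ d = c) → (d = p ∨ d = q ∨ d = r)) →
        ∀ u, G.nbr q u = u → G.nbr r u = u → G.Leaf u := by
      intro p q r hp u h1 h2 d e hd he
      have : ∀ d, G.nbr d u ≠ u → d = p := by
        intro d hd
        rcases hp d (h.hU _ _ hd) with h3 | h3 | h3
        · exact h3
        · subst h3; exact absurd h1 hd
        · subst h3; exact absurd h2 hd
      rw [this d hd, this e he]
    have ls : G.Leaf s := leaf1 a b c (fun d hd => hd) s hs.b1 hs.c1
    have lw : G.Leaf w := leaf1 c b a (by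
      rintro d (h | h | h) <;> simp [h]) w w1 w2
    have lv : G.Leaf v := by
      rcases hv with hv | hv
      · exact leaf1 a c b (by rintro d (h | h | h) <;> simp [h]) v hv.b1 hv.c1
      · exact leaf1 b c a (by rintro d (h | h | h) <;> simp [h]) v hv.b1 hv.c1
    have he := E3_ne a b c hab hac hbc
    have hvc : G.nbr c v = v := by
      rcases hv with hv | hv
      · exact hv.b1
      · exact hv.b1
    have nsw : s ≠ w := by
      rintro rfl
      exact w3 hs.c1
    have nvw : v ≠ w := by
      rintro rfl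
      exact w3 hvc
    have nsv : s ≠ v := by
      rintro rfl
      rcases hv with hv | hv
      · exact hv.b2 hs.c2
      · exact hs.a1 hv.c1
    rcases l1.leaf he lw with h1 | h1
    · exact nsw h1.symm
    · rcases l1.leaf he lv with h2 | h2
      · exact nsv h2.symm
      · exact nvw (h2.trans h1.symm)

theorem AlphaData.iso [Finite ι] [Finite ι'] {G : Gluing k ι} {G' : Gluing k ι'}
    {x y z : Fin k} (hxy : x ≠ y) (hxz : x ≠ z) (hyz : y ≠ z) (h : AlphaData G x y z)
    (hS : Sim G G') (hG : G.Conn) {s : ι} (hs : G.Leaf s) : Iso G G' := by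
  have h' := h.transfer hS
  have hG' := hS.conn.1 hG
  by_cases hT : ∃ u, G.Triple x y z u
  · obtain ⟨u, hu⟩ := hT
    exact h.iso_triple hxy hxz hyz hS hG hu
  by_cases hT' : ∃ u, G'.Triple x y z u
  · obtain ⟨u, hu⟩ := hT'
    exact (h'.iso_triple hxy hxz hyz hS.symm hG' hu).symm
  push Not at hT hT'
  -- the type of the leaf
  have key : ∀ a b c : Fin k, a ≠ b → a ≠ c → b ≠ c →
      (∀ d, (d = a ∨ d = b ∨ d = c) ↔ (d = x ∨ d = y ∨ d = z)) → G.nbr a s ≠ s → Iso G G' := by
    intro a b c hab hac hbc hp ha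
    have hp2 : ∀ d, (d = a ∨ d = c ∨ d = b) ↔ (d = x ∨ d = y ∨ d = z) := by
      intro d
      rw [← hp d]
      constructor <;> rintro (h | h | h) <;> simp [h]
    have hb : G.nbr b s = s := by
      by_contra hb; exact hab (hs _ _ ha hb)
    have hc : G.nbr c s = s := by
      by_contra hc; exact hac (hs _ _ ha hc)
    have hnoG : ∀ {α : Type} (H : Gluing k α), (∀ u, ¬ H.Triple x y z u) → ∀ p q r : Fin k,
        (∀ d, (d = p ∨ d = q ∨ d = r) ↔ (d = x ∨ d = y ∨ d = z)) → ∀ u, ¬ H.Triple p q r u := by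
      intro α H hH p q r hp u hu
      have : ∀ d, (d = x ∨ d = y ∨ d = z) → H.nbr d u ≠ u := by
        intro d hd
        rcases (hp d).2 hd with rfl | rfl | rfl
        · exact hu.1
        · exact hu.2.1
        · exact hu.2.2
      exact hH u ⟨this x (by simp), this y (by simp), this z (by simp)⟩
    have ha' : G.nbr a (G.nbr a s) ≠ G.nbr a s := by rw [G.invol]; exact ha.symm
    by_cases b1 : G.nbr b (G.nbr a s) = G.nbr a s
    · by_cases c1 : G.nbr c (G.nbr a s) = G.nbr a s
      · exfalso
        have hh := h.perm hp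
        refine exists_ne_of_conn hG {s, G.nbr a s} ⟨s, by simp⟩ ?_ b ?_ (hh.hu b (by simp))
        · intro d w hw
          by_cases hd : G.nbr d w = w
          · rw [hd]; exact hw
          · have hdU := hh.hU _ _ hd
            rcases hw with rfl | hw
            · rcases hdU with rfl | rfl | rfl
              · simp
              · exact absurd hb hd
              · exact absurd hc hd
            · rw [Set.mem_singleton_iff] at hw
              subst hw
              rcases hdU with rfl | rfl | rfl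
              · rw [G.invol]; simp
              · exact absurd b1 hd
              · exact absurd c1 hd
        · rintro w (rfl | hw)
          · exact hb
          · rw [Set.mem_singleton_iff] at hw
            subst hw
            exact b1
      · exact (h.perm hp2).iso_lt hac hab hbc.symm hS hG (s := s) ⟨hc, hb, c1, b1⟩
          (hnoG G' hT' _ _ _ hp2)
    · have c1 : G.nbr c (G.nbr a s) = G.nbr a s := by
        by_contra c1
        exact hnoG G hT _ _ _ hp _ ⟨ha', b1, c1⟩
      exact (h.perm hp).iso_lt hab hac hbc hS hG (s := s) ⟨hb, hc, b1, c1⟩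
        (hnoG G' hT' _ _ _ hp)
  by_cases h1 : G.nbr x s = s
  · by_cases h2 : G.nbr y s = s
    · by_cases h3 : G.nbr z s = s
      · exfalso
        refine exists_ne_of_conn hG {s} ⟨s, by simp⟩ ?_ x ?_ (h.hu x (by simp))
        · intro d w hw
          rw [Set.mem_singleton_iff] at hw
          subst hw
          by_contra hd
          rw [Set.mem_singleton_iff] at hd
          rcases h.hU _ _ hd with rfl | rfl | rfl
          · exact hd h1
          · exact hd h2
          · exact hd h3
        · intro w hw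
          rw [Set.mem_singleton_iff] at hw
          subst hw
          exact h1
      · refine key z x y hxz.symm hyz.symm hxy ?_ h3
        intro d; constructor <;> rintro (h | h | h) <;> simp [h]
    · refine key y x z hxy.symm hyz hxz ?_ h2
      intro d; constructor <;> rintro (h | h | h) <;> simp [h]
  · exact key x y z hxy hxz hyz (fun d => Iff.rfl) h1

end Gluing

end Pool.Agent.Helper58_Iso
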