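import Pool.Agent.Helper58_Iso.Gamma

namespace Pool.Agent.Helper58_Iso

open Function

namespace Gluing

variable {k : ℕ} {ι ι' : Type}

/-- the `(2,4,4)` data -/
structure BetaData (G : Gluing k ι) (x y z : Fin k) : Prop where
  hU : ∀ c t, G.nbr c t ≠ t → c = x ∨ c = y ∨ c = z
  ux : ∃ t, G.nbr x t ≠ t
  uy : ∃ t, G.nbr y t ≠ t
  uz : ∃ t, G.nbr z t ≠ t
  xy : G.WB x y 2
  yx : G.WB y x 2
  yz : G.WB y z 4
  zy : G.WB z y 4
  xz : G.WB x z 4
  zx : G.WB z x 4

theorem BetaData.swap {G : Gluing k ι} {x y z : Fin k} (h : BetaData G x y z) :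
    BetaData G y x z :=
  ⟨fun c t hc => by rcases h.hU c t hc with h | h | h <;> simp [h], h.uy, h.ux, h.uz, h.yx, h.xy,
    h.xz, h.zx, h.yz, h.zy⟩

theorem BetaData.transfer [Finite ι] [Finite ι'] {G : Gluing k ι} {G' : Gluing k ι'}
    {x y z : Fin k} (h : BetaData G x y z) (hS : Sim G G') : BetaData G' x y z := by
  obtain ⟨h1, h2⟩ := hS.wb h.xy h.yx
  obtain ⟨h3, h4⟩ := hS.wb h.yz h.zy
  obtain ⟨h5, h6⟩ := hS.wb h.xz h.zx
  have hu : ∀ c, (∃ t, G.nbr c t ≠ t) → ∃ t, G'.nbr c t ≠ t := by
    intro c hc
    by_contra hne
    push Not at hne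
    obtain ⟨t, ht⟩ := hc
    exact ht (hS.symm.unused hne t)
  refine ⟨?_, hu _ h.ux, hu _ h.uy, hu _ h.uz, h1, h2, h3, h4, h5, h6⟩
  intro c t hc
  by_contra hne
  refine hc (hS.unused (c := c) ?_ t)
  intro s
  by_contra hs
  exact hne (h.hU _ _ hs)

theorem exists_ne_of_conn {G : Gluing k ι} (hG : G.Conn) (S : Set ι) (hne : S.Nonempty)
    (hinv : ∀ c, ∀ t ∈ S, G.nbr c t ∈ S) (y : Fin k) (hy : ∀ t ∈ S, G.nbr y t = t) :
    ¬ ∃ t, G.nbr y t ≠ t := by
  have h1 := hG S hne hinv
  rintro ⟨t, ht⟩
  exact ht (hy t (by rw [h1]; trivial))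

/-- start at a leaf of colour `x` -/
theorem BetaData.lin_x [Finite ι] {G : Gluing k ι} {x y z : Fin k}
    (hxz : x ≠ z) (hyz : y ≠ z) (h : BetaData G x y z) (hG : G.Conn) (s : ι)
    (hsy : G.nbr y s = s) (hsz : G.nbr z s = s) :
    Lin G (E4 x y z) (Nat.card ι) := by
  have hts : ∀ i, G.walk (E4 x y z) s (i + 1) = G.nbr (E4 x y z i) (G.walk (E4 x y z) s i) :=
    fun i => rfl
  refine ⟨_, lin_of_regular G hG _ (E4_ne x y z hxz hyz) _ hts ?_⟩
  intro i hi c hc
  set t := G.walk (E4 x y z) s with ht
  have hgl : ∀ j < i, G.nbr (E4 x y z j) (t (j + 1)) ≠ t (j + 1) := by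
    intro j hj
    rw [hts, G.invol, ← hts]
    exact (hi j hj).symm
  have hcU := h.hU _ _ hc
  have h0 : t 0 = s := rfl
  rcases Nat.lt_or_ge i 3 with hi3 | hi3
  · interval_cases i
    · left
      rcases hcU with rfl | rfl | rfl
      · simp [E4]
      · exact absurd hsy hc
      · exact absurd hsz hc
    · have h0 := hgl 0 (by omega)
      simp only [E4] at h0 ⊢
      norm_num at h0 ⊢
      have := h.xy.two h0
      rcases hcU with rfl | rfl | rfl
      · exact Or.inr rfl
      · exact absurd this hc
      · exact Or.inl rfl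
    · simp only [E4]
      norm_num
      rcases hcU with rfl | rfl | rfl
      · exfalso
        have e0 : t 1 = G.nbr c (t 0) := by simpa [E4] using hts 0
        have e1 : t 2 = G.nbr z (t 1) := by simpa [E4] using hts 1
        have hz3 : G.nbr z (G.nbr c (t 2)) = G.nbr c (t 2) := by
          obtain ⟨b, hb, h2⟩ := h.xz (t 0)
          interval_cases b
          · rw [alt_succ_even _ _ _ _ _ (by omega), alt_zero, ← e0] at h2
            exact absurd h2 (hi 0 (by omega))
          · rw [alt_succ_odd _ _ _ _ _ (by omega), alt_succ_even _ _ _ _ _ (by omega),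
              alt_zero, ← e0, ← e1] at h2
            exact absurd h2 (hi 1 (by omega))
          · rw [alt_succ_even _ _ _ _ _ (by omega), alt_succ_odd _ _ _ _ _ (by omega),
              alt_succ_even _ _ _ _ _ (by omega), alt_zero, ← e0, ← e1] at h2
            exact absurd h2 hc
          · rw [alt_succ_odd _ _ _ _ _ (by omega), alt_succ_even _ _ _ _ _ (by omega),
              alt_succ_odd _ _ _ _ _ (by omega),
              alt_succ_even _ _ _ _ _ (by omega), alt_zero, ← e0, ← e1] at h2
            exact h2
        have hy1 : G.nbr y (t 1) = t 1 := h.xy.two (by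
          rw [e0, G.invol]
          intro hh
          exact hi 0 (by omega) (by rw [e0]; exact hh.symm))
        have hy2 : G.nbr y (t 2) = t 2 := h.xy.two hc
        have hy3 : G.nbr y (G.nbr c (t 2)) = G.nbr c (t 2) := h.xy.two (by
          rw [G.invol]; exact fun hh => hc hh.symm)
        refine exists_ne_of_conn hG {t 0, t 1, t 2, G.nbr c (t 2)} ⟨t 0, by simp⟩ ?_ y ?_ h.uy
        · intro d u hu
          by_cases hd : G.nbr d u = u
          · rw [hd]; exact hu
          · have hdU := h.hU _ _ hd
            rcases hu with rfl | rfl | rfl | hu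
            · rcases hdU with rfl | rfl | rfl
              · have hh : G.nbr d u = t 1 := by rw [e0, h0]
                rw [hh]; simp
              · exact absurd hsy hd
              · exact absurd hsz hd
            · rcases hdU with rfl | rfl | rfl
              · rw [e0, G.invol]; simp
              · exact absurd hy1 hd
              · rw [← e1]; simp
            · rcases hdU with rfl | rfl | rfl
              · simp
              · exact absurd hy2 hd
              · rw [e1, G.invol]; simp
            · rw [Set.mem_singleton_iff] at hu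
              subst hu
              rcases hdU with rfl | rfl | rfl
              · rw [G.invol]; simp
              · exact absurd hy3 hd
              · exact absurd hz3 hd
        · rintro u (rfl | rfl | rfl | hu)
          · exact hsy
          · exact hy1
          · exact hy2
          · rw [Set.mem_singleton_iff] at hu
            subst hu
            exact hy3
      · exact Or.inl rfl
      · exact Or.inr rfl
  · have hmod : i % 4 = 0 ∨ i % 4 = 1 ∨ i % 4 = 2 ∨ i % 4 = 3 := by omega
    obtain ⟨j, rfl⟩ : ∃ j, i = j + 3 := ⟨i - 3, by omega⟩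
    have hl : j + 3 - 1 = j + 2 := by omega
    rw [hl]
    rcases hmod with hm | hm | hm | hm
    · rw [E4_zero _ _ _ hm, E4_odd (i := j + 2) _ _ _ (by omega)]
      rcases hcU with rfl | rfl | rfl
      · exact Or.inl rfl
      · exfalso
        refine h.zy.no_alt hts j (m := 3) ?_ ?_ ?_
        · intro l hl
          interval_cases l
          · rw [E4_odd _ _ _ (by omega)]; simp
          · rw [E4_two _ _ _ (by omega)]; simp
          · rw [E4_odd _ _ _ (by omega)]; simp
        · intro l hl
          exact hi _ (by omega)
        · simpa using hc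
      · exact Or.inr ⟨by omega, rfl⟩
    · have h0 := hgl (j + 2) (by omega)
      rw [E4_odd _ _ _ (by omega), E4_zero (i := j + 2) _ _ _ (by omega)]
      rw [E4_zero (i := j + 2) _ _ _ (by omega)] at h0
      have := h.xy.two h0
      rcases hcU with rfl | rfl | rfl
      · exact Or.inr ⟨by omega, rfl⟩
      · exact absurd this hc
      · exact Or.inl rfl
    · rw [E4_two _ _ _ hm, E4_odd (i := j + 2) _ _ _ (by omega)]
      rcases hcU with rfl | rfl | rfl
      · exfalso
        refine h.zx.no_alt hts j (m := 3) ?_ ?_ ?_
        · intro l hl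
          interval_cases l
          · rw [E4_odd _ _ _ (by omega)]; simp
          · rw [E4_zero _ _ _ (by omega)]; simp
          · rw [E4_odd _ _ _ (by omega)]; simp
        · intro l hl
          exact hi _ (by omega)
        · simpa using hc
      · exact Or.inl rfl
      · exact Or.inr ⟨by omega, rfl⟩
    · have h0 := hgl (j + 2) (by omega)
      rw [E4_odd _ _ _ (by omega), E4_two (i := j + 2) _ _ _ (by omega)]
      rw [E4_two (i := j + 2) _ _ _ (by omega)] at h0
      have := h.yx.two h0
      rcases hcU with rfl | rfl | rfl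
      · exact absurd this hc
      · exact Or.inr ⟨by omega, rfl⟩
      · exact Or.inl rfl

/-- start at a leaf of colour `z` whose neighbour has `x` glued -/
theorem BetaData.lin_z [Finite ι] {G : Gluing k ι} {x y z : Fin k}
    (hxz : x ≠ z) (hyz : y ≠ z) (h : BetaData G x y z) (hG : G.Conn) (s : ι)
    (hsx : G.nbr x s = s) (hsy : G.nbr y s = s) (hs1 : G.nbr x (G.nbr z s) ≠ G.nbr z s) :
    Lin G (fun i => E4 x y z (i + 3)) (Nat.card ι) := by
  have hts : ∀ i, G.walk (fun i => E4 x y z (i + 3)) s (i + 1) =
      G.nbr (E4 x y z (i + 3)) (G.walk (fun i => E4 x y z (i + 3)) s i) :=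
    fun i => rfl
  refine ⟨_, lin_of_regular G hG _ (fun i => E4_ne x y z hxz hyz (i + 3)) _ hts ?_⟩
  intro i hi c hc
  set t := G.walk (fun i => E4 x y z (i + 3)) s with ht
  have hgl : ∀ j < i, G.nbr (E4 x y z (j + 3)) (t (j + 1)) ≠ t (j + 1) := by
    intro j hj
    rw [hts, G.invol, ← hts]
    exact (hi j hj).symm
  have hcU := h.hU _ _ hc
  have h0 : t 0 = s := rfl
  have e0 : t 1 = G.nbr z s := by simpa [E4, h0] using hts 0
  rcases Nat.lt_or_ge i 3 with hi3 | hi3
  · interval_cases i
    · left
      rcases hcU with rfl | rfl | rfl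
      · exact absurd hsx hc
      · exact absurd hsy hc
      · simp [E4]
    · simp only [E4]
      norm_num
      rw [← e0] at hs1
      have := h.xy.two hs1
      rcases hcU with rfl | rfl | rfl
      · exact Or.inl rfl
      · exact absurd this hc
      · exact Or.inr rfl
    · have h1 := hgl 1 (by omega)
      simp only [E4] at h1 ⊢
      norm_num at h1 ⊢
      have := h.xy.two h1
      rcases hcU with rfl | rfl | rfl
      · exact Or.inr rfl
      · exact absurd this hc
      · exact Or.inl rfl
  · have hmod : i % 4 = 0 ∨ i % 4 = 1 ∨ i % 4 = 2 ∨ i % 4 = 3 := by omega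
    obtain ⟨j, rfl⟩ : ∃ j, i = j + 3 := ⟨i - 3, by omega⟩
    have hl : j + 3 - 1 = j + 2 := by omega
    simp only [hl]
    rcases hmod with hm | hm | hm | hm
    · -- j % 4 = 1, colour at i is E4 (j+6) : odd
      have h0 := hgl (j + 2) (by omega)
      rw [E4_odd _ _ _ (by omega), E4_two (i := j + 2 + 3) _ _ _ (by omega)]
      rw [E4_two (i := j + 2 + 3) _ _ _ (by omega)] at h0
      have := h.yx.two h0
      rcases hcU with rfl | rfl | rfl
      · exact absurd this hc
      · exact Or.inr ⟨by omega, rfl⟩
      · exact Or.inl rfl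
    · rw [E4_zero _ _ _ (by omega), E4_odd (i := j + 2 + 3) _ _ _ (by omega)]
      rcases hcU with rfl | rfl | rfl
      · exact Or.inl rfl
      · exfalso
        refine h.zy.no_alt hts j (m := 3) ?_ ?_ ?_
        · intro l hl
          interval_cases l
          · rw [E4_odd _ _ _ (by omega)]; simp
          · rw [E4_two _ _ _ (by omega)]; simp
          · rw [E4_odd _ _ _ (by omega)]; simp
        · intro l hl
          exact hi _ (by omega)
        · simpa using hc
      · exact Or.inr ⟨by omega, rfl⟩
    · have h0 := hgl (j + 2) (by omega)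
      rw [E4_odd _ _ _ (by omega), E4_zero (i := j + 2 + 3) _ _ _ (by omega)]
      rw [E4_zero (i := j + 2 + 3) _ _ _ (by omega)] at h0
      have := h.xy.two h0
      rcases hcU with rfl | rfl | rfl
      · exact Or.inr ⟨by omega, rfl⟩
      · exact absurd this hc
      · exact Or.inl rfl
    · rw [E4_two _ _ _ (by omega), E4_odd (i := j + 2 + 3) _ _ _ (by omega)]
      rcases hcU with rfl | rfl | rfl
      · exfalso
        refine h.zx.no_alt hts j (m := 3) ?_ ?_ ?_
        · intro l hl
          interval_cases l
          · rw [E4_odd _ _ _ (by omega)]; simp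
          · rw [E4_zero _ _ _ (by omega)]; simp
          · rw [E4_odd _ _ _ (by omega)]; simp
        · intro l hl
          exact hi _ (by omega)
        · simpa using hc
      · exact Or.inl rfl
      · exact Or.inr ⟨by omega, rfl⟩

/-- a point of period two of `Z c d` gives an isolated edge -/
theorem per_two {G : Gluing k ι} {c d : Fin k} (hQ : G.QQ c d) {t : ι}
    (ht : minimalPeriod (G.Z c d) t = 2) :
    ∃ u v, u ≠ v ∧ ((G.nbr c u = v ∧ G.nbr d u = u ∧ G.nbr d v = v) ∨
      (G.nbr d u = v ∧ G.nbr c u = u ∧ G.nbr c v = v)) := by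
  have h2 : ((G.Z c d) ^ 2) t = t := by
    rw [Equiv.Perm.coe_pow]
    have := iterate_minimalPeriod (f := G.Z c d) (x := t)
    rwa [ht] at this
  have h1 : G.Z c d t ≠ t := by
    intro h
    have := IsPeriodicPt.minimalPeriod_le (f := G.Z c d) (x := t) (n := 1) (by omega) h
    omega
  obtain ⟨J, hJ⟩ := hQ t
  obtain ⟨i, hi, h3⟩ := exists_pow_lt (G.Z c d) t (G.nbr c t) 2 (by omega) h2 J hJ
  rw [pow_two, Equiv.Perm.mul_apply, Z_apply, Z_apply] at h2
  rw [Z_apply] at h1
  interval_cases i
  · rw [pow_zero, Equiv.Perm.one_apply] at h3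
    rw [← h3] at h1 h2
    refine ⟨t, G.nbr d t, Ne.symm h1, Or.inr ⟨rfl, h3.symm, ?_⟩⟩
    have := congrArg (G.nbr d) h2
    rwa [G.invol] at this
  · rw [pow_one, Z_apply] at h3
    refine ⟨t, G.nbr c t, fun hh => h1 ?_, Or.inl ⟨rfl, ?_, h3⟩⟩
    · rw [h3]; exact hh.symm
    · rw [h3, G.invol] at h2
      exact h2

theorem per_two_of_edge {G : Gluing k ι} {c d : Fin k} {u : ι} (h1 : G.nbr c u ≠ u)
    (h2 : G.nbr d u = u) (h3 : G.nbr d (G.nbr c u) = G.nbr c u) :
    minimalPeriod (G.Z c d) u = 2 := by
  apply Function.minimalPeriod_eq_prime (p := 2)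
  · rw [IsPeriodicPt, IsFixedPt]
    simp only [Function.iterate_succ, Function.iterate_zero, Function.comp_apply, id]
    rw [Z_apply, Z_apply, h3, G.invol, h2]
  · rw [IsFixedPt, Z_apply, h3]
    exact h1

theorem BetaData.iso_of_x [Finite ι] [Finite ι'] {G : Gluing k ι} {G' : Gluing k ι'}
    {x y z : Fin k} (hxz : x ≠ z) (hyz : y ≠ z)
    (h : BetaData G x y z) (hS : Sim G G') (hG : G.Conn) (s : ι)
    (hsy : G.nbr y s = s) (hsz : G.nbr z s = s) : Iso G G' := by
  have h' := h.transfer hS
  have hG' := hS.conn.1 hG
  obtain ⟨s', h1, h2⟩ := hS.exists_fixed_two (qq_pp_of_wb _ _ _ _ h'.yz h'.zy).1 ⟨s, hsy, hsz⟩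
  have l1 := h.lin_x hxz hyz hG s hsy hsz
  have l2 := h'.lin_x hxz hyz hG' s' h1 h2
  rw [← hS.card] at l2
  exact iso_of_lin l1 l2

theorem BetaData.iso_of_z [Finite ι] [Finite ι'] {G : Gluing k ι} {G' : Gluing k ι'}
    {x y z : Fin k} (hxz : x ≠ z) (hyz : y ≠ z)
    (h : BetaData G x y z) (hS : Sim G G') (hG : G.Conn) (s : ι)
    (hsx : G.nbr x s = s) (hsy : G.nbr y s = s) (hsz : G.nbr z s ≠ s)
    (hs1 : G.nbr x (G.nbr z s) ≠ G.nbr z s) : Iso G G' := by
  have h' := h.transfer hS
  have hG' := hS.conn.1 hG
  have l1 := h.lin_z hxz hyz hG s hsx hsy hs1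
  have hper := per_two_of_edge hsz hsy (h.xy.two hs1)
  obtain ⟨t, ht⟩ := (hS.per z y 2).1 ⟨s, hper⟩
  -- it suffices to find the right leaf in `G'`
  suffices hh : ∃ s', G'.nbr x s' = s' ∧ G'.nbr y s' = s' ∧
      G'.nbr x (G'.nbr z s') ≠ G'.nbr z s' by
    obtain ⟨s', a1, a2, a3⟩ := hh
    have l2 := h'.lin_z hxz hyz hG' s' a1 a2 a3
    rw [← hS.card] at l2
    exact iso_of_lin l1 l2
  obtain ⟨u, v, huv, hcase⟩ := per_two (qq_pp_of_wb _ _ _ _ h'.zy h'.yz).1 ht
  have hvne : v ≠ u := fun hh => huv hh.symm
  rcases hcase with ⟨a1, a2, a3⟩ | ⟨a1, a2, a3⟩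
  · have a1' : G'.nbr z v = u := by rw [← a1, G'.invol]
    by_cases bu : G'.nbr x u = u
    · refine ⟨u, bu, a2, ?_⟩
      rw [a1]
      intro bv
      refine exists_ne_of_conn hG' {u, v} ⟨u, by simp⟩ ?_ x ?_ h'.ux
      · intro d w hw
        by_cases hd : G'.nbr d w = w
        · rw [hd]; exact hw
        · have hdU := h'.hU _ _ hd
          rcases hw with rfl | hw
          · rcases hdU with rfl | rfl | rfl
            · exact absurd bu hd
            · exact absurd a2 hd
            · rw [a1]; simp
          · rw [Set.mem_singleton_iff] at hw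
            subst hw
            rcases hdU with rfl | rfl | rfl
            · exact absurd bv hd
            · exact absurd a3 hd
            · rw [a1']; simp
      · rintro w (rfl | hw)
        · exact bu
        · rw [Set.mem_singleton_iff] at hw
          subst hw
          exact bv
    · by_cases bv : G'.nbr x v = v
      · refine ⟨v, bv, a3, ?_⟩
        rw [a1']
        exact bu
      · exfalso
        have c1 : G'.nbr z (G'.nbr x v) = G'.nbr x v := by
          obtain ⟨b, hb, h2⟩ := h'.xz (G'.nbr x u)
          interval_cases b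
          · rw [alt_succ_even _ _ _ _ _ (by omega), alt_zero, G'.invol] at h2
            exact absurd h2.symm bu
          · rw [alt_succ_odd _ _ _ _ _ (by omega), alt_succ_even _ _ _ _ _ (by omega),
              alt_zero, G'.invol, a1] at h2
            exact absurd h2 hvne
          · rw [alt_succ_even _ _ _ _ _ (by omega), alt_succ_odd _ _ _ _ _ (by omega),
              alt_succ_even _ _ _ _ _ (by omega), alt_zero, G'.invol, a1] at h2
            exact absurd h2 bv
          · rw [alt_succ_odd _ _ _ _ _ (by omega), alt_succ_even _ _ _ _ _ (by omega),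
              alt_succ_odd _ _ _ _ _ (by omega),
              alt_succ_even _ _ _ _ _ (by omega), alt_zero, G'.invol, a1] at h2
            exact h2
        have c2 : G'.nbr z (G'.nbr x u) = G'.nbr x u := by
          obtain ⟨b, hb, h2⟩ := h'.xz (G'.nbr x v)
          interval_cases b
          · rw [alt_succ_even _ _ _ _ _ (by omega), alt_zero, G'.invol] at h2
            exact absurd h2.symm bv
          · rw [alt_succ_odd _ _ _ _ _ (by omega), alt_succ_even _ _ _ _ _ (by omega),
              alt_zero, G'.invol, a1'] at h2
            exact absurd h2 huv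
          · rw [alt_succ_even _ _ _ _ _ (by omega), alt_succ_odd _ _ _ _ _ (by omega),
              alt_succ_even _ _ _ _ _ (by omega), alt_zero, G'.invol, a1'] at h2
            exact absurd h2 bu
          · rw [alt_succ_odd _ _ _ _ _ (by omega), alt_succ_even _ _ _ _ _ (by omega),
              alt_succ_odd _ _ _ _ _ (by omega),
              alt_succ_even _ _ _ _ _ (by omega), alt_zero, G'.invol, a1'] at h2
            exact h2
        have d1 : G'.nbr y (G'.nbr x u) = G'.nbr x u := h'.xy.two (by
          rw [G'.invol]; exact fun hh => bu hh.symm)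
        have d2 : G'.nbr y (G'.nbr x v) = G'.nbr x v := h'.xy.two (by
          rw [G'.invol]; exact fun hh => bv hh.symm)
        refine exists_ne_of_conn hG' {u, v, G'.nbr x u, G'.nbr x v} ⟨u, by simp⟩ ?_ y ?_ h'.uy
        · intro d w hw
          by_cases hd : G'.nbr d w = w
          · rw [hd]; exact hw
          · have hdU := h'.hU _ _ hd
            rcases hw with rfl | rfl | rfl | hw
            · rcases hdU with rfl | rfl | rfl
              · simp
              · exact absurd a2 hd
              · rw [a1]; simp
            · rcases hdU with rfl | rfl | rfl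
              · simp
              · exact absurd a3 hd
              · rw [a1']; simp
            · rcases hdU with rfl | rfl | rfl
              · rw [G'.invol]; simp
              · exact absurd d1 hd
              · exact absurd c2 hd
            · rw [Set.mem_singleton_iff] at hw
              subst hw
              rcases hdU with rfl | rfl | rfl
              · rw [G'.invol]; simp
              · exact absurd d2 hd
              · exact absurd c1 hd
        · rintro w (rfl | rfl | rfl | hw)
          · exact a2
          · exact a3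
          · exact d1
          · rw [Set.mem_singleton_iff] at hw
            subst hw
            exact d2
  · exfalso
    have a1' : G'.nbr y v = u := by rw [← a1, G'.invol]
    have b1 : G'.nbr x u = u := h'.yx.two (by rw [a1]; exact hvne)
    have b2 : G'.nbr x v = v := h'.yx.two (by rw [a1']; exact huv)
    refine exists_ne_of_conn hG' {u, v} ⟨u, by simp⟩ ?_ x ?_ h'.ux
    · intro d w hw
      by_cases hd : G'.nbr d w = w
      · rw [hd]; exact hw
      · have hdU := h'.hU _ _ hd
        rcases hw with rfl | hw
        · rcases hdU with rfl | rfl | rfl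
          · exact absurd b1 hd
          · rw [a1]; simp
          · exact absurd a2 hd
        · rw [Set.mem_singleton_iff] at hw
          subst hw
          rcases hdU with rfl | rfl | rfl
          · exact absurd b2 hd
          · rw [a1']; simp
          · exact absurd a3 hd
    · rintro w (rfl | hw)
      · exact b1
      · rw [Set.mem_singleton_iff] at hw
        subst hw
        exact b2

/-- A leaf: at most one glued side. -/
def Leaf (G : Gluing k ι) (s : ι) : Prop := ∀ c d, G.nbr c s ≠ s → G.nbr d s ≠ s → c = d

theorem BetaData.iso [Finite ι] [Finite ι'] {G : Gluing k ι} {G' : Gluing k ι'}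
    {x y z : Fin k} (hxy : x ≠ y) (hxz : x ≠ z) (hyz : y ≠ z)
    (h : BetaData G x y z) (hS : Sim G G') (hG : G.Conn) (s : ι) (hs : G.Leaf s) :
    Iso G G' := by
  by_cases h1 : G.nbr x s = s
  · by_cases h2 : G.nbr y s = s
    · by_cases h3 : G.nbr z s = s
      · exfalso
        refine exists_ne_of_conn hG {s} ⟨s, by simp⟩ ?_ x ?_ h.ux
        · intro d w hw
          rw [Set.mem_singleton_iff] at hw
          subst hw
          by_contra hd
          rw [Set.mem_singleton_iff] at hd
          rcases h.hU _ _ hd with rfl | rfl | rfl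
          · exact hd h1
          · exact hd h2
          · exact hd h3
        · intro w hw
          rw [Set.mem_singleton_iff] at hw
          subst hw
          exact h1
      · by_cases h4 : G.nbr x (G.nbr z s) = G.nbr z s
        · by_cases h5 : G.nbr y (G.nbr z s) = G.nbr z s
          · exfalso
            refine exists_ne_of_conn hG {s, G.nbr z s} ⟨s, by simp⟩ ?_ x ?_ h.ux
            · intro d w hw
              by_cases hd : G.nbr d w = w
              · rw [hd]; exact hw
              · have hdU := h.hU _ _ hd
                rcases hw with rfl | hw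
                · rcases hdU with rfl | rfl | rfl
                  · exact absurd h1 hd
                  · exact absurd h2 hd
                  · simp
                · rw [Set.mem_singleton_iff] at hw
                  subst hw
                  rcases hdU with rfl | rfl | rfl
                  · exact absurd h4 hd
                  · exact absurd h5 hd
                  · rw [G.invol]; simp
            · rintro w (rfl | hw)
              · exact h1
              · rw [Set.mem_singleton_iff] at hw
                subst hw
                exact h4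
          · exact h.swap.iso_of_z hyz hxz hS hG s h2 h1 h3 h5
        · exact h.iso_of_z hxz hyz hS hG s h1 h2 h3 h4
    · have h3 : G.nbr z s = s := by
        by_contra h3; exact hyz (hs _ _ h2 h3)
      exact h.swap.iso_of_x hyz hxz hS hG s h1 h3
  · have h2 : G.nbr y s = s := by
      by_contra h2; exact hxy (hs _ _ h1 h2)
    have h3 : G.nbr z s = s := by
      by_contra h3; exact hxz (hs _ _ h1 h3)
    exact h.iso_of_x hxz hyz hS hG s h2 h3

end Gluing

end Pool.Agent.Helper58_Iso
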