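import Mathlib

namespace Pool.Agent.Helper58_Iso

open scoped ComplexConjugate Topology

/-- A gluing pattern: a finite set `ι` of tiles and, for each of the `k` marked sides (colours),
an involution `nbr c` of the tiles. `nbr c t = s ≠ t` means that the copies `s` and `t` are glued
along their sides `c`; `nbr c t = t` means that side `c` of copy `t` is not glued. -/
structure Gluing (k : ℕ) (ι : Type) where
  nbr : Fin k → ι → ι
  invol : ∀ c t, nbr c (nbr c t) = t

/-- The Dirichlet-signed adjacency matrix of colour `c`: off the diagonal it is the adjacency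
matrix of the gluing along side `c`, and a tile whose side `c` is not glued carries a `-1`
on the diagonal. -/
def Gluing.signed {k : ℕ} {ι : Type} [DecidableEq ι] (G : Gluing k ι) (c : Fin k) :
    Matrix ι ι ℝ :=
  fun s t => if G.nbr c s = t then (if s = t then -1 else 1) else 0

/-- Two gluing patterns are transplantable (for Dirichlet boundary conditions) if one invertible
matrix intertwines their signed adjacency matrices of every colour. -/
def Transplantable {k : ℕ} {ι ι' : Type} [Fintype ι] [Fintype ι'] [DecidableEq ι]
    [DecidableEq ι'] (G : Gluing k ι) (G' : Gluing k ι') : Prop :=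
  ∃ (M : Matrix ι' ι ℝ) (N : Matrix ι ι' ℝ), N * M = 1 ∧ M * N = 1 ∧
    ∀ c, M * G.signed c = G'.signed c * M

/-- The mirror image of `z` in the line through `a` and `b`. -/
noncomputable def mirror (a b z : ℂ) : ℂ := a + (b - a) / conj (b - a) * conj (z - a)

/-- A signed multiple of the distance of `z` from the line through `a` and `b`: it is positive
exactly when `z` lies strictly to the left of the line directed from `a` to `b`. -/
noncomputable def height (a b z : ℂ) : ℝ := ((z - a) * conj (b - a)).im

/-- A tile: a connected open set `U` of the plane with `k` marked straight sides, the side `c`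
being the segment from `a c` to `b c`. Near each relatively interior point of a marked side the
set `U` is exactly the part of the plane to the left of the side; different marked sides meet at
most in endpoints. The rest of the boundary of `U` is arbitrary. -/
structure Tile (k : ℕ) where
  U : Set ℂ
  a : Fin k → ℂ
  b : Fin k → ℂ
  isOpen : IsOpen U
  isConnected : IsConnected U
  ne : ∀ c, a c ≠ b c
  side : ∀ c, ∀ z ∈ openSegment ℝ (a c) (b c), ∀ᶠ w in 𝓝 z, (w ∈ U ↔ 0 < height (a c) (b c) w)
  disj : ∀ c d, c ≠ d → Disjoint (segment ℝ (a c) (b c)) (openSegment ℝ (a d) (b d))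

/-- `φ` places the copies of the tile `T` in the plane according to the gluing pattern `G`: glued
copies are mirror images of each other in their common side, and different (open) copies are
disjoint. -/
structure IsUnfolding {k : ℕ} {ι : Type} (T : Tile k) (G : Gluing k ι)
    (φ : ι → (ℂ ≃ᵃⁱ[ℝ] ℂ)) : Prop where
  glue : ∀ c t, G.nbr c t ≠ t → ∀ z, φ (G.nbr c t) z = φ t (mirror (T.a c) (T.b c) z)
  disj : ∀ s t, s ≠ t → Disjoint (φ s '' T.U) (φ t '' T.U)

/-- The plane set obtained by glueing: the union of the open copies of the tile and of the
relatively open sides along which two copies are glued. -/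
def domain {k : ℕ} {ι : Type} (T : Tile k) (G : Gluing k ι) (φ : ι → (ℂ ≃ᵃⁱ[ℝ] ℂ)) : Set ℂ :=
  {z | (∃ t, z ∈ φ t '' T.U) ∨
    ∃ t c, G.nbr c t ≠ t ∧ z ∈ φ t '' openSegment ℝ (T.a c) (T.b c)}

end Pool.Agent.Helper58_Iso
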