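import Pool.Agent.Helper58_Iso.Rays

namespace Pool.Agent.Helper58_Iso

open Complex Set Filter
open scoped ComplexConjugate Topology Real

variable {k : ℕ} {ι ι' : Type} {T : Tile k} {G : Gluing k ι} {φ : ι → (ℂ ≃ᵃⁱ[ℝ] ℂ)}

theorem rat_inv (T : Tile k) (c d : Fin k) : rat T d c = (rat T c d)⁻¹ := by
  rw [rat, rat, inv_div]

theorem rat_inv_im {c d : Fin k} (h : (rat T c d).im ≠ 0) : (rat T d c).im ≠ 0 := by
  rw [rat_inv, inv_im]
  have h1 : normSq (rat T c d) ≠ 0 := (normSq_pos.2 (rat_ne T c d)).ne'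
  exact div_ne_zero (neg_ne_zero.2 h) h1

namespace IsUnfolding

variable (h : IsUnfolding T G φ)
include h

/-- the angle between side `c` and the following side `d` -/
noncomputable def ang (T : Tile k) (c d : Fin k) : ℝ :=
  InnerProductGeometry.angle (T.a c - T.b c) (T.b d - T.a d)

theorem tri_ab (hP : Convex ℝ (domain T G φ)) {c d : Fin k} (hcd : T.a d = T.b c)
    (hnp : (rat T c d).im ≠ 0) : G.AB c d (ang T c d) ∧ G.AB d c (ang T c d) := by
  have h1 := adj_b T c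
  have h2 : Adj T (T.b c) d (T.b d - T.a d) := hcd ▸ adj_a T d
  have hnp' := rat_inv_im hnp
  constructor
  · refine h.ab hP (T.corner_b c) h1 h2 ?_
    rw [show (T.a c - T.b c) / (T.b d - T.a d) = - rat T d c by rw [rat]; ring]
    rw [neg_im]
    exact neg_ne_zero.2 hnp'
  · rw [ang, InnerProductGeometry.angle_comm]
    refine h.ab hP (T.corner_b c) h2 h1 ?_
    rw [show (T.b d - T.a d) / (T.a c - T.b c) = - rat T c d by
      rw [rat, show T.a c - T.b c = -(T.b c - T.a c) by ring, div_neg]]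
    rw [neg_im]
    exact neg_ne_zero.2 hnp

theorem rel (hP : Convex ℝ (domain T G φ)) {x y : Fin k}
    (hx : ∃ t, G.nbr x t ≠ t) (hy : ∃ t, G.nbr y t ≠ t) (hxy : x ≠ y)
    (hnp : (rat T x y).im ≠ 0) : T.a y = T.b x ∨ T.a x = T.b y := by
  obtain ⟨t, ht⟩ := hx
  obtain ⟨s, hs⟩ := hy
  obtain ⟨p1, p2, -⟩ := (h.good hP ht).pair (h.good hP hs) hxy
  rcases lt_or_gt_of_ne hnp with h1 | h1
  · exact Or.inr (p2 h1).symm
  · exact Or.inl (p1 h1)

theorem triData (hP : Convex ℝ (domain T G φ)) (hG : G.Conn) {x y z : Fin k}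
    (hx : ∃ t, G.nbr x t ≠ t) (hy : ∃ t, G.nbr y t ≠ t) (hz : ∃ t, G.nbr z t ≠ t)
    (hxy : x ≠ y) (hxz : x ≠ z) (hyz : y ≠ z)
    (e1 : T.a y = T.b x) (e2 : T.a z = T.b y) (e3 : T.a x = T.b z) :
    ∃ A B C, Gluing.TriData G x y z A B C := by
  have n1 := h.no_par hP hG hx hy hz hxy hxz hyz
  have n2 := h.no_par hP hG hy hz hx hyz hxy.symm hxz.symm
  have n3 := h.no_par hP hG hz hx hy hxz.symm hyz.symm hxy
  obtain ⟨a1, a2⟩ := h.tri_ab hP e1 n1
  obtain ⟨b1, b2⟩ := h.tri_ab hP e2 n2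
  obtain ⟨c1, c2⟩ := h.tri_ab hP e3 n3
  refine ⟨_, _, _, hxy, hxz, hyz, ?_, ?_, a1, a2, b1, b2, c2, c1, ?_⟩
  · intro w t hw
    by_contra hne
    push Not at hne
    obtain ⟨hwx, hwy, hwz⟩ := hne
    have hwu : ∃ t, G.nbr w t ≠ t := ⟨t, hw⟩
    rcases h.rel hP hx hwu hwx.symm (h.no_par hP hG hx hwu hy hwx.symm hxy hwy) with r1 | r1
    · rcases h.rel hP hy hwu hwy.symm (h.no_par hP hG hy hwu hx hwy.symm hxy.symm hwx) with
        r2 | r2
      · exact T.ne y (by rw [← r2, r1, e1])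
      · exact T.ne w (by rw [← r2, r1, e1])
    · rcases h.rel hP hz hwu hwz.symm (h.no_par hP hG hz hwu hx hwz.symm hxz.symm hwx) with
        r2 | r2
      · exact T.ne w (by rw [r2, ← r1, e3])
      · exact T.ne z (by rw [r2, ← r1, e3])
  · rintro c (rfl | rfl | rfl)
    · exact hx
    · exact hy
    · exact hz
  · have hsum := EuclideanGeometry.angle_add_angle_add_angle_eq_pi (p₁ := T.a x) (p₂ := T.a y)
      (T.a z) (by rw [e1]; exact (T.ne x).symm)
    simp only [EuclideanGeometry.angle, vsub_eq_sub] at hsum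
    simp only [ang]
    rw [← e1, ← e2, ← e3]
    exact hsum

theorem iso [Finite ι] [Finite ι'] [Nonempty ι] {G' : Gluing k ι'}
    (hP : Convex ℝ (domain T G φ)) (hS : Gluing.Sim G G') : Gluing.Iso G G' := by
  have hG := h.conn hP
  obtain ⟨s, hs⟩ := h.exists_leaf hP
  by_cases h0 : ∀ c t, G.nbr c t = t
  · exact Gluing.iso_of_none h0 hS hG s
  by_cases h2 : ∃ x y, ∀ c t, G.nbr c t ≠ t → c = x ∨ c = y
  · obtain ⟨x, y, hU⟩ := h2
    exact Gluing.iso_of_two x y hU hS hG hs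
  push Not at h0 h2
  obtain ⟨x, tx, hx⟩ := h0
  obtain ⟨y, ty, hy, hyx, -⟩ := h2 x x
  obtain ⟨z, tz, hz, hzx, hzy⟩ := h2 x y
  have ux : ∃ t, G.nbr x t ≠ t := ⟨tx, hx⟩
  have uy : ∃ t, G.nbr y t ≠ t := ⟨ty, hy⟩
  have uz : ∃ t, G.nbr z t ≠ t := ⟨tz, hz⟩
  have rxy := h.rel hP ux uy hyx.symm (h.no_par hP hG ux uy uz hyx.symm hzx.symm hzy.symm)
  have ryz := h.rel hP uy uz hzy.symm (h.no_par hP hG uy uz ux hzy.symm hyx hzx)
  have rzx := h.rel hP uz ux hzx (h.no_par hP hG uz ux uy hzx hzy hyx.symm)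
  have fin1 : T.a y = T.b x → T.a z = T.b y → T.a x = T.b z → Gluing.Iso G G' := by
    intro e1 e2 e3
    obtain ⟨A, B, C, hT⟩ := h.triData hP hG ux uy uz hyx.symm hzx.symm hzy.symm e1 e2 e3
    exact hT.iso hS hG hs
  have fin2 : T.a z = T.b x → T.a y = T.b z → T.a x = T.b y → Gluing.Iso G G' := by
    intro e1 e2 e3
    obtain ⟨A, B, C, hT⟩ := h.triData hP hG ux uz uy hzx.symm hyx.symm hzy e1 e2 e3
    exact hT.iso hS hG hs
  rcases rxy with r1 | r1 <;> rcases ryz with r2 | r2 <;> rcases rzx with r3 | r3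
  · exact fin1 r1 r2 r3
  · -- x → y, y → z, x → z
    exact absurd (by rw [← r2, r3, r1]) (T.ne y)
  · -- x → y, z → y, z → x
    exact absurd (by rw [r3, ← r2, r1]) (T.ne x)
  · -- x → y, z → y, x → z
    exact absurd (by rw [r3, ← r1, r2]) (T.ne z)
  · -- y → x, y → z, z → x
    exact absurd (by rw [r2, ← r1, r3]) (T.ne z)
  · -- y → x, y → z, x → z
    exact absurd (by rw [r1, ← r2, r3]) (T.ne x)
  · -- y → x, z → y, z → x
    exact absurd (by rw [r2, ← r3, r1]) (T.ne y)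
  · exact fin2 r3 r2 r1

end IsUnfolding

theorem congr_of_iso {G' : Gluing k ι'} {φ' : ι' → (ℂ ≃ᵃⁱ[ℝ] ℂ)} (h : IsUnfolding T G φ)
    (h' : IsUnfolding T G' φ') (hG : G.Conn) [Nonempty ι] (hI : Gluing.Iso G G') :
    ∃ g : ℂ ≃ᵃⁱ[ℝ] ℂ, domain T G' φ' = g '' domain T G φ := by
  obtain ⟨f, hf⟩ := hI
  let t0 : ι := Classical.arbitrary ι
  refine ⟨(φ t0).symm.trans (φ' (f t0)), ?_⟩
  set g := (φ t0).symm.trans (φ' (f t0)) with hg
  have hfix : ∀ c t, G'.nbr c (f t) ≠ f t ↔ G.nbr c t ≠ t := by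
    intro c t
    rw [← hf, not_iff_not, f.injective.eq_iff]
  have huniv : {t | ∀ z, φ' (f t) z = g (φ t z)} = univ := by
    apply hG
    · refine ⟨t0, fun z => ?_⟩
      rw [hg, AffineIsometryEquiv.coe_trans, Function.comp_apply,
        AffineIsometryEquiv.symm_apply_apply]
    · intro c t ht z
      by_cases hc : G.nbr c t = t
      · rw [hc]; exact ht z
      · rw [hf, h'.glue c (f t) ((hfix c t).2 hc), h.glue c t hc, ht]
  have key : ∀ t z, φ' (f t) z = g (φ t z) := by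
    intro t
    have : t ∈ {t | ∀ z, φ' (f t) z = g (φ t z)} := by rw [huniv]; trivial
    exact this
  apply Set.eq_of_subset_of_subset
  · rintro z (⟨t', u, hu, rfl⟩ | ⟨t', c, hc, u, hu, rfl⟩)
    · obtain ⟨t, rfl⟩ := f.surjective t'
      exact ⟨φ t u, Or.inl ⟨t, u, hu, rfl⟩, (key t u).symm⟩
    · obtain ⟨t, rfl⟩ := f.surjective t'
      exact ⟨φ t u, Or.inr ⟨t, c, (hfix c t).1 hc, u, hu, rfl⟩, (key t u).symm⟩
  · rintro _ ⟨z, (⟨t, u, hu, rfl⟩ | ⟨t, c, hc, u, hu, rfl⟩), rfl⟩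
    · exact Or.inl ⟨f t, u, hu, key t u⟩
    · exact Or.inr ⟨f t, c, (hfix c t).2 hc, u, hu, key t u⟩

/-- orientation sign of an isometry -/
noncomputable def orient (φ : ℂ ≃ᵃⁱ[ℝ] ℂ) : ℝ := ((φ I - φ 0) * conj (φ 1 - φ 0)).im

theorem orient_cases (φ : ℂ ≃ᵃⁱ[ℝ] ℂ) : orient φ = 1 ∨ orient φ = -1 := by
  obtain ⟨α, β, hα, h⟩ := isom_form φ
  have h1 : α * conj α = 1 := by rw [mul_conj, normSq_eq_norm_sq, hα]; norm_num
  rcases h with h | h
  · left
    have : (φ I - φ 0) * conj (φ 1 - φ 0) = I := by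
      rw [h, h, h]
      simp only [mul_zero, zero_add, add_sub_cancel_right, mul_one]
      linear_combination I * h1
    rw [orient, this, I_im]
  · right
    have : (φ I - φ 0) * conj (φ 1 - φ 0) = -I := by
      rw [h, h, h]
      simp only [map_zero, mul_zero, zero_add, add_sub_cancel_right, map_one, mul_one, conj_I]
      linear_combination (-I) * h1
    rw [orient, this, neg_im, I_im]

theorem orient_mirror (φ ψ : ℂ ≃ᵃⁱ[ℝ] ℂ) {a b : ℂ} (hab : a ≠ b)
    (h : ∀ z, ψ z = φ (mirror a b z)) : orient ψ = - orient φ := by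
  obtain ⟨α, β, hα, hφ⟩ := isom_form φ
  have h1 : α * conj α = 1 := by rw [mul_conj, normSq_eq_norm_sq, hα]; norm_num
  have h0 : b - a ≠ 0 := sub_ne_zero.2 hab.symm
  have h0' : conj (b - a) ≠ 0 := (map_ne_zero (starRingEnd ℂ)).2 h0
  have h2 : ∀ z w, mirror a b z - mirror a b w = (b - a) / conj (b - a) * conj (z - w) := by
    intro z w
    rw [mirror, mirror, map_sub, map_sub, map_sub, map_sub]
    ring
  set m := (b - a) / conj (b - a) with hm
  have hmm : m * conj m = 1 := by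
    rw [hm, map_div₀, conj_conj]
    field_simp
  rcases hφ with hφ | hφ
  · have e1 : ∀ z w, ψ z - ψ w = α * m * conj (z - w) := by
      intro z w
      rw [h, h, hφ, hφ]
      linear_combination α * h2 z w
    have e2 : ∀ z w, φ z - φ w = α * (z - w) := by
      intro z w
      rw [hφ, hφ]; ring
    rw [orient, orient, e1, e1, e2, e2, ← neg_im]
    congr 1
    simp only [sub_zero, map_mul, conj_I, map_one, mul_one]
    linear_combination (-I * m * conj m + I) * h1 - (I) * hmm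
  · have e1 : ∀ z w, ψ z - ψ w = α * conj m * (z - w) := by
      intro z w
      have h3 := congrArg (starRingEnd ℂ) (h2 z w)
      rw [map_sub, map_mul, conj_conj] at h3
      rw [h, h, hφ, hφ]
      linear_combination α * h3
    have e2 : ∀ z w, φ z - φ w = α * conj (z - w) := by
      intro z w
      rw [hφ, hφ, map_sub]; ring
    rw [orient, orient, e1, e1, e2, e2, ← neg_im]
    congr 1
    simp only [sub_zero, map_mul, conj_conj, conj_I, map_one, mul_one]
    linear_combination (I * m * conj m - I) * h1 + (I) * hmm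

theorem main [Fintype ι] [Fintype ι'] [DecidableEq ι] [DecidableEq ι'] {G' : Gluing k ι'}
    {φ' : ι' → (ℂ ≃ᵃⁱ[ℝ] ℂ)} (h : IsUnfolding T G φ) (h' : IsUnfolding T G' φ')
    (hT : Transplantable G G') (hP : Convex ℝ (domain T G φ)) :
    ∃ g : ℂ ≃ᵃⁱ[ℝ] ℂ, domain T G' φ' = g '' domain T G φ := by
  rcases isEmpty_or_nonempty ι with hι | hι
  · have hι' : IsEmpty ι' := by
      by_contra hne
      rw [not_isEmpty_iff] at hne
      obtain ⟨s⟩ := hne
      obtain ⟨M, N, -, hMN, -⟩ := hT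
      have := congrFun (congrFun hMN s) s
      rw [Matrix.one_apply_eq, Matrix.mul_apply] at this
      simp at this
    refine ⟨AffineIsometryEquiv.refl ℝ ℂ, ?_⟩
    have e1 : domain T G φ = ∅ := by
      ext z; simp [domain]
    have e2 : domain T G' φ' = ∅ := by
      ext z; simp [domain]
    rw [e1, e2, Set.image_empty]
  · have hor : ∀ ψ : ℂ ≃ᵃⁱ[ℝ] ℂ, orient ψ * orient ψ = 1 := by
      intro ψ
      rcases orient_cases ψ with h1 | h1 <;> rw [h1] <;> norm_num
    have hS : Gluing.Sim G G' := Gluing.sim_of_transplantable hT (fun t => orient (φ t))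
      (fun t => orient (φ' t)) (fun t => hor _) (fun t => hor _)
      (fun c t hc => orient_mirror _ _ (T.ne c) (h.glue c t hc))
      (fun c t hc => orient_mirror _ _ (T.ne c) (h'.glue c t hc))
    exact congr_of_iso h h' (h.conn hP) (h.iso hP hS)

end Pool.Agent.Helper58_Iso
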