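import Pool.Agent.Helper58_Iso.LinAlg

namespace Pool.Agent.Helper58_Iso

open Function

namespace Gluing

variable {k : ℕ} {ι ι' : Type}

theorem WB.two {G : Gluing k ι} {c d : Fin k} (h : G.WB c d 2) {t : ι} (ht : G.nbr c t ≠ t) :
    G.nbr d t = t := by
  obtain ⟨b, hb, h1⟩ := h (G.nbr c t)
  interval_cases b
  · rw [alt_succ_even _ _ _ _ _ (by omega), alt_zero, G.invol] at h1
    exact absurd h1.symm ht
  · rw [alt_succ_odd _ _ _ _ _ (by omega), alt_succ_even _ _ _ _ _ (by omega), alt_zero,
      G.invol] at h1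
    exact h1

/-- no long alternating non-blocked stretch inside a walk -/
theorem WB.no_alt {G : Gluing k ι} {c d : Fin k} {m : ℕ} (h : G.WB c d (m + 1))
    {e : ℕ → Fin k} {t : ℕ → ι} (hts : ∀ i, t (i + 1) = G.nbr (e i) (t i)) (i : ℕ)
    (hc : ∀ l < m, e (i + l) = if l % 2 = 0 then c else d)
    (hne : ∀ l < m, t (i + l + 1) ≠ t (i + l))
    (hlast : G.nbr (if m % 2 = 0 then c else d) (t (i + m)) ≠ t (i + m)) : False := by
  have key : ∀ l ≤ m, G.alt c d (t i) l = t (i + l) := by
    intro l
    induction l with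
    | zero => intro _; rfl
    | succ l ih =>
      intro hl
      rw [← add_assoc, hts, hc l (by omega), ← ih (by omega)]
      rfl
  obtain ⟨b, hb, h1⟩ := h (t i)
  rcases Nat.lt_or_ge b m with h2 | h2
  · rw [key _ (by omega), key _ (by omega)] at h1
    exact hne b h2 (by rw [add_assoc]; exact h1)
  · have : b = m := by omega
    subst this
    apply hlast
    rw [← key b le_rfl]
    exact h1

theorem fixed_of_Z {G : Gluing k ι} {b c : Fin k} (hQ : G.QQ b c) {t : ι}
    (h : G.Z b c t = t) : G.nbr b t = t ∧ G.nbr c t = t := by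
  obtain ⟨j, hj⟩ := hQ t
  rw [Equiv.Perm.zpow_apply_eq_self_of_apply_eq_self h] at hj
  refine ⟨hj.symm, ?_⟩
  rw [Z_apply, ← hj] at h
  exact h

theorem Sim.exists_fixed_two [Finite ι] [Finite ι'] {G : Gluing k ι} {G' : Gluing k ι'}
    (h : Sim G G') {b c : Fin k} (hQ : G'.QQ b c)
    (h1 : ∃ t, G.nbr b t = t ∧ G.nbr c t = t) : ∃ t, G'.nbr b t = t ∧ G'.nbr c t = t := by
  obtain ⟨t, ht1, ht2⟩ := h1
  obtain ⟨s, hs⟩ := (h.per b c 1).1 ⟨t, by
    rw [minimalPeriod_eq_one_iff_isFixedPt, IsFixedPt, Z_apply, ht1, ht2]⟩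
  rw [minimalPeriod_eq_one_iff_isFixedPt] at hs
  exact ⟨s, fixed_of_Z hQ hs⟩

def E4 (x y z : Fin k) (i : ℕ) : Fin k := if i % 2 = 1 then z else if i % 4 = 0 then x else y

theorem E4_odd (x y z : Fin k) {i : ℕ} (h : i % 2 = 1) : E4 x y z i = z := by simp [E4, h]
theorem E4_zero (x y z : Fin k) {i : ℕ} (h : i % 4 = 0) : E4 x y z i = x := by
  simp [E4, h, show ¬ i % 2 = 1 by omega]
theorem E4_two (x y z : Fin k) {i : ℕ} (h : i % 4 = 2) : E4 x y z i = y := by
  simp [E4, h, show ¬ i % 2 = 1 by omega]

theorem E4_ne (x y z : Fin k) (hxz : x ≠ z) (hyz : y ≠ z) (i : ℕ) :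
    E4 x y z i ≠ E4 x y z (i + 1) := by
  have : i % 4 = 0 ∨ i % 4 = 1 ∨ i % 4 = 2 ∨ i % 4 = 3 := by omega
  rcases this with h | h | h | h
  · rw [E4_zero _ _ _ h, E4_odd _ _ _ (by omega)]; exact hxz
  · rw [E4_odd _ _ _ (by omega), E4_two _ _ _ (by omega)]; exact hyz.symm
  · rw [E4_two _ _ _ h, E4_odd _ _ _ (by omega)]; exact hyz
  · rw [E4_odd _ _ _ (by omega), E4_zero _ _ _ (by omega)]; exact hxz.symm

def E6 (x y z : Fin k) (i : ℕ) : Fin k := if i % 2 = 1 then z else if i % 6 = 0 then y else x

theorem E6_odd (x y z : Fin k) {i : ℕ} (h : i % 2 = 1) : E6 x y z i = z := by simp [E6, h]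
theorem E6_zero (x y z : Fin k) {i : ℕ} (h : i % 6 = 0) : E6 x y z i = y := by
  simp [E6, h, show ¬ i % 2 = 1 by omega]
theorem E6_two (x y z : Fin k) {i : ℕ} (h : i % 6 = 2 ∨ i % 6 = 4) : E6 x y z i = x := by
  simp [E6, show ¬ i % 2 = 1 by omega, show ¬ i % 6 = 0 by omega]

theorem E6_ne (x y z : Fin k) (hxz : x ≠ z) (hyz : y ≠ z) (i : ℕ) :
    E6 x y z i ≠ E6 x y z (i + 1) := by
  have : i % 6 = 0 ∨ i % 6 = 1 ∨ i % 6 = 2 ∨ i % 6 = 3 ∨ i % 6 = 4 ∨ i % 6 = 5 := by omega
  rcases this with h | h | h | h | h | h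
  · rw [E6_zero _ _ _ h, E6_odd _ _ _ (by omega)]; exact hyz
  · rw [E6_odd _ _ _ (by omega), E6_two _ _ _ (by omega)]; exact hxz.symm
  · rw [E6_two _ _ _ (by omega), E6_odd _ _ _ (by omega)]; exact hxz
  · rw [E6_odd _ _ _ (by omega), E6_two _ _ _ (by omega)]; exact hxz.symm
  · rw [E6_two _ _ _ (by omega), E6_odd _ _ _ (by omega)]; exact hxz
  · rw [E6_odd _ _ _ (by omega), E6_zero _ _ _ (by omega)]; exact hyz.symm

/-- the `(2,3,6)` data -/
structure GammaData (G : Gluing k ι) (x y z : Fin k) : Prop where
  hU : ∀ c t, G.nbr c t ≠ t → c = x ∨ c = y ∨ c = z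
  uy : ∃ t, G.nbr y t ≠ t
  xy : G.WB x y 2
  yx : G.WB y x 2
  yz : G.WB y z 3
  zy : G.WB z y 3
  xz : G.WB x z 6
  zx : G.WB z x 6

theorem GammaData.leaf {G : Gluing k ι} {x y z : Fin k} (h : GammaData G x y z) :
    ∃ s, G.nbr y s ≠ s ∧ G.nbr z s = s ∧ G.nbr x s = s := by
  obtain ⟨t, ht⟩ := h.uy
  by_cases hz : G.nbr z t = t
  · exact ⟨t, ht, hz, h.yx.two ht⟩
  · have h1 : G.nbr y (G.nbr y t) ≠ G.nbr y t := by rw [G.invol]; exact ht.symm
    refine ⟨G.nbr y t, h1, ?_, h.yx.two h1⟩
    obtain ⟨b, hb, h2⟩ := h.zy (G.nbr z t)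
    interval_cases b
    · rw [alt_succ_even _ _ _ _ _ (by omega), alt_zero, G.invol] at h2
      exact absurd h2.symm hz
    · rw [alt_succ_odd _ _ _ _ _ (by omega), alt_succ_even _ _ _ _ _ (by omega), alt_zero,
        G.invol] at h2
      exact absurd h2 ht
    · rw [alt_succ_even _ _ _ _ _ (by omega), alt_succ_odd _ _ _ _ _ (by omega),
        alt_succ_even _ _ _ _ _ (by omega), alt_zero, G.invol] at h2
      exact h2

theorem GammaData.lin [Finite ι] {G : Gluing k ι} {x y z : Fin k} (hxy : x ≠ y)
    (hxz : x ≠ z) (hyz : y ≠ z) (h : GammaData G x y z) (hG : G.Conn) :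
    (Lin G (E6 x y z) (Nat.card ι) ∧ (Nat.card ι = 6 → ∃ s, G.nbr y s = s ∧ G.nbr z s = s)) ∨
    (Lin G (E4 y x z) (Nat.card ι) ∧ Nat.card ι = 6 ∧ ∀ s, G.nbr y s = s → G.nbr z s ≠ s) := by
  obtain ⟨s, hs1, hs2, hs3⟩ := h.leaf
  by_cases hA : (∀ j < 4, G.walk (E4 y x z) s (j + 1) ≠ G.walk (E4 y x z) s j) →
      G.nbr y (G.walk (E4 y x z) s 4) = G.walk (E4 y x z) s 4
  · left
    have hsame : ∀ i ≤ 4, G.walk (E4 y x z) s i = G.walk (E6 x y z) s i := by
      have hE : ∀ i < 4, E4 y x z i = E6 x y z i := by
        intro i hi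
        interval_cases i <;> simp [E4, E6]
      intro i hi
      induction i with
      | zero => rfl
      | succ i ih => rw [walk, walk, ih (by omega), hE i (by omega)]
    have hts : ∀ i, G.walk (E6 x y z) s (i + 1) = G.nbr (E6 x y z i) (G.walk (E6 x y z) s i) :=
      fun i => rfl
    have hlin : LinW G (E6 x y z) (Nat.card ι) (G.walk (E6 x y z) s) := by
      refine lin_of_regular G hG _ (E6_ne x y z hxz hyz) _ hts ?_
      intro i hi c hc
      set t := G.walk (E6 x y z) s with ht
      have hgl : ∀ j < i, G.nbr (E6 x y z j) (t (j + 1)) ≠ t (j + 1) := by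
        intro j hj
        rw [hts, G.invol, ← hts]
        exact (hi j hj).symm
      have hi8 : i ≤ 7 := by
        by_contra hlt
        refine h.zy.no_alt hts 5 (m := 2) ?_ ?_ ?_
        · intro l hl
          interval_cases l <;> simp [E6]
        · intro l hl
          exact hi _ (by omega)
        · have := hi 7 (by omega)
          rw [hts] at this
          simpa [E6] using this
      have hcU := h.hU _ _ hc
      interval_cases i
      · left
        rcases hcU with rfl | rfl | rfl
        · exact absurd hs3 hc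
        · simp [E6]
        · exact absurd hs2 hc
      · have h0 := hgl 0 (by omega)
        simp only [E6] at h0 ⊢
        norm_num at h0 ⊢
        have := h.yx.two h0
        rcases hcU with rfl | rfl | rfl
        · exact absurd this hc
        · exact Or.inr rfl
        · exact Or.inl rfl
      · simp only [E6]
        norm_num
        rcases hcU with rfl | rfl | rfl
        · exact Or.inl rfl
        · exfalso
          refine h.yz.no_alt hts 0 (m := 2) ?_ ?_ ?_
          · intro l hl
            interval_cases l <;> simp [E6]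
          · intro l hl
            exact hi _ (by omega)
          · simpa using hc
        · exact Or.inr rfl
      · have h0 := hgl 2 (by omega)
        simp only [E6] at h0 ⊢
        norm_num at h0 ⊢
        have := h.xy.two h0
        rcases hcU with rfl | rfl | rfl
        · exact Or.inr rfl
        · exact absurd this hc
        · exact Or.inl rfl
      · have h0 : G.nbr y (t 4) = t 4 := by
          rw [← hsame 4 le_rfl]
          apply hA
          intro j hj
          rw [hsame _ (by omega), hsame _ (by omega)]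
          exact hi j hj
        simp only [E6]
        norm_num
        rcases hcU with rfl | rfl | rfl
        · exact Or.inl rfl
        · exact absurd h0 hc
        · exact Or.inr rfl
      · have h0 := hgl 4 (by omega)
        simp only [E6] at h0 ⊢
        norm_num at h0 ⊢
        have := h.xy.two h0
        rcases hcU with rfl | rfl | rfl
        · exact Or.inr rfl
        · exact absurd this hc
        · exact Or.inl rfl
      · simp only [E6]
        norm_num
        rcases hcU with rfl | rfl | rfl
        · exfalso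
          refine h.zx.no_alt hts 1 (m := 5) ?_ ?_ ?_
          · intro l hl
            interval_cases l <;> simp [E6]
          · intro l hl
            exact hi _ (by omega)
          · simpa using hc
        · exact Or.inl rfl
        · exact Or.inr rfl
      · have h0 := hgl 6 (by omega)
        simp only [E6] at h0 ⊢
        norm_num at h0 ⊢
        have := h.yx.two h0
        rcases hcU with rfl | rfl | rfl
        · exact absurd this hc
        · exact Or.inr rfl
        · exact Or.inl rfl
    refine ⟨⟨_, hlin⟩, fun h6 => ?_⟩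
    refine ⟨G.walk (E6 x y z) s 5, ?_, ?_⟩
    · rw [hlin.2.2 5 (by omega) y, if_neg (by omega), if_neg]
      simp [E6, hxy.symm]
    · rw [hlin.2.2 5 (by omega) z, if_neg (by omega), if_neg]
      simp [E6, hxz.symm]
  · right
    rw [Classical.not_imp] at hA
    obtain ⟨hA1, hA2⟩ := hA
    have hts : ∀ i, G.walk (E4 y x z) s (i + 1) = G.nbr (E4 y x z i) (G.walk (E4 y x z) s i) :=
      fun i => rfl
    have hstep4 : G.walk (E4 y x z) s 5 ≠ G.walk (E4 y x z) s 4 := by
      rw [hts]; simpa [E4] using hA2
    have hstep5 : G.walk (E4 y x z) s 6 = G.walk (E4 y x z) s 5 := by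
      by_contra hne
      refine h.zy.no_alt hts 3 (m := 2) ?_ ?_ ?_
      · intro l hl
        interval_cases l <;> simp [E4]
      · intro l hl
        interval_cases l
        · exact hA1 3 (by omega)
        · exact hstep4
      · rw [hts] at hne
        simpa [E4] using hne
    have hlin : LinW G (E4 y x z) (Nat.card ι) (G.walk (E4 y x z) s) := by
      refine lin_of_regular G hG _ (E4_ne y x z hyz hxz) _ hts ?_
      intro i hi c hc
      set t := G.walk (E4 y x z) s with ht
      have hgl : ∀ j < i, G.nbr (E4 y x z j) (t (j + 1)) ≠ t (j + 1) := by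
        intro j hj
        rw [hts, G.invol, ← hts]
        exact (hi j hj).symm
      have hi5 : i ≤ 5 := by
        by_contra hlt
        exact hi 5 (by omega) hstep5
      have hcU := h.hU _ _ hc
      interval_cases i
      · left
        rcases hcU with rfl | rfl | rfl
        · exact absurd hs3 hc
        · simp [E4]
        · exact absurd hs2 hc
      · have h0 := hgl 0 (by omega)
        simp only [E4] at h0 ⊢
        norm_num at h0 ⊢
        have := h.yx.two h0
        rcases hcU with rfl | rfl | rfl
        · exact absurd this hc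
        · exact Or.inr rfl
        · exact Or.inl rfl
      · simp only [E4]
        norm_num
        rcases hcU with rfl | rfl | rfl
        · exact Or.inl rfl
        · exfalso
          refine h.yz.no_alt hts 0 (m := 2) ?_ ?_ ?_
          · intro l hl
            interval_cases l <;> simp [E4]
          · intro l hl
            exact hi _ (by omega)
          · simpa using hc
        · exact Or.inr rfl
      · have h0 := hgl 2 (by omega)
        simp only [E4] at h0 ⊢
        norm_num at h0 ⊢
        have := h.xy.two h0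
        rcases hcU with rfl | rfl | rfl
        · exact Or.inr rfl
        · exact absurd this hc
        · exact Or.inl rfl
      · have := h.yx.two hA2
        simp only [E4]
        norm_num
        rcases hcU with rfl | rfl | rfl
        · exact absurd this hc
        · exact Or.inl rfl
        · exact Or.inr rfl
      · have h0 := hgl 4 (by omega)
        simp only [E4] at h0 ⊢
        norm_num at h0 ⊢
        have := h.yx.two h0
        rcases hcU with rfl | rfl | rfl
        · exact absurd this hc
        · exact Or.inr rfl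
        · exact Or.inl rfl
    have hcard : Nat.card ι = 6 := by
      have hpos : 0 < Nat.card ι := by
        have : Nonempty ι := ⟨s⟩
        exact Nat.card_pos
      have h1 : ¬ 6 + 1 ≤ Nat.card ι := fun hh => hlin.step_ne (i := 5) (by omega) hstep5
      have h2 : ¬ Nat.card ι ≤ 5 := by
        intro hh
        obtain ⟨m, hm⟩ : ∃ m, m + 1 = Nat.card ι := ⟨Nat.card ι - 1, by omega⟩
        have h3 := hlin.last (E4_ne y x z hyz hxz) hts hm
        rcases Nat.lt_or_ge m 4 with h4 | h4
        · exact hA1 m h4 h3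
        · have : m = 4 := by omega
          subst this
          exact hstep4 h3
      omega
    refine ⟨⟨_, hlin⟩, hcard, fun u hu hu' => ?_⟩
    obtain ⟨i, hi, rfl⟩ := hlin.1 u
    rw [hcard] at hi hlin
    have hy := hlin.2.2 i hi y
    have hz := hlin.2.2 i hi z
    rw [hu] at hy
    rw [hu'] at hz
    have hstep : ∀ j < 5, G.walk (E4 y x z) s (j + 1) ≠ G.walk (E4 y x z) s j :=
      fun j hj => hlin.step_ne (by omega)
    interval_cases i
    · simp [E4] at hy
      exact hstep 0 (by omega) hy.symm
    · simp [E4] at hz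
      exact hstep 1 (by omega) hz.symm
    · simp [E4, hxz.symm] at hz
      exact hstep 1 (by omega) hz
    · simp [E4] at hz
      exact hstep 3 (by omega) hz.symm
    · simp [E4] at hy
      exact hstep 4 (by omega) hy.symm
    · simp [E4] at hy
      exact hstep 4 (by omega) hy

theorem GammaData.transfer [Finite ι] [Finite ι'] {G : Gluing k ι} {G' : Gluing k ι'}
    {x y z : Fin k} (h : GammaData G x y z) (hS : Sim G G') : GammaData G' x y z := by
  obtain ⟨h1, h2⟩ := hS.wb h.xy h.yx
  obtain ⟨h3, h4⟩ := hS.wb h.yz h.zy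
  obtain ⟨h5, h6⟩ := hS.wb h.xz h.zx
  refine ⟨?_, ?_, h1, h2, h3, h4, h5, h6⟩
  · intro c t hc
    by_contra hne
    refine hc (hS.unused (c := c) ?_ t)
    intro s
    by_contra hs
    exact hne (h.hU _ _ hs)
  · by_contra hne
    push Not at hne
    obtain ⟨t, ht⟩ := h.uy
    exact ht (hS.symm.unused hne t)

theorem GammaData.iso [Finite ι] [Finite ι'] {G : Gluing k ι} {G' : Gluing k ι'}
    {x y z : Fin k} (hxy : x ≠ y) (hxz : x ≠ z) (hyz : y ≠ z)
    (h : GammaData G x y z) (hS : Sim G G') (hG : G.Conn) : Iso G G' := by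
  have h' := h.transfer hS
  have hG' := hS.conn.1 hG
  have key : ∀ {α β : Type} [Finite α] [Finite β] {H : Gluing k α} {H' : Gluing k β},
      Sim H H' → GammaData H' x y z →
      (Lin H (E6 x y z) (Nat.card α) ∧ (Nat.card α = 6 → ∃ s, H.nbr y s = s ∧ H.nbr z s = s)) →
      (Lin H' (E4 y x z) (Nat.card β) ∧ Nat.card β = 6 ∧ ∀ s, H'.nbr y s = s → H'.nbr z s ≠ s) →
      False := by
    intro α β _ _ H H' hs hD h1 h2
    obtain ⟨s, hs'⟩ := hs.exists_fixed_two (qq_pp_of_wb _ _ _ _ hD.yz hD.zy).1
      (h1.2 (by rw [hs.card]; exact h2.2.1))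
    exact h2.2.2 s hs'.1 hs'.2
  rcases h.lin hxy hxz hyz hG with h1 | h1
  · rcases h'.lin hxy hxz hyz hG' with h2 | h2
    · rw [← hS.card] at h2
      exact iso_of_lin h1.1 h2.1
    · exact (key hS h' h1 h2).elim
  · rcases h'.lin hxy hxz hyz hG' with h2 | h2
    · exact (key hS.symm h h2 h1).elim
    · rw [← hS.card] at h2
      exact iso_of_lin h1.1 h2.1

end Gluing

end Pool.Agent.Helper58_Iso
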