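import Pool.Agent.Helper58_Iso.Strip

namespace Pool.Agent.Helper58_Iso

open Complex Set Filter
open scoped ComplexConjugate Topology

variable {k : ℕ} {ι : Type} {T : Tile k} {G : Gluing k ι} {φ : ι → (ℂ ≃ᵃⁱ[ℝ] ℂ)}

theorem Tile.Good.side_pos {c d : Fin k} (hd : T.Good d) (hcd : c ≠ d) {p : ℂ}
    (hp : p ∈ openSegment ℝ (T.a c) (T.b c)) : 0 < (crd (T.a d) (T.b d) p).im := by
  obtain ⟨h1, h2, h3⟩ := hd.closure (T.side_subset_closure c hp)
  rcases h3.lt_or_eq with h4 | h4
  · exact h4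
  · exfalso
    exact Set.disjoint_left.1 (T.disj d c hcd.symm)
      ((mem_segment_iff (T.ne d) p).2 ⟨h4.symm, h1, h2⟩) hp

theorem crd_comb {a b : ℂ} (h : a ≠ b) (p q : ℂ) (s : ℝ) :
    crd a b ((1 - s : ℝ) • q + s • p) = (1 - s : ℝ) * crd a b q + s * crd a b p := by
  have h0 : b - a ≠ 0 := sub_ne_zero.2 h.symm
  simp only [crd, real_smul]
  field_simp
  push_cast
  ring

namespace IsUnfolding

variable (h : IsUnfolding T G φ)
include h

omit h in
theorem conv_pre (hP : Convex ℝ (domain T G φ)) (t : ι) :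
    Convex ℝ (φ t ⁻¹' domain T G φ) :=
  hP.affine_preimage ((φ t).toAffineEquiv : ℂ →ᵃ[ℝ] ℂ)

/-- tiles beyond the glued side `(t, c)` -/
def Far (T : Tile k) (φ : ι → (ℂ ≃ᵃⁱ[ℝ] ℂ)) (t : ι) (c : Fin k) : Set ι :=
  {u | ∀ x ∈ T.U, (crd (T.a c) (T.b c) ((φ t).symm (φ u x))).im < 0}

theorem far_subset (hP : Convex ℝ (domain T G φ)) {t : ι} {c d : Fin k}
    (hc : G.nbr c t ≠ t) (hd : G.nbr d (G.nbr c t) ≠ G.nbr c t) (hcd : c ≠ d) :
    Far T φ (G.nbr c t) d ⊆ Far T φ t c := by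
  intro u hu
  by_contra hne
  obtain ⟨x, hx⟩ := not_forall.1 hne
  obtain ⟨hxU, hx⟩ := Classical.not_imp.1 hx
  push Not at hx
  have hu' := hu x hxU
  set q := (φ (G.nbr c t)).symm (φ u x) with hq
  have hq1 : (φ t).symm (φ u x) = mirror (T.a c) (T.b c) q := by
    rw [AffineIsometryEquiv.symm_apply_eq, ← h.glue c t hc, hq,
      AffineIsometryEquiv.apply_symm_apply]
  have hcs : G.nbr c (G.nbr c t) ≠ G.nbr c t := by rw [G.invol]; exact hc.symm
  have hgc := h.good hP hcs
  have hgd := h.good hP hd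
  rw [hq1, crd_mirror (T.ne c), conj_im] at hx
  have hqP : φ (G.nbr c t) q ∈ domain T G φ := by
    rw [hq, AffineIsometryEquiv.apply_symm_apply]
    exact tile_mem hxU
  set p := midp (T.a c) (T.b c) with hp
  have hpm : p ∈ openSegment ℝ (T.a c) (T.b c) := midp_mem (T.ne c)
  have hpP : φ (G.nbr c t) p ∈ domain T G φ := side_mem hcs hpm
  have hp0 : (crd (T.a c) (T.b c) p).im = 0 := ((mem_openSegment_iff (T.ne c) p).1 hpm).1
  have hp1 := hgd.side_pos hcd hpm
  set A := (crd (T.a d) (T.b d) q).im with hA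
  set B := (crd (T.a d) (T.b d) p).im with hB
  have hAB : 0 < B - A := by linarith
  set s : ℝ := (-A) / (B - A) with hs
  have hs0 : 0 < s := div_pos (by linarith) hAB
  have hs1 : s < 1 := by rw [hs, div_lt_one hAB]; linarith
  have hr : φ (G.nbr c t) ((1 - s : ℝ) • q + s • p) ∈ domain T G φ :=
    conv_pre hP (G.nbr c t) (show q ∈ φ (G.nbr c t) ⁻¹' domain T G φ from hqP)
      (show p ∈ φ (G.nbr c t) ⁻¹' domain T G φ from hpP) (by linarith) hs0.le (by ring)
  have hr0 : (crd (T.a d) (T.b d) ((1 - s : ℝ) • q + s • p)).im = 0 := by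
    rw [crd_comb (T.ne d), add_im, im_ofReal_mul, im_ofReal_mul, ← hA, ← hB, hs]
    field_simp
    ring
  have hr1 := h.chord hP hd hr hr0
  have hr2 := hgc.side_pos hcd.symm hr1
  rw [crd_comb (T.ne c), add_im, im_ofReal_mul, im_ofReal_mul, hp0, mul_zero, add_zero] at hr2
  have : 0 < (crd (T.a c) (T.b c) q).im := (pos_iff_pos_of_mul_pos hr2).1 (by linarith)
  linarith

theorem mem_far (hP : Convex ℝ (domain T G φ)) {t : ι} {c : Fin k}
    (hc : G.nbr c t ≠ t) : G.nbr c t ∈ Far T φ t c := by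
  intro x hx
  have : (φ t).symm (φ (G.nbr c t) x) = mirror (T.a c) (T.b c) x := by
    rw [AffineIsometryEquiv.symm_apply_eq, ← h.glue c t hc]
  rw [this, crd_mirror (T.ne c), conj_im]
  have := (h.good hP hc x hx).2.2
  linarith

theorem not_mem_far (hP : Convex ℝ (domain T G φ)) {t : ι} {c : Fin k}
    (hc : G.nbr c t ≠ t) : t ∉ Far T φ t c := by
  intro hh
  obtain ⟨x, hx⟩ := T.isConnected.nonempty
  have h1 := hh x hx
  rw [AffineIsometryEquiv.symm_apply_apply] at h1
  have := (h.good hP hc x hx).2.2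
  linarith

theorem exists_leaf [Finite ι] [Nonempty ι] (hP : Convex ℝ (domain T G φ)) :
    ∃ s, G.Leaf s := by
  have key : ∀ n : ℕ, ∀ t c, G.nbr c t ≠ t → (Far T φ t c).ncard = n → ∃ s, G.Leaf s := by
    intro n
    induction n using Nat.strong_induction_on with
    | _ n ih =>
      intro t c hc hn
      by_cases hex : ∃ d, c ≠ d ∧ G.nbr d (G.nbr c t) ≠ G.nbr c t
      · obtain ⟨d, hcd, hd⟩ := hex
        refine ih _ ?_ (G.nbr c t) d hd rfl
        rw [← hn]
        apply Set.ncard_lt_ncard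
        · refine ⟨h.far_subset hP hc hd hcd, fun hsub => ?_⟩
          exact h.not_mem_far hP hd (hsub (h.mem_far hP hc))
        · exact Set.toFinite _
      · push Not at hex
        refine ⟨G.nbr c t, fun d e hd he => ?_⟩
        have h1 : c = d := by by_contra hh; exact hd (hex d hh)
        have h2 : c = e := by by_contra hh; exact he (hex e hh)
        rw [← h1, ← h2]
  by_cases hex : ∃ t c, G.nbr c t ≠ t
  · obtain ⟨t, c, hc⟩ := hex
    exact key _ t c hc rfl
  · push Not at hex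
    exact ⟨Classical.arbitrary ι, fun c d hc _ => absurd (hex _ _) hc⟩

end IsUnfolding

end Pool.Agent.Helper58_Iso
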