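import Pool.Agent.Helper58_Iso.Defs

namespace Pool.Agent.Helper58_Iso

namespace Gluing

variable {k : ℕ} {ι ι' : Type}

/-- Connectedness, stated with invariant sets. -/
def Conn (G : Gluing k ι) : Prop :=
  ∀ S : Set ι, S.Nonempty → (∀ c, ∀ t ∈ S, G.nbr c t ∈ S) → S = Set.univ

/-- Label preserving isomorphism. -/
def Iso (G : Gluing k ι) (G' : Gluing k ι') : Prop :=
  ∃ f : ι ≃ ι', ∀ c t, f (G.nbr c t) = G'.nbr c (f t)

theorem Iso.symm {G : Gluing k ι} {G' : Gluing k ι'} (h : Iso G G') : Iso G' G := by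
  obtain ⟨f, hf⟩ := h
  refine ⟨f.symm, fun c t => ?_⟩
  rw [Equiv.symm_apply_eq, hf, Equiv.apply_symm_apply]

/-- Linear coordinates given by a walk. -/
def LinW (G : Gluing k ι) (e : ℕ → Fin k) (N : ℕ) (t : ℕ → ι) : Prop :=
  (∀ s, ∃ i < N, t i = s) ∧ (∀ i < N, ∀ j < N, t i = t j → i = j) ∧
    ∀ i < N, ∀ c, G.nbr c (t i) =
      if i + 1 < N ∧ c = e i then t (i + 1) else if 0 < i ∧ c = e (i - 1) then t (i - 1) else t i

/-- Linear coordinates. -/
def Lin (G : Gluing k ι) (e : ℕ → Fin k) (N : ℕ) : Prop := ∃ t : ℕ → ι, LinW G e N t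

theorem iso_of_lin {G : Gluing k ι} {G' : Gluing k ι'} {e : ℕ → Fin k} {N : ℕ}
    (h : Lin G e N) (h' : Lin G' e N) : Iso G G' := by
  obtain ⟨t, hs, hi, hf⟩ := h
  obtain ⟨t', hs', hi', hf'⟩ := h'
  have hb : Function.Bijective (fun i : Fin N => t i) := by
    refine ⟨fun i j hij => Fin.ext (hi i i.2 j j.2 hij), fun s => ?_⟩
    obtain ⟨i, hiN, his⟩ := hs s
    exact ⟨⟨i, hiN⟩, his⟩
  have hb' : Function.Bijective (fun i : Fin N => t' i) := by
    refine ⟨fun i j hij => Fin.ext (hi' i i.2 j j.2 hij), fun s => ?_⟩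
    obtain ⟨i, hiN, his⟩ := hs' s
    exact ⟨⟨i, hiN⟩, his⟩
  let E := Equiv.ofBijective _ hb
  let E' := Equiv.ofBijective _ hb'
  have key : ∀ i < N, (E.symm.trans E') (t i) = t' i := by
    intro i hi
    have : E ⟨i, hi⟩ = t i := rfl
    rw [Equiv.trans_apply, ← this, Equiv.symm_apply_apply]
    rfl
  refine ⟨E.symm.trans E', fun c s => ?_⟩
  obtain ⟨i, hiN, rfl⟩ := hs s
  rw [hf i hiN c, key i hiN, hf' i hiN c]
  split_ifs with h1 h2
  · exact key _ h1.1
  · exact key _ (by omega)
  · exact key _ hiN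

theorem lin_of_regular [Finite ι] (G : Gluing k ι) (hG : G.Conn) (e : ℕ → Fin k)
    (he : ∀ i, e i ≠ e (i + 1)) (t : ℕ → ι)
    (hts : ∀ i, t (i + 1) = G.nbr (e i) (t i))
    (hreg : ∀ i, (∀ j < i, t (j + 1) ≠ t j) → ∀ c, G.nbr c (t i) ≠ t i →
      c = e i ∨ (0 < i ∧ c = e (i - 1))) :
    LinW G e (Nat.card ι) t := by
  classical
  have hback : ∀ i, G.nbr (e i) (t (i + 1)) = t i := by
    intro i; rw [hts, G.invol]
  have hinj : ∀ j, (∀ l < j, t (l + 1) ≠ t l) → ∀ i < j, t i ≠ t j := by
    intro j
    induction j using Nat.strong_induction_on with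
    | _ j ih =>
      intro hl i hij heq
      obtain ⟨m, rfl⟩ : ∃ m, j = m + 1 := ⟨j - 1, by omega⟩
      have h1 : G.nbr (e m) (t i) = t m := by rw [heq, hback]
      have h2 : G.nbr (e m) (t i) ≠ t i := by
        rw [h1, heq]; exact (hl m (by omega)).symm
      rcases hreg i (fun j hj => hl j (by omega)) _ h2 with h3 | ⟨h3, h4⟩
      · rw [h3, ← hts] at h1
        rcases lt_trichotomy (i + 1) m with h5 | h5 | h5
        · exact ih m (by omega) (fun l hl' => hl l (by omega)) (i + 1) h5 h1
        · rw [← h5] at h3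
          exact he i h3.symm
        · have : i = m := by omega
          subst this
          exact hl i (by omega) heq.symm
      · obtain ⟨n, rfl⟩ : ∃ n, i = n + 1 := ⟨i - 1, by omega⟩
        simp only [Nat.add_sub_cancel] at h4
        rw [h4, hback] at h1
        exact ih m (by omega) (fun l hl' => hl l (by omega)) n (by omega) h1
  have hex : ∃ n, t (n + 1) = t n := by
    by_contra hne
    push Not at hne
    have : Function.Injective t := by
      intro i j hij
      rcases lt_trichotomy i j with h | h | h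
      · exact absurd hij (hinj j (fun l _ => hne l) i h)
      · exact h
      · exact absurd hij.symm (hinj i (fun l _ => hne l) j h)
    exact not_injective_infinite_finite t this
  obtain ⟨n, hn, hmin⟩ : ∃ n, t (n + 1) = t n ∧ ∀ l < n, t (l + 1) ≠ t l :=
    ⟨Nat.find hex, Nat.find_spec hex, fun l hl => Nat.find_min hex hl⟩
  have hinj' : ∀ i ≤ n, ∀ j ≤ n, t i = t j → i = j := by
    intro i hi j hj hij
    rcases lt_trichotomy i j with h | h | h
    · exact absurd hij (hinj j (fun l hl => hmin l (by omega)) i h)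
    · exact h
    · exact absurd hij.symm (hinj i (fun l hl => hmin l (by omega)) j h)
  have hform : ∀ i ≤ n, ∀ c, G.nbr c (t i) =
      if i + 1 < n + 1 ∧ c = e i then t (i + 1) else
        if 0 < i ∧ c = e (i - 1) then t (i - 1) else t i := by
    intro i hi c
    split_ifs with h1 h2
    · rw [h1.2, hts]
    · obtain ⟨m, rfl⟩ : ∃ m, i = m + 1 := ⟨i - 1, by omega⟩
      rw [h2.2]
      simp only [Nat.add_sub_cancel]
      exact hback m
    · by_contra h3
      rcases hreg i (fun j hj => hmin j (by omega)) c h3 with h4 | h4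
      · by_cases h5 : i < n
        · exact h1 ⟨by omega, h4⟩
        · have : i = n := by omega
          subst this
          rw [h4, ← hts] at h3
          exact h3 hn
      · exact h2 h4
  have huniv : {s | ∃ i ≤ n, t i = s} = Set.univ := by
    apply hG
    · exact ⟨t 0, 0, by omega, rfl⟩
    · rintro c _ ⟨i, hi, rfl⟩
      rw [hform i hi c]
      split_ifs with h1 h2
      · exact ⟨i + 1, by omega, rfl⟩
      · exact ⟨i - 1, by omega, rfl⟩
      · exact ⟨i, hi, rfl⟩
  have hcard : Nat.card ι = n + 1 := by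
    have hb : Function.Bijective (fun i : Fin (n + 1) => t i) := by
      refine ⟨fun i j hij => Fin.ext (hinj' i (by omega) j (by omega) hij), fun s => ?_⟩
      have : s ∈ {s | ∃ i ≤ n, t i = s} := by rw [huniv]; trivial
      obtain ⟨i, hiN, his⟩ := this
      exact ⟨⟨i, by omega⟩, his⟩
    rw [← Nat.card_congr (Equiv.ofBijective _ hb), Nat.card_fin]
  rw [hcard]
  refine ⟨fun s => ?_, fun i hi j hj => hinj' i (by omega) j (by omega),
    fun i hi c => hform i (by omega) c⟩
  have : s ∈ {s | ∃ i ≤ n, t i = s} := by rw [huniv]; trivial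
  obtain ⟨i, hiN, his⟩ := this
  exact ⟨i, by omega, his⟩

theorem LinW.step_ne {G : Gluing k ι} {e : ℕ → Fin k} {N : ℕ} {t : ℕ → ι}
    (h : LinW G e N t) {i : ℕ} (hi : i + 1 < N) : t (i + 1) ≠ t i := by
  intro heq
  have := h.2.1 _ hi _ (by omega) heq
  omega

theorem LinW.last {G : Gluing k ι} {e : ℕ → Fin k} {N : ℕ} {t : ℕ → ι}
    (h : LinW G e N t) (he : ∀ i, e i ≠ e (i + 1)) (hts : ∀ i, t (i + 1) = G.nbr (e i) (t i))
    {i : ℕ} (hi : i + 1 = N) : t (i + 1) = t i := by
  rw [hts, h.2.2 i (by omega) (e i), if_neg (by omega), if_neg]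
  rintro ⟨h0, h1⟩
  obtain ⟨m, rfl⟩ : ∃ m, i = m + 1 := ⟨i - 1, by omega⟩
  exact he m h1.symm

/-- the walk with colour sequence `e` -/
def walk (G : Gluing k ι) (e : ℕ → Fin k) (s : ι) : ℕ → ι
  | 0 => s
  | (i + 1) => G.nbr (e i) (G.walk e s i)

theorem lin_two [Finite ι] (G : Gluing k ι) (hG : G.Conn) (x y : Fin k) (hxy : x ≠ y)
    (hU : ∀ c t, G.nbr c t ≠ t → c = x ∨ c = y) (s : ι) (hs : G.nbr y s = s) :
    Lin G (fun i => if i % 2 = 0 then x else y) (Nat.card ι) := by
  refine ⟨_, lin_of_regular G hG _ ?_ (G.walk (fun i => if i % 2 = 0 then x else y) s)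
    (fun i => rfl) ?_⟩
  · intro i
    rcases Nat.mod_two_eq_zero_or_one i with h | h
    · have h' : (i + 1) % 2 = 1 := by omega
      simp [h, h', hxy]
    · have h' : (i + 1) % 2 = 0 := by omega
      simp [h, h', hxy.symm]
  · intro i _ c hc
    rcases Nat.eq_zero_or_pos i with h0 | h0
    · subst h0
      left
      rcases hU _ _ hc with h | h
      · simpa using h
      · subst h
        exact absurd hs hc
    · obtain ⟨m, rfl⟩ : ∃ m, i = m + 1 := ⟨i - 1, by omega⟩
      have h1 := hU _ _ hc
      simp only [Nat.add_sub_cancel, Nat.succ_pos, true_and]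
      rcases Nat.mod_two_eq_zero_or_one m with h | h
      · have h' : (m + 1) % 2 = 1 := by omega
        simp only [h, h']
        simpa using h1.symm
      · have h' : (m + 1) % 2 = 0 := by omega
        simp only [h, h']
        simpa using h1

theorem lin_one (G : Gluing k ι) (hG : G.Conn) (x : Fin k)
    (hU : ∀ c t, G.nbr c t ≠ t → c = x) (s : ι) :
    Lin G (fun _ => x) (Nat.card ι) := by
  classical
  have huniv : ({s, G.nbr x s} : Set ι) = Set.univ := by
    apply hG
    · exact ⟨s, by simp⟩
    · intro c t ht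
      by_cases hc : G.nbr c t = t
      · rwa [hc]
      · have := hU _ _ hc
        subst this
        rcases ht with rfl | rfl
        · simp
        · simp [G.invol]
  have hmem : ∀ u, u = s ∨ u = G.nbr x s := by
    intro u
    have : u ∈ ({s, G.nbr x s} : Set ι) := by rw [huniv]; trivial
    simpa using this
  by_cases hx : G.nbr x s = s
  · have hcard : Nat.card ι = 1 := by
      rw [Nat.card_eq_one_iff_unique]
      refine ⟨⟨fun a b => ?_⟩, ⟨s⟩⟩
      have ha := hmem a
      have hb := hmem b
      rw [hx] at ha hb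
      rw [ha.elim id id, hb.elim id id]
    rw [hcard]
    refine ⟨fun _ => s, fun u => ⟨0, by omega, ?_⟩, fun i hi j hj _ => by omega, fun i hi c => ?_⟩
    · have := hmem u
      rw [hx] at this
      exact (this.elim id id).symm
    · have : G.nbr c s = s := by
        by_contra h
        have := hU _ _ h
        subst this
        exact h hx
      simp [this]
  · have hcard : Nat.card ι = 2 := by
      rw [Nat.card_eq_two_iff]
      exact ⟨s, G.nbr x s, fun h => hx h.symm, huniv⟩
    rw [hcard]
    refine ⟨fun i => if i = 0 then s else G.nbr x s, fun u => ?_, ?_, ?_⟩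
    · rcases hmem u with h | h
      · exact ⟨0, by omega, by simp [h]⟩
      · exact ⟨1, by omega, by simp [h]⟩
    · intro i hi j hj hij
      interval_cases i <;> interval_cases j
      · rfl
      · exact absurd (by simpa using hij.symm) hx
      · exact absurd (by simpa using hij) hx
      · rfl
    · intro i hi c
      by_cases hc : c = x
      · subst hc
        interval_cases i <;> simp [G.invol]
      · have h1 : G.nbr c s = s := by
          by_contra h; exact hc (hU _ _ h)
        have h2 : G.nbr c (G.nbr x s) = G.nbr x s := by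
          by_contra h; exact hc (hU _ _ h)
        rw [if_neg (fun h => hc h.2), if_neg (fun h => hc h.2)]
        dsimp only
        split_ifs
        · exact h1
        · exact h2

end Gluing

end Pool.Agent.Helper58_Iso
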