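import Pool.Agent.Helper58_Iso.Sim

namespace Pool.Agent.Helper58_Iso

open Function

namespace Gluing

variable {k : ℕ} {ι ι' : Type}

theorem trace_funLeft [Fintype ι] [DecidableEq ι] (f : ι → ι) :
    LinearMap.trace ℝ (ι → ℝ) (LinearMap.funLeft ℝ ℝ f) =
      ((Finset.univ.filter (fun t => f t = t)).card : ℝ) := by
  rw [LinearMap.trace_eq_matrix_trace ℝ (Pi.basisFun ℝ ι), Matrix.trace]
  rw [Finset.card_filter, Nat.cast_sum]
  apply Finset.sum_congr rfl
  intro t _
  rw [Matrix.diag_apply, LinearMap.toMatrix_apply]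
  simp [LinearMap.funLeft_apply, Pi.single_apply]

theorem card_fix_eq [Fintype ι] [DecidableEq ι] [Fintype ι'] [DecidableEq ι']
    (L : (ι → ℝ) ≃ₗ[ℝ] (ι' → ℝ)) (f : ι → ι) (f' : ι' → ι')
    (h : ∀ v, L (v ∘ f) = (L v) ∘ f') :
    (Finset.univ.filter (fun t => f t = t)).card =
      (Finset.univ.filter (fun t => f' t = t)).card := by
  have h1 := LinearMap.trace_conj' (LinearMap.funLeft ℝ ℝ f) L
  have h2 : L.conj (LinearMap.funLeft ℝ ℝ f) = LinearMap.funLeft ℝ ℝ f' := by
    refine LinearMap.ext fun v => funext fun t => ?_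
    rw [LinearEquiv.conj_apply_apply]
    have := h (L.symm v)
    rw [LinearEquiv.apply_symm_apply] at this
    change L ((L.symm v) ∘ f) t = (v ∘ f') t
    rw [this]
  rw [h2, trace_funLeft, trace_funLeft] at h1
  exact_mod_cast h1.symm

theorem conn_of_intertwine [Nonempty ι'] {G : Gluing k ι} {G' : Gluing k ι'}
    (L : (ι → ℝ) ≃ₗ[ℝ] (ι' → ℝ)) (h : ∀ c v, L (v ∘ G.nbr c) = (L v) ∘ G'.nbr c)
    (hG : G.Conn) : G'.Conn := by
  classical
  have hconst : ∀ v' : ι' → ℝ, (∀ c, v' ∘ G'.nbr c = v') → ∃ a : ℝ, L (fun _ => a) = v' := by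
    intro v' hv'
    have h1 : ∀ c, (L.symm v') ∘ G.nbr c = L.symm v' := by
      intro c
      apply L.injective
      rw [h, LinearEquiv.apply_symm_apply, hv']
    rcases isEmpty_or_nonempty ι with hι | ⟨⟨t0⟩⟩
    · refine ⟨0, ?_⟩
      have : (fun _ : ι => (0 : ℝ)) = L.symm v' := Subsingleton.elim _ _
      rw [this, LinearEquiv.apply_symm_apply]
    · refine ⟨L.symm v' t0, ?_⟩
      have h2 : {t | L.symm v' t = L.symm v' t0} = Set.univ := by
        apply hG
        · exact ⟨t0, rfl⟩
        · intro c t ht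
          have := congrFun (h1 c) t
          simp only [Function.comp_apply] at this
          change L.symm v' (G.nbr c t) = L.symm v' t0
          rw [this]
          exact ht
      have h3 : (fun _ : ι => L.symm v' t0) = L.symm v' := by
        funext t
        have : t ∈ {t | L.symm v' t = L.symm v' t0} := by rw [h2]; trivial
        exact (show L.symm v' t = L.symm v' t0 from this).symm
      rw [h3, LinearEquiv.apply_symm_apply]
  intro S hS hinv
  obtain ⟨s, hs⟩ := hS
  obtain ⟨a, ha⟩ := hconst (fun t => if t ∈ S then 1 else 0) (by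
    intro c
    funext t
    simp only [Function.comp_apply]
    have : G'.nbr c t ∈ S ↔ t ∈ S :=
      ⟨fun h => by simpa [G'.invol] using hinv c _ h, hinv c t⟩
    simp [this])
  obtain ⟨b, hb⟩ := hconst (fun _ => 1) (fun c => rfl)
  have hb0 : b ≠ 0 := by
    rintro rfl
    have h0 : L (fun _ => (0 : ℝ)) = 0 := L.map_zero
    rw [h0] at hb
    have := congrFun hb s
    norm_num at this
  have h3 : (fun t => if t ∈ S then (1 : ℝ) else 0) = (a / b) • (fun _ : ι' => (1 : ℝ)) := by
    rw [← ha, ← hb, ← L.map_smul]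
    congr 1
    funext t
    simp only [Pi.smul_apply, smul_eq_mul]
    field_simp
  have h4 : a / b = 1 := by
    have := congrFun h3 s
    simp [hs] at this
    rw [← this]
  ext t
  have := congrFun h3 t
  rw [h4] at this
  simp at this
  simp [this]

theorem qq_iff_linear (G : Gluing k ι) (c d : Fin k) :
    G.QQ c d ↔ ∀ v : ι → ℝ, v ∘ (G.Z c d) = v → v ∘ G.nbr c = v := by
  classical
  constructor
  · intro h v hv
    funext t
    obtain ⟨j, hj⟩ := h t
    simp only [Function.comp_apply]
    rw [← hj]
    exact inv_zpow_fun (G.Z c d) v (fun u => congrFun hv u) j t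
  · intro h t
    have := h (fun u => if (G.Z c d).SameCycle t u then 1 else 0) (by
      funext u
      simp only [Function.comp_apply, Equiv.Perm.sameCycle_apply_right])
    have := congrFun this t
    simp only [Function.comp_apply] at this
    by_contra hne
    rw [if_neg hne, if_pos (Equiv.Perm.SameCycle.refl _ _)] at this
    norm_num at this

theorem qq_of_intertwine {G : Gluing k ι} {G' : Gluing k ι'}
    (L : (ι → ℝ) ≃ₗ[ℝ] (ι' → ℝ)) (h : ∀ c v, L (v ∘ G.nbr c) = (L v) ∘ G'.nbr c)
    {c d : Fin k} (hQ : G.QQ c d) : G'.QQ c d := by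
  rw [qq_iff_linear] at hQ ⊢
  intro v' hv'
  have h1 : (L.symm v') ∘ (G.Z c d) = L.symm v' := by
    apply L.injective
    have : (L.symm v') ∘ (G.Z c d) = (L.symm v' ∘ G.nbr d) ∘ G.nbr c := rfl
    rw [this, h, h, LinearEquiv.apply_symm_apply]
    exact hv'
  have h2 := hQ _ h1
  have h3 := congrArg L h2
  rwa [h, LinearEquiv.apply_symm_apply] at h3

theorem sim_of_intertwine [Fintype ι] [DecidableEq ι] [Fintype ι'] [DecidableEq ι']
    [Nonempty ι] [Nonempty ι'] {G : Gluing k ι} {G' : Gluing k ι'}
    (L : (ι → ℝ) ≃ₗ[ℝ] (ι' → ℝ)) (h : ∀ c v, L (v ∘ G.nbr c) = (L v) ∘ G'.nbr c) :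
    Sim G G' := by
  have h' : ∀ c v, L.symm (v ∘ G'.nbr c) = (L.symm v) ∘ G.nbr c := by
    intro c v
    apply L.injective
    rw [h, LinearEquiv.apply_symm_apply, LinearEquiv.apply_symm_apply]
  have hZ : ∀ c d n v, L (v ∘ (G.Z c d)^[n]) = (L v) ∘ (G'.Z c d)^[n] := by
    intro c d n
    induction n with
    | zero => intro v; rfl
    | succ n ih =>
      intro v
      have : v ∘ (G.Z c d)^[n + 1] = ((v ∘ (G.Z c d)^[n]) ∘ G.nbr d) ∘ G.nbr c := by
        rw [Function.iterate_succ]; rfl
      rw [this, h, h, ih, Function.iterate_succ]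
      rfl
  refine ⟨?_, ?_, ?_, ?_, ?_⟩
  · have := card_fix_eq L id id (fun v => rfl)
    simpa [Nat.card_eq_fintype_card] using this
  · intro c
    have := card_fix_eq L (G.nbr c) (G'.nbr c) (h c)
    rw [Nat.card_eq_fintype_card, Nat.card_eq_fintype_card, Fintype.card_subtype,
      Fintype.card_subtype]
    exact this
  · intro c d n
    rcases Nat.eq_zero_or_pos n with rfl | hn
    · constructor
      · rintro ⟨t, ht⟩
        exact absurd ht (minimalPeriod_pos_perm _ t).ne'
      · rintro ⟨t, ht⟩
        exact absurd ht (minimalPeriod_pos_perm _ t).ne'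
    · have := card_minimalPeriod_eq (G.Z c d) (G'.Z c d)
        (fun n => card_fix_eq L _ _ (hZ c d n)) n hn
      constructor
      · rintro ⟨t, ht⟩
        have h1 : 0 < (Finset.univ.filter (fun t => minimalPeriod (G.Z c d) t = n)).card :=
          Finset.card_pos.2 ⟨t, by simp [ht]⟩
        rw [this] at h1
        obtain ⟨s, hs⟩ := Finset.card_pos.1 h1
        exact ⟨s, (Finset.mem_filter.1 hs).2⟩
      · rintro ⟨t, ht⟩
        have h1 : 0 < (Finset.univ.filter (fun t => minimalPeriod (G'.Z c d) t = n)).card :=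
          Finset.card_pos.2 ⟨t, by simp [ht]⟩
        rw [← this] at h1
        obtain ⟨s, hs⟩ := Finset.card_pos.1 h1
        exact ⟨s, (Finset.mem_filter.1 hs).2⟩
  · intro c d
    exact ⟨qq_of_intertwine L h, qq_of_intertwine L.symm h'⟩
  · exact ⟨conn_of_intertwine L h, conn_of_intertwine L.symm h'⟩

/-- Undoing the Dirichlet signs with orientation functions. -/
theorem sim_of_transplantable [Fintype ι] [DecidableEq ι] [Fintype ι'] [DecidableEq ι']
    [Nonempty ι] {G : Gluing k ι} {G' : Gluing k ι'} (hT : Transplantable G G')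
    (ε : ι → ℝ) (ε' : ι' → ℝ) (hε : ∀ t, ε t * ε t = 1) (hε' : ∀ t, ε' t * ε' t = 1)
    (h1 : ∀ c t, G.nbr c t ≠ t → ε (G.nbr c t) = - ε t)
    (h2 : ∀ c t, G'.nbr c t ≠ t → ε' (G'.nbr c t) = - ε' t) : Sim G G' := by
  obtain ⟨M, N, hNM, hMN, hM⟩ := hT
  have hsigned : ∀ c (v : ι → ℝ) (s : ι), (G.signed c).mulVec v s =
      - ε s * ε (G.nbr c s) * v (G.nbr c s) := by
    intro c v s
    rw [Matrix.mulVec, dotProduct, Finset.sum_eq_single (G.nbr c s)]
    · by_cases hs : G.nbr c s = s
      · simp [signed, hs, hε]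
      · have : ¬ s = G.nbr c s := fun h => hs h.symm
        simp only [signed, if_true, this, if_false]
        rw [h1 c s hs]
        have := hε s
        linear_combination -(v (G.nbr c s)) * this
    · intro b _ hb
      simp [signed, Ne.symm hb]
    · simp
  have hsigned' : ∀ c (v : ι' → ℝ) (s : ι'), (G'.signed c).mulVec v s =
      - ε' s * ε' (G'.nbr c s) * v (G'.nbr c s) := by
    intro c v s
    rw [Matrix.mulVec, dotProduct, Finset.sum_eq_single (G'.nbr c s)]
    · by_cases hs : G'.nbr c s = s
      · simp [signed, hs, hε']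
      · have : ¬ s = G'.nbr c s := fun h => hs h.symm
        simp only [signed, if_true, this, if_false]
        rw [h2 c s hs]
        have := hε' s
        linear_combination -(v (G'.nbr c s)) * this
    · intro b _ hb
      simp [signed, Ne.symm hb]
    · simp
  let L0 : (ι → ℝ) →ₗ[ℝ] (ι' → ℝ) :=
    { toFun := fun v s => ε' s * M.mulVec (fun t => ε t * v t) s
      map_add' := fun v w => by
        funext s
        have : (fun t => ε t * (v + w) t) = (fun t => ε t * v t) + (fun t => ε t * w t) := by
          funext t; simp [mul_add]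
        rw [this, Matrix.mulVec_add]
        simp [mul_add]
      map_smul' := fun a v => by
        funext s
        have : (fun t => ε t * (a • v) t) = a • (fun t => ε t * v t) := by
          funext t; simp; ring
        rw [this, Matrix.mulVec_smul]
        simp; ring }
  let L1 : (ι' → ℝ) →ₗ[ℝ] (ι → ℝ) :=
    { toFun := fun v s => ε s * N.mulVec (fun t => ε' t * v t) s
      map_add' := fun v w => by
        funext s
        have : (fun t => ε' t * (v + w) t) = (fun t => ε' t * v t) + (fun t => ε' t * w t) := by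
          funext t; simp [mul_add]
        rw [this, Matrix.mulVec_add]
        simp [mul_add]
      map_smul' := fun a v => by
        funext s
        have : (fun t => ε' t * (a • v) t) = a • (fun t => ε' t * v t) := by
          funext t; simp; ring
        rw [this, Matrix.mulVec_smul]
        simp; ring }
  have h01 : ∀ v, L1 (L0 v) = v := by
    intro v
    funext s
    change ε s * N.mulVec (fun t => ε' t * (ε' t * M.mulVec (fun t => ε t * v t) t)) s = v s
    have : (fun t => ε' t * (ε' t * M.mulVec (fun t => ε t * v t) t)) =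
        M.mulVec (fun t => ε t * v t) := by
      funext t; rw [← mul_assoc, hε', one_mul]
    rw [this, Matrix.mulVec_mulVec, hNM, Matrix.one_mulVec, ← mul_assoc, hε, one_mul]
  have h10 : ∀ v, L0 (L1 v) = v := by
    intro v
    funext s
    change ε' s * M.mulVec (fun t => ε t * (ε t * N.mulVec (fun t => ε' t * v t) t)) s = v s
    have : (fun t => ε t * (ε t * N.mulVec (fun t => ε' t * v t) t)) =
        N.mulVec (fun t => ε' t * v t) := by
      funext t; rw [← mul_assoc, hε, one_mul]
    rw [this, Matrix.mulVec_mulVec, hMN, Matrix.one_mulVec, ← mul_assoc, hε', one_mul]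
  let L : (ι → ℝ) ≃ₗ[ℝ] (ι' → ℝ) := LinearEquiv.ofLinearMap L0 L1
    (LinearMap.ext h10) (LinearMap.ext h01)
  have hne : Nonempty ι' := by
    by_contra hne
    rw [not_nonempty_iff] at hne
    have := L.injective (Subsingleton.elim (L (fun _ => 1)) (L (fun _ => 0)))
    have := congrFun this (Classical.arbitrary ι)
    norm_num at this
  refine sim_of_intertwine L ?_
  intro c v
  funext s
  change ε' s * M.mulVec (fun t => ε t * (v ∘ G.nbr c) t) s =
    ε' (G'.nbr c s) * M.mulVec (fun t => ε t * v t) (G'.nbr c s)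
  have e1 : (fun t => ε t * (v ∘ G.nbr c) t) = - (G.signed c).mulVec (fun t => ε t * v t) := by
    funext t
    simp only [Function.comp_apply, Pi.neg_apply]
    rw [hsigned]
    have := hε (G.nbr c t)
    linear_combination -(ε t * v (G.nbr c t)) * this
  rw [e1, Matrix.mulVec_neg, Matrix.mulVec_mulVec, hM, ← Matrix.mulVec_mulVec]
  simp only [Pi.neg_apply]
  rw [hsigned']
  have := hε' s
  linear_combination (ε' (G'.nbr c s) * M.mulVec (fun t => ε t * v t) (G'.nbr c s)) * this

end Gluing

end Pool.Agent.Helper58_Iso
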