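import Pool.Agent.Helper58_Iso.Alpha

namespace Pool.Agent.Helper58_Iso

open Function Real

namespace Gluing

variable {k : ℕ} {ι ι' : Type}

/-- angle bound: every stretch of `n` unblocked alternating steps satisfies `(n + 1) θ ≤ π` -/
def AB (G : Gluing k ι) (c d : Fin k) (θ : ℝ) : Prop :=
  ∀ t n, (∀ i < n, G.alt c d t (i + 1) ≠ G.alt c d t i) → ((n : ℝ) + 1) * θ ≤ π

theorem AB.wb {G : Gluing k ι} {c d : Fin k} {θ : ℝ} (h : G.AB c d θ) {m : ℕ}
    (hm : π < ((m : ℝ) + 1) * θ) : G.WB c d m := by
  intro t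
  by_contra hne
  push Not at hne
  have := h t m hne
  linarith

theorem AB.two {G : Gluing k ι} {c d : Fin k} {θ : ℝ} (h : G.AB c d θ) {t : ι}
    (ht : G.nbr c t ≠ t) : 2 * θ ≤ π := by
  have := h t 1 (by
    intro i hi
    have : i = 0 := by omega
    subst this
    rw [alt_succ_even _ _ _ _ _ (by omega), alt_zero]
    exact ht)
  norm_num at this
  linarith

/-- the data produced by the geometry for three used colours -/
structure TriData (G : Gluing k ι) (x y z : Fin k) (A B C : ℝ) : Prop where
  xy : x ≠ y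
  xz : x ≠ z
  yz : y ≠ z
  hU : ∀ c t, G.nbr c t ≠ t → c = x ∨ c = y ∨ c = z
  hu : ∀ c, (c = x ∨ c = y ∨ c = z) → ∃ t, G.nbr c t ≠ t
  aA : G.AB x y A
  aA' : G.AB y x A
  aB : G.AB y z B
  aB' : G.AB z y B
  aC : G.AB x z C
  aC' : G.AB z x C
  sum : A + B + C = π

theorem TriData.swap {G : Gluing k ι} {x y z : Fin k} {A B C : ℝ} (h : TriData G x y z A B C) :
    TriData G y x z A C B :=
  ⟨h.xy.symm, h.yz, h.xz, fun c t hc => by rcases h.hU c t hc with h | h | h <;> simp [h],
    fun c hc => h.hu c (by rcases hc with h | h | h <;> simp [h]), h.aA', h.aA, h.aC, h.aC',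
    h.aB, h.aB', by linarith [h.sum]⟩

theorem TriData.rot {G : Gluing k ι} {x y z : Fin k} {A B C : ℝ} (h : TriData G x y z A B C) :
    TriData G y z x B C A :=
  ⟨h.yz, h.xy.symm, h.xz.symm, fun c t hc => by rcases h.hU c t hc with h | h | h <;> simp [h],
    fun c hc => h.hu c (by rcases hc with h | h | h <;> simp [h]), h.aB, h.aB', h.aC', h.aC,
    h.aA', h.aA, by linarith [h.sum]⟩

theorem TriData.iso_sorted [Finite ι] [Finite ι'] {G : Gluing k ι} {G' : Gluing k ι'}
    {x y z : Fin k} {A B C : ℝ} (h : TriData G x y z A B C) (hAB : B ≤ A) (hBC : C ≤ B)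
    (hS : Sim G G') (hG : G.Conn) {s : ι} (hs : G.Leaf s) : Iso G G' := by
  have hpi := Real.pi_pos
  have hsum := h.sum
  obtain ⟨tx, htx⟩ := h.hu x (by simp)
  have hA2 := h.aA.two htx
  by_cases h1 : A ≤ π / 3
  · have hB : B = π / 3 := by linarith
    have hC : C = π / 3 := by linarith
    have hA : A = π / 3 := by linarith
    have hbig : π < (((3 : ℕ) : ℝ) + 1) * (π / 3) := by push_cast; linarith
    have w1 := h.aA.wb (m := 3) (by rw [hA]; exact hbig)
    have w2 := h.aA'.wb (m := 3) (by rw [hA]; exact hbig)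
    have w3 := h.aB.wb (m := 3) (by rw [hB]; exact hbig)
    have w4 := h.aB'.wb (m := 3) (by rw [hB]; exact hbig)
    have w5 := h.aC.wb (m := 3) (by rw [hC]; exact hbig)
    have w6 := h.aC'.wb (m := 3) (by rw [hC]; exact hbig)
    have hα : AlphaData G x y z := by
      refine ⟨h.hU, h.hu, ?_⟩
      intro c d hcd
      by_cases hc : c = x ∨ c = y ∨ c = z
      · by_cases hd : d = x ∨ d = y ∨ d = z
        · rcases hc with rfl | rfl | rfl <;> rcases hd with rfl | rfl | rfl <;>
            first | assumption | exact absurd rfl hcd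
        · intro t
          refine ⟨1, by omega, ?_⟩
          rw [alt_succ_odd _ _ _ _ _ (by omega)]
          by_contra hne
          exact hd (h.hU _ _ hne)
      · intro t
        refine ⟨0, by omega, ?_⟩
        rw [alt_succ_even _ _ _ _ _ (by omega)]
        by_contra hne
        exact hc (h.hU _ _ hne)
    exact hα.iso h.xy h.xz h.yz hS hG hs
  · push Not at h1
    have wxy := h.aA.wb (m := 2) (by push_cast; linarith)
    have wyx := h.aA'.wb (m := 2) (by push_cast; linarith)
    by_cases h2 : π / 3 < B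
    · exfalso
      have wyz := h.aB.wb (m := 2) (by push_cast; linarith)
      obtain ⟨t, ht⟩ := h.hu y (by simp)
      have ht' : G.nbr y (G.nbr y t) ≠ G.nbr y t := by rw [G.invol]; exact ht.symm
      have a1 := wyx.two ht
      have a2 := wyz.two ht
      have a3 := wyx.two ht'
      have a4 := wyz.two ht'
      refine exists_ne_of_conn hG {t, G.nbr y t} ⟨t, by simp⟩ ?_ x ?_ (h.hu x (by simp))
      · intro d w hw
        by_cases hd : G.nbr d w = w
        · rw [hd]; exact hw
        · have hdU := h.hU _ _ hd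
          rcases hw with rfl | hw
          · rcases hdU with rfl | rfl | rfl
            · exact absurd a1 hd
            · simp
            · exact absurd a2 hd
          · rw [Set.mem_singleton_iff] at hw
            subst hw
            rcases hdU with rfl | rfl | rfl
            · exact absurd a3 hd
            · rw [G.invol]; simp
            · exact absurd a4 hd
      · rintro w (rfl | hw)
        · exact a1
        · rw [Set.mem_singleton_iff] at hw
          subst hw
          exact a3
    · push Not at h2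
      by_cases h3 : π / 4 < B
      · have hγ : GammaData G x y z := by
          refine ⟨h.hU, h.hu y (by simp), wxy, wyx, h.aB.wb ?_, h.aB'.wb ?_, h.aC.wb ?_,
            h.aC'.wb ?_⟩ <;> push_cast <;> linarith
        exact hγ.iso h.xy h.xz h.yz hS hG
      · have hβ : BetaData G x y z := by
          refine ⟨h.hU, h.hu x (by simp), h.hu y (by simp), h.hu z (by simp), wxy, wyx,
            h.aB.wb ?_, h.aB'.wb ?_, h.aC.wb ?_, h.aC'.wb ?_⟩ <;> push_cast <;> linarith
        exact hβ.iso h.xy h.xz h.yz hS hG s hs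

theorem TriData.iso [Finite ι] [Finite ι'] {G : Gluing k ι} {G' : Gluing k ι'}
    {x y z : Fin k} {A B C : ℝ} (h : TriData G x y z A B C)
    (hS : Sim G G') (hG : G.Conn) {s : ι} (hs : G.Leaf s) : Iso G G' := by
  rcases le_total A B with h1 | h1 <;> rcases le_total B C with h2 | h2 <;>
    rcases le_total A C with h3 | h3
  · exact h.rot.rot.swap.iso_sorted h2 h1 hS hG hs
  · exact h.rot.rot.swap.iso_sorted h2 h1 hS hG hs
  · exact h.rot.iso_sorted h2 h3 hS hG hs
  · exact h.rot.swap.iso_sorted h1 h3 hS hG hs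
  · exact h.rot.rot.iso_sorted h3 h1 hS hG hs
  · exact h.swap.iso_sorted h3 h2 hS hG hs
  · exact h.iso_sorted h1 h2 hS hG hs
  · exact h.iso_sorted h1 h2 hS hG hs

theorem iso_of_two [Finite ι] [Finite ι'] {G : Gluing k ι} {G' : Gluing k ι'} (x y : Fin k)
    (hU : ∀ c t, G.nbr c t ≠ t → c = x ∨ c = y)
    (hS : Sim G G') (hG : G.Conn) {s : ι} (hs : G.Leaf s) : Iso G G' := by
  have hG' := hS.conn.1 hG
  have hU' : ∀ c t, G'.nbr c t ≠ t → c = x ∨ c = y := by
    intro c t hc
    by_contra hne
    refine hc (hS.unused (c := c) ?_ t)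
    intro s
    by_contra hs
    exact hne (hU _ _ hs)
  have hne' : Nonempty ι' := by
    have : Nonempty ι := ⟨s⟩
    have : 0 < Nat.card ι := Nat.card_pos
    rw [hS.card] at this
    exact (Nat.card_pos_iff.1 this).1
  by_cases hxy : x = y
  · subst hxy
    have l1 := lin_one G hG x (fun c t hc => by simpa using hU c t hc) s
    have l2 := lin_one G' hG' x (fun c t hc => by simpa using hU' c t hc)
      (Classical.arbitrary ι')
    rw [← hS.card] at l2
    exact iso_of_lin l1 l2
  · have hcase : G.nbr y s = s ∨ G.nbr x s = s := by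
      by_contra hh
      push Not at hh
      exact hxy (hs _ _ hh.2 hh.1)
    rcases hcase with h1 | h1
    · obtain ⟨s', hs'⟩ := hS.exists_fix ⟨s, h1⟩
      have l1 := lin_two G hG x y hxy hU s h1
      have l2 := lin_two G' hG' x y hxy hU' s' hs'
      rw [← hS.card] at l2
      exact iso_of_lin l1 l2
    · obtain ⟨s', hs'⟩ := hS.exists_fix ⟨s, h1⟩
      have l1 := lin_two G hG y x (Ne.symm hxy) (fun c t hc => (hU c t hc).symm) s h1
      have l2 := lin_two G' hG' y x (Ne.symm hxy) (fun c t hc => (hU' c t hc).symm) s' hs'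
      rw [← hS.card] at l2
      exact iso_of_lin l1 l2

theorem iso_of_none [Finite ι] [Finite ι'] {G : Gluing k ι} {G' : Gluing k ι'}
    (hU : ∀ c t, G.nbr c t = t)
    (hS : Sim G G') (hG : G.Conn) (s : ι) : Iso G G' := by
  have h1 : ({s} : Set ι) = Set.univ := hG {s} ⟨s, by simp⟩ (by
    intro c t ht
    rw [hU]; exact ht)
  have hc : Nat.card ι = 1 := by
    rw [Nat.card_eq_one_iff_unique]
    refine ⟨⟨fun a b => ?_⟩, ⟨s⟩⟩
    have ha : a ∈ ({s} : Set ι) := by rw [h1]; trivial
    have hb : b ∈ ({s} : Set ι) := by rw [h1]; trivial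
    rw [Set.mem_singleton_iff] at ha hb
    rw [ha, hb]
  have hc' : Nat.card ι' = 1 := by rw [← hS.card]; exact hc
  obtain ⟨hs1, hn1⟩ := Nat.card_eq_one_iff_unique.1 hc
  obtain ⟨hs2, hn2⟩ := Nat.card_eq_one_iff_unique.1 hc'
  exact ⟨(Finite.equivFinOfCardEq hc).trans (Finite.equivFinOfCardEq hc').symm,
    fun c t => Subsingleton.elim _ _⟩

end Gluing

end Pool.Agent.Helper58_Iso
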