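import Pool.Agent.Helper58_Iso.LeafEx

namespace Pool.Agent.Helper58_Iso

open Complex Set Filter
open scoped ComplexConjugate Topology

variable {k : ℕ} {ι : Type} {T : Tile k} {G : Gluing k ι} {φ : ι → (ℂ ≃ᵃⁱ[ℝ] ℂ)}

theorem pair_real (p q v1 v2 : ℝ) (h1 : 0 ≤ p) (h2 : p ≤ 1) (h3 : 0 ≤ q)
    (h4 : 0 ≤ p + v1) (h6 : 0 ≤ q + v2)
    (k1 : 0 ≤ -(p * v1 + q * v2)) (k2 : -(p * v1 + q * v2) ≤ v1 ^ 2 + v2 ^ 2)
    (k3 : 0 ≤ p * v2 - q * v1)
    (l1 : 0 ≤ (1 - p) * v1 - q * v2)
    (l3 : 0 ≤ -(1 - p) * v2 - q * v1) :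
    (0 < v2 → p = 1 ∧ q = 0) ∧ (v2 < 0 → p + v1 = 0 ∧ q + v2 = 0) ∧
      (v2 = 0 → v1 ≠ 0 → q = 0 ∨ (p = 1 ∧ v1 = -1)) := by
  refine ⟨fun hv => ?_, fun hv => ?_, fun hv hv1 => ?_⟩
  · have hqv : 0 ≤ q * v2 := mul_nonneg h3 hv.le
    have hp : p = 1 := by
      rcases le_or_gt 0 v1 with hv1 | hv1
      · have : 0 ≤ q * v1 := mul_nonneg h3 hv1
        have h5 : (1 - p) * v2 ≤ 0 := by linarith
        have : 1 - p ≤ 0 := by
          by_contra hh
          push Not at hh
          have := mul_pos hh hv
          linarith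
        linarith
      · have h5 : 0 ≤ (1 - p) * v1 := by linarith
        have : 1 - p ≤ 0 := by
          by_contra hh
          push Not at hh
          have := mul_neg_of_pos_of_neg hh hv1
          linarith
        linarith
    subst hp
    have h7 : q * v2 ≤ 0 := by linarith
    have : q * v2 = 0 := le_antisymm h7 hqv
    exact ⟨rfl, (mul_eq_zero.1 this).resolve_right hv.ne'⟩
  · set r := p + v1 with hr
    set s := q + v2 with hs
    have e1 : r * v2 - s * v1 = p * v2 - q * v1 := by rw [hr, hs]; ring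
    have e2 : r * v1 + s * v2 = (v1 ^ 2 + v2 ^ 2) + (p * v1 + q * v2) := by rw [hr, hs]; ring
    have hsv : s * v2 ≤ 0 := mul_nonpos_of_nonneg_of_nonpos h6 hv.le
    have hr0 : r = 0 := by
      rcases le_or_gt 0 v1 with hv1 | hv1
      · have : 0 ≤ s * v1 := mul_nonneg h6 hv1
        have h5 : 0 ≤ r * v2 := by linarith
        have : r ≤ 0 := by
          by_contra hh
          push Not at hh
          have := mul_neg_of_pos_of_neg hh hv
          linarith
        linarith
      · have h5 : 0 ≤ r * v1 := by linarith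
        have : r ≤ 0 := by
          by_contra hh
          push Not at hh
          have := mul_neg_of_pos_of_neg hh hv1
          linarith
        linarith
    have h7 : 0 ≤ s * v2 := by
      have : 0 ≤ r * v1 + s * v2 := by linarith
      rw [hr0] at this
      linarith
    have : s * v2 = 0 := le_antisymm hsv h7
    exact ⟨hr0, (mul_eq_zero.1 this).resolve_right hv.ne⟩
  · subst hv
    by_cases hq : q = 0
    · exact Or.inl hq
    · right
      have hq' : 0 < q := lt_of_le_of_ne h3 (Ne.symm hq)
      have hv1' : v1 < 0 := by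
        rcases lt_or_gt_of_ne hv1 with hh | hh
        · exact hh
        · have := mul_pos hq' hh
          linarith
      have hp : p = 1 := by
        have : 1 - p ≤ 0 := by
          by_contra hh
          push Not at hh
          have := mul_neg_of_pos_of_neg hh hv1'
          linarith
        linarith
      subst hp
      refine ⟨rfl, ?_⟩
      have h5 : -v1 ≤ v1 ^ 2 := by linarith
      nlinarith

/-- the ratio of the directions of two sides -/
noncomputable def rat (T : Tile k) (c d : Fin k) : ℂ := (T.b d - T.a d) / (T.b c - T.a c)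

theorem rat_ne (T : Tile k) (c d : Fin k) : rat T c d ≠ 0 :=
  div_ne_zero (sub_ne_zero.2 (T.ne d).symm) (sub_ne_zero.2 (T.ne c).symm)

theorem rat_mul (T : Tile k) (c d : Fin k) : rat T c d * (T.b c - T.a c) = T.b d - T.a d :=
  div_mul_cancel₀ _ (sub_ne_zero.2 (T.ne c).symm)

theorem Tile.Good.pair {c d : Fin k} (hc : T.Good c) (hd : T.Good d) (hcd : c ≠ d) :
    (0 < (rat T c d).im → T.a d = T.b c) ∧ ((rat T c d).im < 0 → T.b d = T.a c) ∧
    ((rat T c d).im = 0 → T.b d - T.a d = -(T.b c - T.a c) ∧
      (crd (T.a c) (T.b c) (T.a d)).re = 1) := by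
  have hu : T.b c - T.a c ≠ 0 := sub_ne_zero.2 (T.ne c).symm
  have hv : T.b d - T.a d ≠ 0 := sub_ne_zero.2 (T.ne d).symm
  set W := crd (T.a c) (T.b c) (T.a d) with hW
  set V := rat T c d with hV
  have hWV : crd (T.a c) (T.b c) (T.b d) = W + V := by
    rw [hW, hV, crd, crd, rat]; field_simp; ring
  obtain ⟨a1, a2, a3⟩ := hc.closure (T.a_mem_closure d)
  obtain ⟨b1, b2, b3⟩ := hc.closure (T.b_mem_closure d)
  obtain ⟨c1, c2, c3⟩ := hd.closure (T.a_mem_closure c)
  obtain ⟨d1, d2, d3⟩ := hd.closure (T.b_mem_closure c)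
  rw [← hW] at a1 a2 a3
  rw [hWV, add_re] at b1 b2
  rw [hWV, add_im] at b3
  set R := crd (T.a d) (T.b d) (T.a c) with hR
  set S := crd (T.a d) (T.b d) (T.b c) with hS
  have hRV : -W = R * V := by
    rw [hW, hV, hR, crd, crd, rat]; field_simp; ring
  have hSV : 1 - W = S * V := by
    rw [hW, hV, hS, crd, crd, rat]; field_simp; ring
  have r1 := congrArg Complex.re hRV
  have r2 := congrArg Complex.im hRV
  have s1 := congrArg Complex.re hSV
  have s2 := congrArg Complex.im hSV
  rw [neg_re, mul_re] at r1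
  rw [neg_im, mul_im] at r2
  rw [sub_re, one_re, mul_re] at s1
  rw [sub_im, one_im, mul_im] at s2
  have hN : 0 ≤ V.re ^ 2 + V.im ^ 2 := by positivity
  obtain ⟨g1, g2, g3⟩ := pair_real W.re W.im V.re V.im a1 a2 a3 b1 b3
    (by
      have : -(W.re * V.re + W.im * V.im) = R.re * (V.re ^ 2 + V.im ^ 2) := by
        linear_combination V.re * r1 + V.im * r2
      rw [this]; positivity)
    (by
      have : -(W.re * V.re + W.im * V.im) = R.re * (V.re ^ 2 + V.im ^ 2) := by
        linear_combination V.re * r1 + V.im * r2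
      rw [this]
      nlinarith)
    (by
      have : W.re * V.im - W.im * V.re = R.im * (V.re ^ 2 + V.im ^ 2) := by
        linear_combination (-V.im) * r1 + V.re * r2
      rw [this]; positivity)
    (by
      have : (1 - W.re) * V.re - W.im * V.im = S.re * (V.re ^ 2 + V.im ^ 2) := by
        linear_combination V.re * s1 + V.im * s2
      rw [this]; positivity)
    (by
      have : -(1 - W.re) * V.im - W.im * V.re = S.im * (V.re ^ 2 + V.im ^ 2) := by
        linear_combination (-V.im) * s1 + V.re * s2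
      rw [this]; positivity)
  have hWs := crd_spec (T.ne c) (T.a d)
  rw [← hW] at hWs
  refine ⟨fun hpos => ?_, fun hneg => ?_, fun hz => ?_⟩
  · obtain ⟨h1, h2⟩ := g1 hpos
    have : W = 1 := by apply Complex.ext <;> simp [h1, h2]
    rw [hWs, this]; ring
  · obtain ⟨h1, h2⟩ := g2 hneg
    have : W + V = 0 := by apply Complex.ext <;> simp [h1, h2]
    have h3 := crd_spec (T.ne c) (T.b d)
    rw [h3, hWV, this]; ring
  · have hVre : V.re ≠ 0 := by
      intro h0
      exact rat_ne T c d (Complex.ext (by simpa using h0) (by simpa using hz))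
    rcases g3 hz hVre with h1 | ⟨h1, h2⟩
    · exfalso
      -- the middle of side `d` lies on side `c`
      have hm := midp_mem (T.ne d)
      refine Set.disjoint_left.1 (T.disj c d hcd) ((mem_segment_iff (T.ne c) _).2 ?_) hm
      have : crd (T.a c) (T.b c) (midp (T.a d) (T.b d)) = W + ((1 / 2 : ℝ) : ℂ) * V := by
        rw [hW, hV, crd, crd, rat, midp]
        push_cast
        field_simp
        ring
      rw [this]
      rw [add_im, add_re, im_ofReal_mul, re_ofReal_mul, h1, hz]
      refine ⟨by norm_num, by linarith, by linarith⟩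
    · refine ⟨?_, h1⟩
      have : V = -1 := by apply Complex.ext <;> simp [h2, hz]
      have h3 := rat_mul T c d
      rw [← hV, this] at h3
      rw [← h3]; ring

end Pool.Agent.Helper58_Iso
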