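import Pool.Agent.Helper58_Iso.Pair

namespace Pool.Agent.Helper58_Iso

open Complex Set Filter
open scoped ComplexConjugate Topology

variable {k : ℕ} {ι : Type} {T : Tile k} {G : Gluing k ι} {φ : ι → (ℂ ≃ᵃⁱ[ℝ] ℂ)}

namespace IsUnfolding

variable (h : IsUnfolding T G φ)
include h

theorem mirror_le {t : ι} {g : Fin k} (hg : G.nbr g t ≠ t)
    {q : ℂ} {f : StrongDual ℝ ℂ} (hf : ∀ x, φ t x ∈ domain T G φ → f x < f q) {y : ℂ}
    (hy : y ∈ closure T.U) : f (mirror (T.a g) (T.b g) y) ≤ f q := by
  have hcl : IsClosed {x | f (mirror (T.a g) (T.b g) x) ≤ f q} :=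
    isClosed_le (f.continuous.comp (continuous_mirror _ _)) continuous_const
  exact (closure_minimal (fun x hx => (hf _ (h.mirror_mem hg hx)).le) hcl) hy

/-- two perpendicular adjacent sides cannot both be glued at the same tile -/
theorem no_right (hP : Convex ℝ (domain T G φ)) {t : ι} {f g : Fin k} (hf : G.nbr f t ≠ t)
    (hg : G.nbr g t ≠ t) (hgf : g ≠ f) (hre : (rat T g f).re = 0) : False := by
  have hgG := h.good hP hg
  have hfG := h.good hP hf
  have him : (rat T g f).im ≠ 0 := by
    intro h0
    exact rat_ne T g f (Complex.ext (by simpa using hre) (by simpa using h0))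
  have hu : T.b g - T.a g ≠ 0 := sub_ne_zero.2 (T.ne g).symm
  obtain ⟨p1, p2, -⟩ := hgG.pair hfG hgf
  have hym : φ t (midp (T.a f) (T.b f)) ∈ domain T G φ := side_mem hf (midp_mem (T.ne f))
  have hycl := T.side_subset_closure f (midp_mem (T.ne f))
  have hadd := add_mirror (T.ne g) (midp (T.a f) (T.b f))
  rcases lt_or_gt_of_ne him with hneg | hpos
  · have hO := p2 hneg
    obtain ⟨F, hF⟩ := h.sep hP t (T.corner_a g)
    have h1 := hF _ hym
    have h2 := h.mirror_le hg hF hycl
    have hc : (crd (T.a g) (T.b g) (midp (T.a f) (T.b f))).re = 0 := by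
      have : crd (T.a g) (T.b g) (midp (T.a f) (T.b f)) = ((-(1 / 2) : ℝ) : ℂ) * rat T g f := by
        rw [crd, rat, midp, ← hO]
        push_cast
        have : T.b g - T.b f ≠ 0 := by rw [hO]; exact hu
        field_simp
        ring
      rw [this, re_ofReal_mul, hre, mul_zero]
    rw [hc] at hadd
    have h3 := congrArg F hadd
    rw [map_add, map_add, show (2 : ℂ) = ((2 : ℝ) : ℂ) by norm_num, dual_mul] at h3
    simp at h3
    linarith
  · have hO := p1 hpos
    obtain ⟨F, hF⟩ := h.sep hP t (T.corner_b g)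
    have h1 := hF _ hym
    have h2 := h.mirror_le hg hF hycl
    have hc : (crd (T.a g) (T.b g) (midp (T.a f) (T.b f))).re = 1 := by
      have : crd (T.a g) (T.b g) (midp (T.a f) (T.b f)) =
          1 + (((1 / 2) : ℝ) : ℂ) * rat T g f := by
        rw [crd, rat, midp, hO]
        push_cast
        field_simp
        ring
      rw [this, add_re, one_re, re_ofReal_mul, hre, mul_zero, add_zero]
    rw [hc] at hadd
    have h3 := congrArg F hadd
    have h4 : 2 * T.a g + ((2 * 1 : ℝ) : ℂ) * (T.b g - T.a g) = ((2 : ℝ) : ℂ) * T.b g := by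
      push_cast; ring
    rw [h4, map_add, dual_mul] at h3
    linarith

/-- if at least three sides are used, no two used sides are parallel -/
theorem no_par (hP : Convex ℝ (domain T G φ)) (hG : G.Conn) {c d e : Fin k}
    (hc : ∃ t, G.nbr c t ≠ t) (hd : ∃ t, G.nbr d t ≠ t) (he : ∃ t, G.nbr e t ≠ t)
    (hcd : c ≠ d) (hce : c ≠ e) (hde : d ≠ e) : (rat T c d).im ≠ 0 := by
  intro hpar
  have good : ∀ c, (∃ t, G.nbr c t ≠ t) → T.Good c := fun c ⟨t, ht⟩ => h.good hP ht
  have gc := good c hc
  have gd := good d hd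
  have hu : T.b c - T.a c ≠ 0 := sub_ne_zero.2 (T.ne c).symm
  obtain ⟨hdir, hre1⟩ := (gc.pair gd hcd).2.2 hpar
  have hrd : ∀ f, rat T d f = - rat T c f := by
    intro f
    rw [rat, rat, hdir, div_neg]
  -- every other used side is perpendicular to side `c`
  have hperp : ∀ f, (∃ t, G.nbr f t ≠ t) → c ≠ f → d ≠ f → (rat T c f).re = 0 := by
    intro f hf hcf hdf
    have gf := good f hf
    obtain ⟨p1, p2, p3⟩ := gc.pair gf hcf
    obtain ⟨q1, q2, q3⟩ := gd.pair gf hdf
    have hv : T.b f - T.a f ≠ 0 := sub_ne_zero.2 (T.ne f).symm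
    rw [hrd, neg_im] at q1 q2 q3
    rcases lt_trichotomy (rat T c f).im 0 with h0 | h0 | h0
    · have e1 := p2 h0
      have e2 := q1 (by linarith)
      have : rat T c f = 1 - crd (T.a c) (T.b c) (T.a d) := by
        have e3 : T.b d = T.a d - (T.b c - T.a c) := by
          have := hdir; linear_combination this
        rw [rat, crd, e1, e2, e3]
        field_simp
        ring
      rw [this, sub_re, one_re, hre1, sub_self]
    · exfalso
      have e1 := (p3 h0).1
      have e2 := (q3 (by rw [h0, neg_zero])).1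
      rw [hdir, neg_neg, e1] at e2
      have : (2 : ℂ) * (T.b c - T.a c) = 0 := by linear_combination -e2
      simp at this
      exact hu this
    · have e1 := p1 h0
      have e2 := q2 (by linarith)
      have : rat T c f = crd (T.a c) (T.b c) (T.a d) - 1 := by
        rw [rat, crd, e1, e2]
        field_simp
        ring
      rw [this, sub_re, one_re, hre1, sub_self]
  -- a tile which has both kinds of sides glued
  obtain ⟨t, f, hf, hcf, hdf, hg⟩ : ∃ t f, G.nbr f t ≠ t ∧ c ≠ f ∧ d ≠ f ∧
      (G.nbr c t ≠ t ∨ G.nbr d t ≠ t) := by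
    by_contra hne
    push Not at hne
    have huniv : {t | G.nbr c t ≠ t ∨ G.nbr d t ≠ t} = univ := by
      apply hG
      · obtain ⟨t, ht⟩ := hc
        exact ⟨t, Or.inl ht⟩
      · intro f t ht
        by_cases hft : G.nbr f t = t
        · rw [hft]; exact ht
        · by_cases hcf : c = f
          · subst hcf
            left; rw [G.invol]; exact fun hh => hft hh.symm
          · by_cases hdf : d = f
            · subst hdf
              right; rw [G.invol]; exact fun hh => hft hh.symm
            · have := hne t f hft hcf hdf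
              rcases ht with ht | ht
              · exact absurd this.1 ht
              · exact absurd this.2 ht
    obtain ⟨t, ht⟩ := he
    have h1 := hne t e ht hce hde
    have h2 : t ∈ {t | G.nbr c t ≠ t ∨ G.nbr d t ≠ t} := by rw [huniv]; trivial
    rcases h2 with h2 | h2
    · exact h2 h1.1
    · exact h2 h1.2
  have hre := hperp f ⟨t, hf⟩ hcf hdf
  rcases hg with hg | hg
  · exact h.no_right hP hf hg hcf hre
  · exact h.no_right hP hf hg hdf (by rw [hrd, neg_re, hre, neg_zero])

end IsUnfolding

end Pool.Agent.Helper58_Iso
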