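import Pool.Agent.Helper58_Iso.Master

namespace Pool.Agent.Helper58_Iso

open Complex Set Filter
open scoped ComplexConjugate Topology

/-- coordinate along and across the side -/
noncomputable def crd (a b z : ℂ) : ℂ := (z - a) / (b - a)

theorem crd_spec {a b : ℂ} (h : a ≠ b) (z : ℂ) : z = a + crd a b z * (b - a) := by
  have : b - a ≠ 0 := sub_ne_zero.2 h.symm
  rw [crd]; field_simp; ring

theorem height_eq {a b : ℂ} (h : a ≠ b) (z : ℂ) :
    height a b z = normSq (b - a) * (crd a b z).im := by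
  have h1 : z - a = crd a b z * (b - a) := by
    conv_lhs => rw [crd_spec h z]
    ring
  rw [height, h1, mul_assoc, mul_conj]
  simp [mul_im]
  ring

theorem normSq_pos' {a b : ℂ} (h : a ≠ b) : 0 < normSq (b - a) :=
  normSq_pos.2 (sub_ne_zero.2 h.symm)

theorem height_pos_iff {a b : ℂ} (h : a ≠ b) (z : ℂ) :
    0 < height a b z ↔ 0 < (crd a b z).im := by
  rw [height_eq h]
  exact ⟨fun h1 => (pos_iff_pos_of_mul_pos h1).1 (normSq_pos' h), fun h1 =>
    mul_pos (normSq_pos' h) h1⟩

theorem mirror_eq {a b : ℂ} (h : a ≠ b) (z : ℂ) :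
    mirror a b z = a + conj (crd a b z) * (b - a) := by
  have h0 : b - a ≠ 0 := sub_ne_zero.2 h.symm
  have h1 : conj (b - a) ≠ 0 := (map_ne_zero (starRingEnd ℂ)).2 h0
  rw [mirror, crd, map_div₀]
  field_simp

theorem crd_mirror {a b : ℂ} (h : a ≠ b) (z : ℂ) : crd a b (mirror a b z) = conj (crd a b z) := by
  have h0 : b - a ≠ 0 := sub_ne_zero.2 h.symm
  rw [mirror_eq h, crd, add_sub_cancel_left, mul_div_assoc, div_self h0, mul_one]

theorem mirror_mirror {a b : ℂ} (h : a ≠ b) (z : ℂ) : mirror a b (mirror a b z) = z := by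
  rw [mirror_eq h, crd_mirror h, conj_conj, ← crd_spec h]

theorem mirror_of_im_zero {a b : ℂ} (h : a ≠ b) {z : ℂ} (hz : (crd a b z).im = 0) :
    mirror a b z = z := by
  rw [mirror_eq h, conj_eq_iff_im.2 hz, ← crd_spec h]

theorem continuous_mirror (a b : ℂ) : Continuous (mirror a b) := by
  unfold mirror
  fun_prop

theorem continuous_height (a b : ℂ) : Continuous (height a b) := by
  unfold height
  fun_prop

theorem continuous_crd (a b : ℂ) : Continuous (crd a b) := by
  unfold crd
  fun_prop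

theorem mem_openSegment_iff {a b : ℂ} (h : a ≠ b) (z : ℂ) :
    z ∈ openSegment ℝ a b ↔ (crd a b z).im = 0 ∧ 0 < (crd a b z).re ∧ (crd a b z).re < 1 := by
  have h0 : b - a ≠ 0 := sub_ne_zero.2 h.symm
  rw [openSegment_eq_image']
  constructor
  · rintro ⟨s, ⟨h1, h2⟩, rfl⟩
    have : crd a b (a + s • (b - a)) = (s : ℂ) := by
      rw [crd, add_sub_cancel_left, real_smul, mul_div_assoc, div_self h0, mul_one]
    simp only [this]
    simp [h1, h2]
  · rintro ⟨h1, h2, h3⟩
    refine ⟨(crd a b z).re, ⟨h2, h3⟩, ?_⟩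
    have : ((crd a b z).re : ℂ) = crd a b z := by
      apply Complex.ext <;> simp [h1]
    simp only [real_smul]
    rw [this]
    exact (crd_spec h z).symm

theorem mem_segment_iff {a b : ℂ} (h : a ≠ b) (z : ℂ) :
    z ∈ segment ℝ a b ↔ (crd a b z).im = 0 ∧ 0 ≤ (crd a b z).re ∧ (crd a b z).re ≤ 1 := by
  have h0 : b - a ≠ 0 := sub_ne_zero.2 h.symm
  rw [segment_eq_image']
  constructor
  · rintro ⟨s, ⟨h1, h2⟩, rfl⟩
    have : crd a b (a + s • (b - a)) = (s : ℂ) := by
      rw [crd, add_sub_cancel_left, real_smul, mul_div_assoc, div_self h0, mul_one]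
    simp only [this]
    simp [h1, h2]
  · rintro ⟨h1, h2, h3⟩
    refine ⟨(crd a b z).re, ⟨h2, h3⟩, ?_⟩
    have : ((crd a b z).re : ℂ) = crd a b z := by
      apply Complex.ext <;> simp [h1]
    simp only [real_smul]
    rw [this]
    exact (crd_spec h z).symm

/-- the middle of a segment -/
noncomputable def midp (a b : ℂ) : ℂ := a + (1 / 2 : ℂ) * (b - a)

theorem crd_midp {a b : ℂ} (h : a ≠ b) : crd a b (midp a b) = 1 / 2 := by
  have h0 : b - a ≠ 0 := sub_ne_zero.2 h.symm
  rw [crd, midp, add_sub_cancel_left, mul_div_assoc, div_self h0, mul_one]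

theorem midp_mem {a b : ℂ} (h : a ≠ b) : midp a b ∈ openSegment ℝ a b := by
  rw [mem_openSegment_iff h, crd_midp h]
  norm_num

theorem add_mirror {a b : ℂ} (h : a ≠ b) (z : ℂ) :
    z + mirror a b z = 2 * a + (2 * (crd a b z).re : ℝ) * (b - a) := by
  rw [mirror_eq h]
  conv_lhs => rw [crd_spec h z]
  have : crd a b (a + crd a b z * (b - a)) = crd a b z := by rw [← crd_spec h]
  rw [this]
  have h2 : crd a b z + conj (crd a b z) = (2 * (crd a b z).re : ℝ) := add_conj _
  linear_combination (b - a) * h2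

theorem isom_form (φ : ℂ ≃ᵃⁱ[ℝ] ℂ) : ∃ α β : ℂ, ‖α‖ = 1 ∧
    ((∀ z, φ z = α * z + β) ∨ (∀ z, φ z = α * conj z + β)) := by
  obtain ⟨a, ha⟩ := linear_isometry_complex φ.linearIsometryEquiv
  have h1 : ∀ z, φ z = φ.linearIsometryEquiv z + φ 0 := by
    intro z
    have := φ.map_vadd 0 z
    simpa using this
  refine ⟨a, φ 0, Circle.norm_coe a, ?_⟩
  rcases ha with ha | ha
  · left; intro z; rw [h1, ha]; simp
  · right; intro z; rw [h1, ha]; simp

namespace Tile

variable {k : ℕ} (T : Tile k)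

theorem not_mem_of_side {c : Fin k} {z : ℂ} (hz : z ∈ openSegment ℝ (T.a c) (T.b c)) :
    z ∉ T.U := by
  intro hU
  have h1 := (T.side c z hz).self_of_nhds.1 hU
  rw [height_pos_iff (T.ne c), ((mem_openSegment_iff (T.ne c) z).1 hz).1] at h1
  exact lt_irrefl _ h1

theorem side_subset_closure (c : Fin k) :
    openSegment ℝ (T.a c) (T.b c) ⊆ closure T.U := by
  intro z hz
  have hab := T.ne c
  have h0 : T.b c - T.a c ≠ 0 := sub_ne_zero.2 hab.symm
  have hcont : Tendsto (fun ε : ℝ => z + (ε : ℂ) * I * (T.b c - T.a c)) (𝓝[>] 0) (𝓝 z) := by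
    have : Tendsto (fun ε : ℝ => z + (ε : ℂ) * I * (T.b c - T.a c)) (𝓝 0)
        (𝓝 (z + ((0 : ℝ) : ℂ) * I * (T.b c - T.a c))) := by
      apply Continuous.tendsto
      fun_prop
    simp only [ofReal_zero, zero_mul, add_zero] at this
    exact this.mono_left nhdsWithin_le_nhds
  have h1 := hcont.eventually (T.side c z hz)
  have h2 : ∀ᶠ ε : ℝ in 𝓝[>] 0, z + (ε : ℂ) * I * (T.b c - T.a c) ∈ T.U := by
    filter_upwards [h1, self_mem_nhdsWithin] with ε hε hpos
    rw [hε, height_pos_iff hab]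
    have : crd (T.a c) (T.b c) (z + (ε : ℂ) * I * (T.b c - T.a c)) =
        crd (T.a c) (T.b c) z + ε * I := by
      rw [crd, crd]; field_simp; ring
    rw [this]
    simp [((mem_openSegment_iff hab z).1 hz).1]
    exact hpos
  exact mem_closure_of_tendsto hcont h2

theorem segment_subset_closure (c : Fin k) : segment ℝ (T.a c) (T.b c) ⊆ closure T.U := by
  rw [← closure_openSegment]
  exact closure_minimal (T.side_subset_closure c) isClosed_closure

theorem a_mem_closure (c : Fin k) : T.a c ∈ closure T.U :=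
  T.segment_subset_closure c (left_mem_segment ℝ _ _)

theorem b_mem_closure (c : Fin k) : T.b c ∈ closure T.U :=
  T.segment_subset_closure c (right_mem_segment ℝ _ _)

/-- a corner: a limit point of the tile which is neither in the tile nor on an open side -/
structure Corner (q : ℂ) : Prop where
  cl : q ∈ closure T.U
  nU : q ∉ T.U
  nS : ∀ c, q ∉ openSegment ℝ (T.a c) (T.b c)

theorem segment_not_mem (c : Fin k) {q : ℂ} (hq : q ∈ segment ℝ (T.a c) (T.b c)) : q ∉ T.U := by
  intro hU
  rw [← closure_openSegment, mem_closure_iff] at hq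
  obtain ⟨y, hy, hy'⟩ := hq T.U T.isOpen hU
  exact T.not_mem_of_side hy' hy

theorem corner_a (c : Fin k) : T.Corner (T.a c) := by
  refine ⟨T.a_mem_closure c, T.segment_not_mem c (left_mem_segment ℝ _ _), fun d hd => ?_⟩
  by_cases hcd : c = d
  · subst hcd
    exact T.ne c (left_mem_openSegment_iff.1 hd)
  · exact Set.disjoint_left.1 (T.disj c d hcd) (left_mem_segment ℝ _ _) hd

theorem corner_b (c : Fin k) : T.Corner (T.b c) := by
  refine ⟨T.b_mem_closure c, T.segment_not_mem c (right_mem_segment ℝ _ _), fun d hd => ?_⟩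
  by_cases hcd : c = d
  · subst hcd
    exact T.ne c (right_mem_openSegment_iff.1 hd)
  · exact Set.disjoint_left.1 (T.disj c d hcd) (right_mem_segment ℝ _ _) hd

/-- near a point of an open side every point is in the tile, in the mirrored tile, or on the
side -/
theorem local_cover (c : Fin k) {z : ℂ} (hz : z ∈ openSegment ℝ (T.a c) (T.b c)) :
    ∀ᶠ w in 𝓝 z, w ∈ T.U ∨ mirror (T.a c) (T.b c) w ∈ T.U ∨
      w ∈ openSegment ℝ (T.a c) (T.b c) := by
  have hab := T.ne c
  obtain ⟨h1, h2, h3⟩ := (mem_openSegment_iff hab z).1 hz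
  have hm : Tendsto (mirror (T.a c) (T.b c)) (𝓝 z) (𝓝 z) := by
    have := (continuous_mirror (T.a c) (T.b c)).tendsto z
    rwa [mirror_of_im_zero hab h1] at this
  have hre : Tendsto (fun w => (crd (T.a c) (T.b c) w).re) (𝓝 z)
      (𝓝 (crd (T.a c) (T.b c) z).re) :=
    (continuous_re.comp (continuous_crd _ _)).tendsto z
  filter_upwards [T.side c z hz, hm.eventually (T.side c z hz), hre.eventually (eventually_gt_nhds h2),
    hre.eventually (eventually_lt_nhds h3)] with w hw1 hw2 hw3 hw4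
  rcases lt_trichotomy (crd (T.a c) (T.b c) w).im 0 with h | h | h
  · right; left
    rw [hw2, height_pos_iff hab, crd_mirror hab]
    simpa using h
  · right; right
    exact (mem_openSegment_iff hab w).2 ⟨h, hw3, hw4⟩
  · left
    rwa [hw1, height_pos_iff hab]

end Tile

end Pool.Agent.Helper58_Iso
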