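import Pool.Agent.Helper58_Iso.Par

namespace Pool.Agent.Helper58_Iso

open Complex Set Filter
open scoped ComplexConjugate Topology Real

variable {k : ℕ} {ι : Type} {T : Tile k} {G : Gluing k ι} {φ : ι → (ℂ ≃ᵃⁱ[ℝ] ℂ)}

/-- equally spaced rays inside a half plane -/
theorem arc (w : ℂ) (hw : w ≠ 0) (η : ℝ) (h0 : 0 ≤ η) (h1 : η < π) (m : ℕ)
    (h : ∀ j ≤ m, (w * exp ((j * η : ℝ) * I)).re ≤ 0) : m * η ≤ π := by
  have hpi := Real.pi_pos
  have hnorm : 0 < ‖w‖ := norm_pos_iff.2 hw
  have hcos : ∀ j ≤ m, Real.cos (arg w + j * η) ≤ 0 := by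
    intro j hj
    have h2 := h j hj
    have h3 : w * exp ((j * η : ℝ) * I) = (‖w‖ : ℂ) * exp (((arg w + j * η : ℝ) : ℂ) * I) := by
      conv_lhs => rw [← norm_mul_exp_arg_mul_I w]
      rw [mul_assoc, ← Complex.exp_add]
      push_cast
      ring_nf
    rw [h3, re_ofReal_mul, exp_ofReal_mul_I_re] at h2
    by_contra hh
    push Not at hh
    have := mul_pos hnorm hh
    linarith
  obtain ⟨ψ, hψ1, hψ2, hψ3⟩ : ∃ ψ : ℝ, π / 2 ≤ ψ ∧ ψ ≤ 3 * π / 2 ∧
      ∀ x, Real.cos (ψ + x) = Real.cos (arg w + x) := by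
    have hc := hcos 0 (Nat.zero_le _)
    simp only [Nat.cast_zero, zero_mul, add_zero] at hc
    have ha1 := neg_pi_lt_arg w
    have ha2 := arg_le_pi w
    rcases le_or_gt 0 (arg w) with hpos | hneg
    · refine ⟨arg w, ?_, by linarith, fun x => rfl⟩
      by_contra hh
      push Not at hh
      have := Real.cos_pos_of_mem_Ioo ⟨by linarith, hh⟩
      linarith
    · refine ⟨arg w + 2 * π, by linarith, ?_, fun x => ?_⟩
      · by_contra hh
        push Not at hh
        have := Real.cos_pos_of_mem_Ioo (x := arg w) ⟨by linarith, by linarith⟩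
        linarith
      · rw [show arg w + 2 * π + x = arg w + x + 2 * π by ring, Real.cos_add_two_pi]
  have key : ∀ j ≤ m, ψ + j * η ≤ 3 * π / 2 := by
    intro j
    induction j with
    | zero => intro _; simpa using hψ2
    | succ j ih =>
      intro hj
      have ih' := ih (by omega)
      by_contra hh
      push Not at hh
      have hc := hcos (j + 1) hj
      rw [← hψ3] at hc
      push_cast at hc hh
      have : 0 < Real.cos (ψ + ((j : ℝ) + 1) * η - 2 * π) := by
        apply Real.cos_pos_of_mem_Ioo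
        constructor
        · linarith
        · nlinarith
      rw [Real.cos_sub_two_pi] at this
      linarith
  have := key m le_rfl
  linarith

/-- side `g` emanates from the point `O` in direction `r` -/
structure Adj (T : Tile k) (O : ℂ) (g : Fin k) (r : ℂ) : Prop where
  ne : r ≠ 0
  cl : O + r ∈ closure T.U
  mir : ∀ z, mirror (T.a g) (T.b g) (O + z) = O + r / conj r * conj z

theorem adj_a (T : Tile k) (g : Fin k) : Adj T (T.a g) g (T.b g - T.a g) := by
  refine ⟨sub_ne_zero.2 (T.ne g).symm, ?_, fun z => ?_⟩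
  · rw [add_sub_cancel]; exact T.b_mem_closure g
  · rw [mirror]; congr 2; ring_nf

theorem adj_b (T : Tile k) (g : Fin k) : Adj T (T.b g) g (T.a g - T.b g) := by
  have hu : T.b g - T.a g ≠ 0 := sub_ne_zero.2 (T.ne g).symm
  have hu' : T.a g - T.b g ≠ 0 := sub_ne_zero.2 (T.ne g)
  have hcu : conj (T.b g - T.a g) ≠ 0 := (map_ne_zero (starRingEnd ℂ)).2 hu
  have hcu' : conj (T.a g - T.b g) ≠ 0 := (map_ne_zero (starRingEnd ℂ)).2 hu'
  refine ⟨hu', ?_, fun z => ?_⟩
  · rw [add_sub_cancel]; exact T.a_mem_closure g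
  · rw [mirror]
    have h1 : (T.a g - T.b g) / conj (T.a g - T.b g) =
        (T.b g - T.a g) / conj (T.b g - T.a g) := by
      rw [show T.a g - T.b g = -(T.b g - T.a g) by ring, map_neg, neg_div_neg_eq]
    rw [h1, show T.b g + z - T.a g = (T.b g - T.a g) + z by ring, map_add, mul_add,
      div_mul_cancel₀ _ hcu]
    ring

theorem psi_form (φ : ℂ ≃ᵃⁱ[ℝ] ℂ) (O : ℂ) : ∃ α : ℂ, α * conj α = 1 ∧
    ((∀ z, φ (O + z) - φ O = α * z) ∨ (∀ z, φ (O + z) - φ O = α * conj z)) := by
  obtain ⟨α, β, hα, h⟩ := isom_form φ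
  refine ⟨α, ?_, ?_⟩
  · rw [mul_conj, normSq_eq_norm_sq, hα]; norm_num
  · rcases h with h | h
    · left; intro z; rw [h, h]; ring
    · right; intro z; rw [h, h, map_add]; ring

theorem psi_sq {ψ : ℂ → ℂ} {α : ℂ} (hα : α * conj α = 1)
    (h : (∀ z, ψ z = α * z) ∨ (∀ z, ψ z = α * conj z)) (X Y : ℂ) :
    ψ (X ^ 2 * conj Y) = ψ X ^ 2 * conj (ψ Y) := by
  rcases h with h | h
  · rw [h, h, h, map_mul]
    linear_combination (-(α * X ^ 2 * conj Y)) * hα
  · rw [h, h, h, map_mul, map_mul, conj_conj, map_pow]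
    linear_combination (-(α * conj X ^ 2 * Y)) * hα

theorem psi_unit {ψ : ℂ → ℂ} {α : ℂ} (hα : α * conj α = 1)
    (h : (∀ z, ψ z = α * z) ∨ (∀ z, ψ z = α * conj z)) {X : ℂ} (hX : X * conj X = 1) :
    ψ X * conj (ψ X) = 1 := by
  rcases h with h | h
  · rw [h, map_mul]
    linear_combination (X * conj X) * hα + hX
  · rw [h, map_mul, conj_conj]
    linear_combination (X * conj X) * hα + hX

/-- unit vector -/
noncomputable def un (r : ℂ) : ℂ := ((‖r‖⁻¹ : ℝ) : ℂ) * r

theorem un_unit {r : ℂ} (hr : r ≠ 0) : un r * conj (un r) = 1 := by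
  have h1 : ‖r‖ ≠ 0 := norm_ne_zero_iff.2 hr
  have h2 : r * conj r = ((‖r‖ ^ 2 : ℝ) : ℂ) := by rw [mul_conj, normSq_eq_norm_sq]
  rw [un, map_mul, conj_ofReal]
  calc ((‖r‖⁻¹ : ℝ) : ℂ) * r * (((‖r‖⁻¹ : ℝ) : ℂ) * conj r)
      = ((‖r‖⁻¹ * ‖r‖⁻¹ : ℝ) : ℂ) * (r * conj r) := by push_cast; ring
    _ = 1 := by
      rw [h2, ← ofReal_mul]
      norm_cast
      field_simp

theorem un_sq {r : ℂ} (hr : r ≠ 0) : r / conj r = un r ^ 2 := by
  have h0 : conj r ≠ 0 := (map_ne_zero (starRingEnd ℂ)).2 hr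
  have h1 : ‖r‖ ≠ 0 := norm_ne_zero_iff.2 hr
  have h2 := un_unit hr
  have h3 : un r * conj r = (‖r‖ : ℂ) := by
    have h4 : r * conj r = ((‖r‖ ^ 2 : ℝ) : ℂ) := by rw [mul_conj, normSq_eq_norm_sq]
    rw [un, mul_assoc, h4, ← ofReal_mul]
    norm_cast
    field_simp
  have h5 : (‖r‖ : ℂ) ≠ 0 := by exact_mod_cast h1
  rw [div_eq_iff h0, pow_two, mul_assoc, h3, un]
  push_cast
  field_simp

theorem un_conj_arg {r s : ℂ} (hr : r ≠ 0) (hs : s ≠ 0) :
    arg (un r * conj (un s)) = arg (r / s) := by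
  have h1 : 0 < ‖r‖ := norm_pos_iff.2 hr
  have h2 : 0 < ‖s‖ := norm_pos_iff.2 hs
  have h3 : un r * conj (un s) = ((‖r‖⁻¹ * ‖s‖ : ℝ) : ℂ) * (r / s) := by
    have h4 := un_unit hs
    have h5 : (‖s‖ : ℂ) * un s = s := by
      rw [un, ← mul_assoc, ← ofReal_mul, mul_inv_cancel₀ h2.ne', ofReal_one, one_mul]
    have h6 : un s ≠ 0 := by
      intro hh; rw [hh, zero_mul] at h4; exact zero_ne_one h4
    have h7 : conj (un s) = (un s)⁻¹ := eq_inv_of_mul_eq_one_right h4
    have h8 : (‖s‖ : ℂ) ≠ 0 := by exact_mod_cast h2.ne'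
    have h9 : r / s = r / ((‖s‖ : ℂ) * un s) := by rw [h5]
    rw [h7, h9, un]
    push_cast
    field_simp
  rw [h3, arg_real_mul _ (by positivity)]

theorem psi_real {ψ : ℂ → ℂ} {α : ℂ}
    (h : (∀ z, ψ z = α * z) ∨ (∀ z, ψ z = α * conj z)) (a : ℝ) (z : ℂ) :
    ψ ((a : ℂ) * z) = (a : ℂ) * ψ z := by
  rcases h with h | h
  · rw [h, h]; ring
  · rw [h, h, map_mul, conj_ofReal]; ring

namespace IsUnfolding

variable (h : IsUnfolding T G φ)
include h

theorem rays {c d : Fin k} {O rc rd : ℂ}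
    (hc : Adj T O c rc) (hd : Adj T O d rd) (t : ι) (n : ℕ)
    (hn : ∀ i < n, G.alt c d t (i + 1) ≠ G.alt c d t i) :
    ∃ κ B : ℂ, κ * conj κ = 1 ∧ B * conj B = 1 ∧
      (κ = un rc * conj (un rd) ∨ κ = conj (un rc * conj (un rd))) ∧
      ∀ i ≤ n, φ (G.alt c d t i) O = φ t O ∧
        φ (G.alt c d t i) (O + (if i % 2 = 0 then un rc else un rd)) - φ (G.alt c d t i) O =
          κ ^ (i + 1) * B ∧
        φ (G.alt c d t i) (O + (if (i + 1) % 2 = 0 then un rc else un rd)) -
          φ (G.alt c d t i) O = κ ^ i * B := by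
  obtain ⟨α, hα, hψ⟩ := psi_form (φ t) O
  set ψ : ℂ → ℂ := fun z => φ t (O + z) - φ t O with hψdef
  have hψ' : (∀ z, ψ z = α * z) ∨ (∀ z, ψ z = α * conj z) := hψ
  have hX := psi_unit hα hψ' (un_unit hc.ne)
  have hY := psi_unit hα hψ' (un_unit hd.ne)
  refine ⟨ψ (un rc) * conj (ψ (un rd)), ψ (un rd), ?_, hY, ?_, ?_⟩
  · rw [map_mul, conj_conj]
    linear_combination (ψ (un rd) * conj (ψ (un rd))) * hX + hY
  · rcases hψ' with hh | hh
    · left
      rw [hh, hh, map_mul]
      linear_combination (un rc * conj (un rd)) * hα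
    · right
      rw [hh, hh, map_mul, map_mul, conj_conj]
      linear_combination (conj (un rc) * un rd) * hα
  · set κ := ψ (un rc) * conj (ψ (un rd)) with hκ
    set B := ψ (un rd) with hB
    have hκκ : κ * conj κ = 1 := by
      rw [hκ, map_mul, conj_conj]
      linear_combination (ψ (un rd) * conj (ψ (un rd))) * hX + hY
    intro i
    induction i with
    | zero =>
      intro _
      refine ⟨rfl, ?_, ?_⟩
      · change ψ (un rc) = _
        rw [hκ]
        linear_combination (-ψ (un rc)) * hY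
      · change ψ (un rd) = _
        rw [pow_zero, one_mul]
    | succ i ih =>
      intro hi
      obtain ⟨ih1, ih2, ih3⟩ := ih (by omega)
      have hne := hn i (by omega)
      -- the common description of the step
      obtain ⟨g, r, hg, hgr, hR⟩ : ∃ g r, G.alt c d t (i + 1) = G.nbr g (G.alt c d t i) ∧
          Adj T O g r ∧ (if i % 2 = 0 then un rc else un rd) = un r := by
        rcases Nat.mod_two_eq_zero_or_one i with hp | hp
        · exact ⟨c, rc, Gluing.alt_succ_even _ _ _ _ _ hp, hc, by simp [hp]⟩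
        · exact ⟨d, rd, Gluing.alt_succ_odd _ _ _ _ _ hp, hd, by simp [hp]⟩
      have hgne : G.nbr g (G.alt c d t i) ≠ G.alt c d t i := by rw [← hg]; exact hne
      have hstep : ∀ z, φ (G.alt c d t (i + 1)) (O + z) =
          φ (G.alt c d t i) (O + un r ^ 2 * conj z) := by
        intro z
        rw [hg, h.glue g _ hgne, hgr.mir, un_sq hgr.ne]
      have hstepO : φ (G.alt c d t (i + 1)) O = φ (G.alt c d t i) O := by
        have := hstep 0
        simpa using this
      obtain ⟨β, hβ, hχ⟩ := psi_form (φ (G.alt c d t i)) O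
      set χ : ℂ → ℂ := fun z => φ (G.alt c d t i) (O + z) - φ (G.alt c d t i) O with hχdef
      have hχ' : (∀ z, χ z = β * z) ∨ (∀ z, χ z = β * conj z) := hχ
      have hpar : (i + 1 + 1) % 2 = i % 2 := by omega
      rw [hR] at ih2
      refine ⟨by rw [hstepO, ih1], ?_, ?_⟩
      · rw [hstepO, hstep]
        change χ (un r ^ 2 * conj _) = _
        rw [psi_sq hβ hχ']
        have e1 : χ (un r) = κ ^ (i + 1) * B := ih2
        have e2 : χ (if (i + 1) % 2 = 0 then un rc else un rd) = κ ^ i * B := ih3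
        rw [e1, e2, map_mul, map_pow]
        have h3 : κ ^ i * conj κ ^ i = 1 := by rw [← mul_pow, hκκ, one_pow]
        linear_combination (κ ^ (i + 2) * B * (B * conj B)) * h3 + (κ ^ (i + 2) * B) * hY
      · rw [hpar, hR, hstepO, hstep]
        have h3 : un r ^ 2 * conj (un r) = un r := by
          linear_combination un r * un_unit hgr.ne
        rw [h3]
        exact ih2

theorem ab (hP : Convex ℝ (domain T G φ)) {c d : Fin k} {O rc rd : ℂ} (hO : T.Corner O)
    (hc : Adj T O c rc) (hd : Adj T O d rd) (hnr : (rc / rd).im ≠ 0) :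
    G.AB c d (InnerProductGeometry.angle rc rd) := by
  intro t n hn
  obtain ⟨κ, B, hκ, hB, hκe, hr⟩ := h.rays hc hd t n hn
  obtain ⟨F, hF⟩ := geometric_hahn_banach_open_point hP h.isOpen_domain
    (h.corner_not_mem hO t)
  have hcl : ∀ x ∈ closure (domain T G φ), F x ≤ F (φ t O) := by
    intro x hx
    have : IsClosed {x | F x ≤ F (φ t O)} := isClosed_le F.continuous continuous_const
    exact (closure_minimal (fun y hy => (hF y hy).le) this) hx
  have hray : ∀ i ≤ n, ∀ g r, Adj T O g r →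
      F (φ (G.alt c d t i) (O + un r) - φ (G.alt c d t i) O) ≤ 0 := by
    intro i hi g r hg
    have h1 := hcl _ (closure_mem (G := G) (φ := φ) (t := G.alt c d t i) hg.cl)
    obtain ⟨β, hβ, hχ⟩ := psi_form (φ (G.alt c d t i)) O
    have h2 := psi_real (ψ := fun z => φ (G.alt c d t i) (O + z) - φ (G.alt c d t i) O) hχ
      (‖r‖⁻¹) r
    rw [un, h2, dual_mul, map_sub, (hr i hi).1]
    have : 0 ≤ ‖r‖⁻¹ := by positivity
    exact mul_nonpos_of_nonneg_of_nonpos this (by linarith)
  have hpow : ∀ j ≤ n + 1, F (κ ^ j * B) ≤ 0 := by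
    intro j hj
    rcases Nat.eq_zero_or_pos j with h0 | h0
    · subst h0
      rw [← (hr 0 (by omega)).2.2]
      exact hray 0 (by omega) d rd hd
    · obtain ⟨i, rfl⟩ : ∃ i, j = i + 1 := ⟨j - 1, by omega⟩
      rw [← (hr i (by omega)).2.1]
      split_ifs
      · exact hray i (by omega) c rc hc
      · exact hray i (by omega) d rd hd
  set w : ℂ := ⟨F B, -F (I * B)⟩ with hw
  have hFw : ∀ z, F (z * B) = (w * z).re := by
    intro z
    have : z * B = ((z.re : ℝ) : ℂ) * B + ((z.im : ℝ) : ℂ) * (I * B) := by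
      conv_lhs => rw [← re_add_im z]
      ring
    rw [this, map_add, dual_mul, dual_mul, mul_re, hw]
    ring
  have hw0 : w ≠ 0 := by
    intro h0
    have hz : ∀ z, F z = 0 := by
      intro z
      have : z = (z * conj B) * B := by linear_combination (-z) * hB
      rw [this, hFw, h0, zero_mul, zero_re]
    obtain ⟨x, hx⟩ := T.isConnected.nonempty
    have := hF _ (tile_mem (G := G) (φ := φ) (t := t) hx)
    rw [hz, hz] at this
    exact lt_irrefl _ this
  have hκnorm : ‖κ‖ = 1 := by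
    have h1 : (normSq κ : ℂ) = 1 := by rw [← mul_conj]; exact hκ
    have h2 : normSq κ = 1 := by exact_mod_cast h1
    rw [normSq_eq_norm_sq] at h2
    nlinarith [norm_nonneg κ]
  have hκexp : ∀ j : ℕ, κ ^ j = exp ((j * arg κ : ℝ) * I) := by
    intro j
    conv_lhs => rw [← norm_mul_exp_arg_mul_I κ, hκnorm, ofReal_one, one_mul]
    rw [← Complex.exp_nat_mul]
    push_cast
    ring_nf
  have harg : arg (rc / rd) ≠ π := by
    intro hh
    exact hnr (arg_eq_pi_iff.1 hh).2
  have habs : |arg κ| = InnerProductGeometry.angle rc rd := by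
    rw [Complex.angle_eq_abs_arg hc.ne hd.ne]
    rcases hκe with h1 | h1
    · rw [h1, un_conj_arg hc.ne hd.ne]
    · rw [h1, arg_conj, un_conj_arg hc.ne hd.ne, if_neg harg, abs_neg]
  have hlt : |arg κ| < π := by
    rw [habs, Complex.angle_eq_abs_arg hc.ne hd.ne]
    exact lt_of_le_of_ne (abs_arg_le_pi _) (fun hh => by
      rcases abs_choice (arg (rc / rd)) with h1 | h1
      · rw [h1] at hh; exact harg hh
      · rw [h1] at hh
        have := neg_pi_lt_arg (rc / rd)
        linarith)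
  rw [← habs]
  rcases le_or_gt 0 (arg κ) with hpos | hneg
  · rw [abs_of_nonneg hpos] at hlt ⊢
    have := arc w hw0 (arg κ) hpos hlt (n + 1) (fun j hj => by
      have h1 := hpow j hj
      rwa [hFw, hκexp] at h1)
    push_cast at this
    exact this
  · rw [abs_of_neg hneg] at hlt ⊢
    have := arc (conj w) ((map_ne_zero (starRingEnd ℂ)).2 hw0) (-arg κ) (by linarith) hlt (n + 1)
      (fun j hj => by
        have h1 := hpow j hj
        rw [hFw, hκexp] at h1
        have h2 : conj w * exp ((j * (-arg κ) : ℝ) * I) = conj (w * exp ((j * arg κ : ℝ) * I)) := by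
          rw [map_mul, ← exp_conj, map_mul, conj_I, conj_ofReal]
          push_cast
          ring_nf
        rw [h2, conj_re]
        exact h1)
    push_cast at this
    exact this

end IsUnfolding

end Pool.Agent.Helper58_Iso
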