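import Pool.Agent.Helper58_Iso.Lin

namespace Pool.Agent.Helper58_Iso

open Function

section perm

variable {α β : Type}

theorem exists_pow_lt (f : Equiv.Perm α) (t u : α) (n : ℕ) (hn : 0 < n) (h : (f ^ n) t = t)
    (J : ℤ) (hJ : (f ^ J) t = u) : ∃ i < n, (f ^ i) t = u := by
  have hn' : (0 : ℤ) < n := by exact_mod_cast hn
  have h1 := Int.emod_nonneg J hn'.ne'
  have h2 := Int.emod_lt_of_pos J hn'
  refine ⟨(J % n).toNat, by omega, ?_⟩
  rw [← hJ, ← zpow_natCast, Int.toNat_of_nonneg h1]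
  conv_rhs => rw [← Int.emod_add_mul_ediv J n, zpow_add, zpow_mul, zpow_natCast]
  rw [Equiv.Perm.mul_apply, Equiv.Perm.zpow_apply_eq_self_of_apply_eq_self h]

theorem pow_fix_of_sameCycle {f : Equiv.Perm α} {x y : α} (h : f.SameCycle x y) {n : ℕ}
    (hx : (f ^ n) x = x) : (f ^ n) y = y := by
  obtain ⟨i, rfl⟩ := h
  rw [← Equiv.Perm.mul_apply, ← zpow_natCast, ← zpow_add, add_comm, zpow_add,
    Equiv.Perm.mul_apply, zpow_natCast, hx]

theorem inv_zpow_fun {γ : Type} (f : Equiv.Perm α) (v : α → γ) (hv : ∀ u, v (f u) = v u)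
    (j : ℤ) (u : α) : v ((f ^ j) u) = v u := by
  induction j using Int.induction_on with
  | zero => simp
  | succ i ih => rw [add_comm, zpow_add, zpow_one, Equiv.Perm.mul_apply, hv, ih]
  | pred i ih =>
    rw [← ih, ← hv ((f ^ (-(i : ℤ) - 1)) u), ← Equiv.Perm.mul_apply, ← zpow_one_add]
    congr 3
    ring

theorem minimalPeriod_pos_perm [Finite α] (f : Equiv.Perm α) (t : α) :
    0 < minimalPeriod f t :=
  minimalPeriod_pos_of_mem_periodicPts (f.injective.mem_periodicPts t)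

theorem card_fix_eq_sum [Fintype α] [DecidableEq α] (f : α → α) (n : ℕ) (hn : 0 < n) :
    (Finset.univ.filter (fun t => f^[n] t = t)).card =
      ∑ d ∈ n.divisors, (Finset.univ.filter (fun t => minimalPeriod f t = d)).card := by
  rw [Finset.card_eq_sum_card_fiberwise (f := fun t => minimalPeriod f t) (t := n.divisors)]
  · apply Finset.sum_congr rfl
    intro d hd
    congr 1
    ext t
    simp only [Finset.mem_filter, Finset.mem_univ, true_and, and_iff_right_iff_imp]
    intro h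
    have h1 : d ∣ n := Nat.dvd_of_mem_divisors hd
    have h2 : IsPeriodicPt f n t := by
      rw [← h] at h1
      exact isPeriodicPt_iff_minimalPeriod_dvd.2 h1
    exact h2
  · intro t ht
    simp only [Finset.coe_filter, Finset.mem_univ, true_and, Set.mem_ofPred_eq] at ht
    simp only [Finset.mem_coe, Nat.mem_divisors]
    exact ⟨IsPeriodicPt.minimalPeriod_dvd ht, hn.ne'⟩

theorem card_minimalPeriod_eq [Fintype α] [DecidableEq α] [Fintype β] [DecidableEq β]
    (f : α → α) (g : β → β)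
    (h : ∀ n, (Finset.univ.filter (fun t => f^[n] t = t)).card =
      (Finset.univ.filter (fun t => g^[n] t = t)).card) (n : ℕ) (hn : 0 < n) :
    (Finset.univ.filter (fun t => minimalPeriod f t = n)).card =
      (Finset.univ.filter (fun t => minimalPeriod g t = n)).card := by
  induction n using Nat.strong_induction_on with
  | _ n ih =>
    have h1 := card_fix_eq_sum f n hn
    have h2 := card_fix_eq_sum g n hn
    rw [h n, h2] at h1
    rw [← Nat.insert_self_properDivisors hn.ne', Finset.sum_insert (by simp),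
      Finset.sum_insert (by simp)] at h1
    have h3 : ∑ d ∈ n.properDivisors, (Finset.univ.filter (fun t => minimalPeriod f t = d)).card =
        ∑ d ∈ n.properDivisors, (Finset.univ.filter (fun t => minimalPeriod g t = d)).card := by
      apply Finset.sum_congr rfl
      intro d hd
      rw [Nat.mem_properDivisors] at hd
      exact ih d hd.2 (Nat.pos_of_dvd_of_pos hd.1 hn)
    omega

end perm

namespace Gluing

variable {k : ℕ} {ι ι' : Type}

/-- the involution of colour `c` as a permutation -/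
def r (G : Gluing k ι) (c : Fin k) : Equiv.Perm ι :=
  ⟨G.nbr c, G.nbr c, G.invol c, G.invol c⟩

/-- the product of two of the involutions -/
def Z (G : Gluing k ι) (c d : Fin k) : Equiv.Perm ι := G.r d * G.r c

theorem Z_apply (G : Gluing k ι) (c d : Fin k) (t : ι) : G.Z c d t = G.nbr d (G.nbr c t) := rfl

theorem Z_inv (G : Gluing k ι) (c d : Fin k) : (G.Z c d)⁻¹ = G.Z d c := by
  rw [inv_eq_iff_mul_eq_one]
  ext t
  simp [Z, r, G.invol]

/-- alternating walk -/
def alt (G : Gluing k ι) (c d : Fin k) (t : ι) : ℕ → ι :=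
  G.walk (fun i => if i % 2 = 0 then c else d) t

theorem alt_zero (G : Gluing k ι) (c d : Fin k) (t : ι) : G.alt c d t 0 = t := rfl

theorem alt_succ_even (G : Gluing k ι) (c d : Fin k) (t : ι) (i : ℕ) (hi : i % 2 = 0) :
    G.alt c d t (i + 1) = G.nbr c (G.alt c d t i) := by
  simp [alt, walk, hi]

theorem alt_succ_odd (G : Gluing k ι) (c d : Fin k) (t : ι) (i : ℕ) (hi : i % 2 = 1) :
    G.alt c d t (i + 1) = G.nbr d (G.alt c d t i) := by
  simp [alt, walk, hi]

theorem alt_two_mul (G : Gluing k ι) (c d : Fin k) (t : ι) (j : ℕ) :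
    G.alt c d t (2 * j) = ((G.Z c d) ^ j) t := by
  induction j with
  | zero => rfl
  | succ j ih =>
    rw [show 2 * (j + 1) = (2 * j + 1) + 1 by ring, alt_succ_odd _ _ _ _ _ (by omega),
      alt_succ_even _ _ _ _ _ (by omega), ih, pow_succ', Equiv.Perm.mul_apply, Z_apply]

/-- every alternating walk starting with colour `c` is blocked within the first `m` steps -/
def WB (G : Gluing k ι) (c d : Fin k) (m : ℕ) : Prop :=
  ∀ t, ∃ b < m, G.alt c d t (b + 1) = G.alt c d t b

theorem WB.mono {G : Gluing k ι} {c d : Fin k} {m n : ℕ} (h : G.WB c d m) (hmn : m ≤ n) :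
    G.WB c d n := fun t => by
  obtain ⟨b, hb, h1⟩ := h t
  exact ⟨b, by omega, h1⟩

theorem alt_reflect (G : Gluing k ι) (c d : Fin k) (t : ι) (b : ℕ)
    (h : G.alt c d t (b + 1) = G.alt c d t b) (i : ℕ) (hi : i ≤ b) :
    G.alt c d t (b + 1 + i) = G.alt c d t (b - i) := by
  induction i with
  | zero => simpa using h
  | succ i ih =>
    obtain ⟨j, hj⟩ : ∃ j, b - i = j + 1 := ⟨b - i - 1, by omega⟩
    have hj' : b - (i + 1) = j := by omega
    have ih' := ih (by omega)
    rw [hj] at ih'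
    rw [hj', ← add_assoc]
    rcases Nat.mod_two_eq_zero_or_one j with hp | hp
    · rw [alt_succ_even _ _ _ _ _ (by omega), ih', alt_succ_even _ _ _ _ _ hp, G.invol]
    · rw [alt_succ_odd _ _ _ _ _ (by omega), ih', alt_succ_odd _ _ _ _ _ hp, G.invol]

theorem alt_reflect' (G : Gluing k ι) (c d : Fin k) (t : ι) (j : ℕ)
    (h : G.alt c d t (2 * j + 1) = t) (i : ℕ) (hi : i ≤ 2 * j + 1) :
    G.alt c d t (2 * j + 1 - i) = G.alt c d t i := by
  induction i with
  | zero => simpa [alt_zero] using h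
  | succ i ih =>
    obtain ⟨l, hl⟩ : ∃ l, 2 * j + 1 - i = l + 1 := ⟨2 * j - i, by omega⟩
    have hl' : 2 * j + 1 - (i + 1) = l := by omega
    have ih' := ih (by omega)
    rw [hl] at ih'
    rw [hl']
    rcases Nat.mod_two_eq_zero_or_one i with hp | hp
    · rw [alt_succ_even _ _ _ _ _ (by omega)] at ih'
      rw [alt_succ_even _ _ _ _ _ hp, ← ih', G.invol]
    · rw [alt_succ_odd _ _ _ _ _ (by omega)] at ih'
      rw [alt_succ_odd _ _ _ _ _ hp, ← ih', G.invol]

theorem pow_of_blocked (G : Gluing k ι) (c d : Fin k) (t : ι) (b : ℕ)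
    (h : G.alt c d t (b + 1) = G.alt c d t b) : ((G.Z c d) ^ b) t = G.nbr c t := by
  have h1 := alt_reflect G c d t b h b le_rfl
  rw [show b + 1 + b = 2 * b + 1 by ring, Nat.sub_self, alt_zero,
    alt_succ_even _ _ _ _ _ (by omega), alt_two_mul] at h1
  rw [← G.invol c (((G.Z c d) ^ b) t), h1]

theorem blocked_of_pow (G : Gluing k ι) (c d : Fin k) (t : ι) (b : ℕ)
    (h : ((G.Z c d) ^ b) t = G.nbr c t) : G.alt c d t (b + 1) = G.alt c d t b := by
  have h1 : G.alt c d t (2 * b + 1) = t := by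
    rw [alt_succ_even _ _ _ _ _ (by omega), alt_two_mul, h, G.invol]
  have h2 := alt_reflect' G c d t b h1 b (by omega)
  rwa [show 2 * b + 1 - b = b + 1 by omega] at h2

theorem wb_iff (G : Gluing k ι) (c d : Fin k) (m : ℕ) :
    G.WB c d m ↔ ∀ t, ∃ j < m, ((G.Z c d) ^ j) t = G.nbr c t := by
  constructor
  · intro h t
    obtain ⟨b, hb, h1⟩ := h t
    exact ⟨b, hb, pow_of_blocked G c d t b h1⟩
  · intro h t
    obtain ⟨b, hb, h1⟩ := h t
    exact ⟨b, hb, blocked_of_pow G c d t b h1⟩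

def QQ (G : Gluing k ι) (c d : Fin k) : Prop := ∀ t, (G.Z c d).SameCycle t (G.nbr c t)

def PP (G : Gluing k ι) (c d : Fin k) (m : ℕ) : Prop := ∀ t, minimalPeriod (G.Z c d) t ≤ m

theorem qq_pp_of_wb (G : Gluing k ι) (c d : Fin k) (m : ℕ) (h1 : G.WB c d m)
    (h2 : G.WB d c m) : G.QQ c d ∧ G.PP c d m := by
  have hQ : G.QQ c d := by
    intro t
    obtain ⟨j, _, hj⟩ := (wb_iff G c d m).1 h1 t
    exact ⟨j, by rw [zpow_natCast]; exact hj⟩
  refine ⟨hQ, fun t => ?_⟩
  obtain ⟨b, hb, h3⟩ := h1 t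
  have hE : (G.Z c d).SameCycle t (G.alt c d t b) := by
    rcases Nat.even_or_odd' b with ⟨j, rfl | rfl⟩
    · rw [alt_two_mul]
      exact ⟨j, by rw [zpow_natCast]⟩
    · rw [alt_succ_even _ _ _ _ _ (by omega), alt_two_mul]
      refine Equiv.Perm.SameCycle.trans ⟨j, by rw [zpow_natCast]⟩ (hQ _)
  have key : ∀ E : ι, (G.nbr c E = E ∨ G.nbr d E = E) → ∃ n, 0 < n ∧ n ≤ m ∧
      ((G.Z c d) ^ n) E = E := by
    rintro E (hc | hd)
    · obtain ⟨i, hi, h4⟩ := (wb_iff G d c m).1 h2 E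
      rw [← Z_inv, inv_pow, Equiv.Perm.inv_eq_iff_eq] at h4
      refine ⟨i + 1, by omega, by omega, ?_⟩
      rw [pow_succ, Equiv.Perm.mul_apply, Z_apply, hc]
      exact h4.symm
    · obtain ⟨i, hi, h4⟩ := (wb_iff G c d m).1 h1 E
      refine ⟨i + 1, by omega, by omega, ?_⟩
      rw [pow_succ', Equiv.Perm.mul_apply, h4, Z_apply, G.invol, hd]
  have hfix : G.nbr c (G.alt c d t b) = G.alt c d t b ∨ G.nbr d (G.alt c d t b) = G.alt c d t b := by
    rcases Nat.mod_two_eq_zero_or_one b with hp | hp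
    · left; rwa [← alt_succ_even _ _ _ _ _ hp]
    · right; rwa [← alt_succ_odd _ _ _ _ _ hp]
  obtain ⟨n, hn0, hnm, hn⟩ := key _ hfix
  have := pow_fix_of_sameCycle hE.symm hn
  refine le_trans ?_ hnm
  apply IsPeriodicPt.minimalPeriod_le hn0
  rw [IsPeriodicPt, IsFixedPt, ← Equiv.Perm.coe_pow]
  exact this

theorem wb_of_qq_pp [Finite ι] (G : Gluing k ι) (c d : Fin k) (m : ℕ) (hQ : G.QQ c d)
    (hP : G.PP c d m) : G.WB c d m ∧ G.WB d c m := by
  have hper : ∀ t, ((G.Z c d) ^ (minimalPeriod (G.Z c d) t)) t = t := by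
    intro t
    rw [Equiv.Perm.coe_pow]
    exact iterate_minimalPeriod
  constructor
  · rw [wb_iff]
    intro t
    obtain ⟨J, hJ⟩ := hQ t
    obtain ⟨i, hi, h⟩ := exists_pow_lt (G.Z c d) t (G.nbr c t) _ (minimalPeriod_pos_perm _ t)
      (hper t) J hJ
    exact ⟨i, lt_of_lt_of_le hi (hP t), h⟩
  · rw [wb_iff]
    intro t
    obtain ⟨J, hJ⟩ := hQ t
    have h1 : ((G.Z d c) ^ (minimalPeriod (G.Z c d) t)) t = t := by
      rw [← Z_inv, inv_pow, Equiv.Perm.inv_eq_iff_eq]
      exact (hper t).symm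
    have h2 : ((G.Z d c) ^ (-(J + 1))) t = G.nbr d t := by
      rw [← Z_inv, inv_zpow', neg_neg, zpow_add_one]
      have : (G.Z c d) ((G.Z c d ^ J) t) = G.nbr d t := by
        rw [hJ, Z_apply, G.invol]
      rw [← this, ← Equiv.Perm.mul_apply, (Commute.self_zpow (G.Z c d) J).eq]
    obtain ⟨i, hi, h⟩ := exists_pow_lt (G.Z d c) t (G.nbr d t) _ (minimalPeriod_pos_perm _ t)
      h1 _ h2
    exact ⟨i, lt_of_lt_of_le hi (hP t), h⟩

/-- The invariants used in the reconstruction. -/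
structure Sim (G : Gluing k ι) (G' : Gluing k ι') : Prop where
  card : Nat.card ι = Nat.card ι'
  fix : ∀ c, Nat.card {t // G.nbr c t = t} = Nat.card {t // G'.nbr c t = t}
  per : ∀ c d n, (∃ t, minimalPeriod (G.Z c d) t = n) ↔ ∃ t, minimalPeriod (G'.Z c d) t = n
  qq : ∀ c d, G.QQ c d ↔ G'.QQ c d
  conn : G.Conn ↔ G'.Conn

theorem Sim.symm {G : Gluing k ι} {G' : Gluing k ι'} (h : Sim G G') : Sim G' G :=
  ⟨h.card.symm, fun c => (h.fix c).symm, fun c d n => (h.per c d n).symm,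
    fun c d => (h.qq c d).symm, h.conn.symm⟩

theorem Sim.wb [Finite ι] [Finite ι'] {G : Gluing k ι} {G' : Gluing k ι'} (h : Sim G G')
    {c d : Fin k} {m : ℕ} (h1 : G.WB c d m) (h2 : G.WB d c m) : G'.WB c d m ∧ G'.WB d c m := by
  obtain ⟨hQ, hP⟩ := qq_pp_of_wb G c d m h1 h2
  apply wb_of_qq_pp _ _ _ _ ((h.qq c d).1 hQ)
  intro t
  by_contra hlt
  obtain ⟨s, hs⟩ := (h.per c d (minimalPeriod (G'.Z c d) t)).2 ⟨t, rfl⟩
  have := hP s
  omega

theorem Sim.unused [Finite ι] [Finite ι'] {G : Gluing k ι} {G' : Gluing k ι'} (h : Sim G G')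
    {c : Fin k} (h1 : ∀ t, G.nbr c t = t) : ∀ t, G'.nbr c t = t := by
  have h2 : Nat.card {t // G.nbr c t = t} = Nat.card ι := by
    apply Nat.card_congr
    exact Equiv.subtypeUnivEquiv h1
  rw [h.fix c, h.card] at h2
  intro t
  by_contra ht
  have : Nat.card {t // G'.nbr c t = t} < Nat.card ι' :=
    Finite.card_subtype_lt (p := fun t => G'.nbr c t = t) ht
  omega

theorem Sim.exists_fix [Finite ι] [Finite ι'] {G : Gluing k ι} {G' : Gluing k ι'}
    (h : Sim G G') {c : Fin k} (h1 : ∃ t, G.nbr c t = t) : ∃ t, G'.nbr c t = t := by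
  obtain ⟨t, ht⟩ := h1
  have : 0 < Nat.card {t // G.nbr c t = t} := by
    have : Nonempty {t // G.nbr c t = t} := ⟨⟨t, ht⟩⟩
    exact Finite.card_pos
  rw [h.fix c] at this
  have := (Nat.card_pos_iff.1 this).1
  obtain ⟨s, hs⟩ := this
  exact ⟨s, hs⟩

end Gluing

end Pool.Agent.Helper58_Iso
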