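import Pool.Agent.Helper58_Iso.Unfold

namespace Pool.Agent.Helper58_Iso

open Complex Set Filter
open scoped ComplexConjugate Topology

variable {k : ℕ} {ι : Type} {T : Tile k} {G : Gluing k ι} {φ : ι → (ℂ ≃ᵃⁱ[ℝ] ℂ)}

theorem dual_mul (f : StrongDual ℝ ℂ) (r : ℝ) (z : ℂ) : f ((r : ℂ) * z) = r * f z := by
  rw [← real_smul, map_smul, smul_eq_mul]

/-- the tile lies over its side `c` -/
def Tile.Good (T : Tile k) (c : Fin k) : Prop :=
  ∀ x ∈ T.U, 0 < (crd (T.a c) (T.b c) x).re ∧ (crd (T.a c) (T.b c) x).re < 1 ∧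
    0 < (crd (T.a c) (T.b c) x).im

theorem Tile.Good.closure {c : Fin k} (h : T.Good c) {x : ℂ} (hx : x ∈ closure T.U) :
    0 ≤ (crd (T.a c) (T.b c) x).re ∧ (crd (T.a c) (T.b c) x).re ≤ 1 ∧
    0 ≤ (crd (T.a c) (T.b c) x).im := by
  have hc := continuous_crd (T.a c) (T.b c)
  refine ⟨?_, ?_, ?_⟩
  · have : IsClosed {x | 0 ≤ (crd (T.a c) (T.b c) x).re} :=
      isClosed_le continuous_const (continuous_re.comp hc)
    exact (closure_minimal (fun y hy => (h y hy).1.le) this) hx
  · have : IsClosed {x | (crd (T.a c) (T.b c) x).re ≤ 1} :=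
      isClosed_le (continuous_re.comp hc) continuous_const
    exact (closure_minimal (fun y hy => (h y hy).2.1.le) this) hx
  · have : IsClosed {x | 0 ≤ (crd (T.a c) (T.b c) x).im} :=
      isClosed_le continuous_const (continuous_im.comp hc)
    exact (closure_minimal (fun y hy => (h y hy).2.2.le) this) hx

theorem Tile.exists_pos (T : Tile k) (c : Fin k) :
    ∃ w ∈ T.U, 0 < (crd (T.a c) (T.b c) w).im := by
  have h1 := T.side_subset_closure c (midp_mem (T.ne c))
  rw [mem_closure_iff_frequently] at h1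
  obtain ⟨w, hw1, hw2⟩ := (h1.and_eventually (T.side c _ (midp_mem (T.ne c)))).exists
  exact ⟨w, hw1, (height_pos_iff (T.ne c) w).1 (hw2.1 hw1)⟩

namespace IsUnfolding

variable (h : IsUnfolding T G φ)
include h

theorem sep (hP : Convex ℝ (domain T G φ)) (t : ι) {q : ℂ} (hq : T.Corner q) :
    ∃ f : StrongDual ℝ ℂ, ∀ x, φ t x ∈ domain T G φ → f x < f q := by
  have h1 : Convex ℝ (φ t ⁻¹' domain T G φ) :=
    hP.affine_preimage ((φ t).toAffineEquiv : ℂ →ᵃ[ℝ] ℂ)
  have h2 : IsOpen (φ t ⁻¹' domain T G φ) := h.isOpen_domain.preimage (φ t).continuous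
  obtain ⟨f, hf⟩ := geometric_hahn_banach_open_point h1 h2 (x := q) (h.corner_not_mem hq t)
  exact ⟨f, fun x hx => hf x hx⟩

theorem strip (hP : Convex ℝ (domain T G φ)) {t : ι} {c : Fin k} (hc : G.nbr c t ≠ t)
    {x : ℂ} (hx : φ t x ∈ domain T G φ)
    (hx' : φ t (mirror (T.a c) (T.b c) x) ∈ domain T G φ) :
    0 < (crd (T.a c) (T.b c) x).re ∧ (crd (T.a c) (T.b c) x).re < 1 := by
  have hab := T.ne c
  have hm : φ t (midp (T.a c) (T.b c)) ∈ domain T G φ := side_mem hc (midp_mem hab)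
  have hadd := add_mirror hab x
  have hmid : midp (T.a c) (T.b c) = T.a c + ((1 / 2 : ℝ) : ℂ) * (T.b c - T.a c) := by
    rw [midp]; push_cast; ring
  constructor
  · obtain ⟨f, hf⟩ := h.sep hP t (T.corner_a c)
    have h1 := hf _ hm
    have h2 := hf _ hx
    have h3 := hf _ hx'
    have h4 := congrArg f hadd
    rw [map_add, map_add, dual_mul, show (2 : ℂ) = ((2 : ℝ) : ℂ) by norm_num, dual_mul] at h4
    rw [hmid, map_add, dual_mul] at h1
    by_contra hneg
    push Not at hneg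
    nlinarith
  · obtain ⟨f, hf⟩ := h.sep hP t (T.corner_b c)
    have h1 := hf _ hm
    have h2 := hf _ hx
    have h3 := hf _ hx'
    have h4 := congrArg f hadd
    have h5 : f (T.b c) = f (T.a c) + f (T.b c - T.a c) := by rw [← map_add]; congr 1; ring
    rw [map_add, map_add, dual_mul, show (2 : ℂ) = ((2 : ℝ) : ℂ) by norm_num, dual_mul] at h4
    rw [hmid, map_add, dual_mul] at h1
    by_contra hneg
    push Not at hneg
    nlinarith

theorem good (hP : Convex ℝ (domain T G φ)) {t : ι} {c : Fin k} (hc : G.nbr c t ≠ t) :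
    T.Good c := by
  have hstrip : ∀ x ∈ T.U, 0 < (crd (T.a c) (T.b c) x).re ∧ (crd (T.a c) (T.b c) x).re < 1 :=
    fun x hx => h.strip hP hc (tile_mem hx) (h.mirror_mem hc hx)
  have hne : ∀ x ∈ T.U, (crd (T.a c) (T.b c) x).im ≠ 0 := by
    intro x hx h0
    exact T.not_mem_of_side ((mem_openSegment_iff (T.ne c) x).2
      ⟨h0, (hstrip x hx).1, (hstrip x hx).2⟩) hx
  obtain ⟨w, hw, hwpos⟩ := T.exists_pos c
  intro x hx
  refine ⟨(hstrip x hx).1, (hstrip x hx).2, ?_⟩
  by_contra hneg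
  push Not at hneg
  have hcont : ContinuousOn (fun z => (crd (T.a c) (T.b c) z).im) T.U :=
    (continuous_im.comp (continuous_crd _ _)).continuousOn
  have := T.isConnected.isPreconnected.intermediate_value hx hw hcont
  obtain ⟨y, hy, hy0⟩ := this ⟨hneg, hwpos.le⟩
  exact hne y hy hy0

/-- a point of the (pulled back) domain on the line of a glued side lies on that open side -/
theorem chord (hP : Convex ℝ (domain T G φ)) {t : ι} {c : Fin k} (hc : G.nbr c t ≠ t)
    {x : ℂ} (hx : φ t x ∈ domain T G φ) (h0 : (crd (T.a c) (T.b c) x).im = 0) :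
    x ∈ openSegment ℝ (T.a c) (T.b c) := by
  have := h.strip hP hc hx (by rwa [mirror_of_im_zero (T.ne c) h0])
  exact (mem_openSegment_iff (T.ne c) x).2 ⟨h0, this.1, this.2⟩

end IsUnfolding

end Pool.Agent.Helper58_Iso
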