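import Pool.Agent.Helper58_Iso.Plane

namespace Pool.Agent.Helper58_Iso

open Complex Set Filter
open scoped ComplexConjugate Topology

variable {k : ℕ} {ι : Type} {T : Tile k} {G : Gluing k ι} {φ : ι → (ℂ ≃ᵃⁱ[ℝ] ℂ)}

/-- the part of the domain made of the tiles of `S` -/
def domS (T : Tile k) (G : Gluing k ι) (φ : ι → (ℂ ≃ᵃⁱ[ℝ] ℂ)) (S : Set ι) : Set ℂ :=
  {z | (∃ t ∈ S, z ∈ φ t '' T.U) ∨
    ∃ t ∈ S, ∃ c, G.nbr c t ≠ t ∧ z ∈ φ t '' openSegment ℝ (T.a c) (T.b c)}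

theorem domS_univ : domS T G φ univ = domain T G φ := by
  simp [domS, domain]

theorem isOpen_tile (t : ι) : IsOpen (φ t '' T.U) :=
  (φ t).toHomeomorph.isOpenMap T.U T.isOpen

theorem image_closure_tile (t : ι) : φ t '' closure T.U = closure (φ t '' T.U) :=
  (φ t).toHomeomorph.image_closure T.U

theorem map_nhds_phi (t : ι) (y : ℂ) : Filter.map (φ t) (𝓝 y) = 𝓝 (φ t y) :=
  (φ t).toHomeomorph.map_nhds_eq y

namespace IsUnfolding

variable (h : IsUnfolding T G φ)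
include h

theorem glue' {c : Fin k} {t : ι} (hc : G.nbr c t ≠ t) (z : ℂ) :
    φ (G.nbr c t) (mirror (T.a c) (T.b c) z) = φ t z := by
  rw [h.glue c t hc, mirror_mirror (T.ne c)]

theorem meet {s t : ι} {z : ℂ} (h1 : z ∈ φ s '' T.U) (h2 : z ∈ closure (φ t '' T.U)) : s = t := by
  by_contra hne
  rw [mem_closure_iff] at h2
  obtain ⟨w, hw1, hw2⟩ := h2 _ (isOpen_tile s) h1
  exact Set.disjoint_left.1 (h.disj s t hne) hw1 hw2

theorem isOpen_domS {S : Set ι} (hS : ∀ c, ∀ t ∈ S, G.nbr c t ∈ S) :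
    IsOpen (domS T G φ S) := by
  rw [isOpen_iff_mem_nhds]
  rintro z (⟨t, ht, hz⟩ | ⟨t, ht, c, hc, y, hy, rfl⟩)
  · filter_upwards [(isOpen_tile t).mem_nhds hz] with w hw
    exact Or.inl ⟨t, ht, hw⟩
  · rw [← map_nhds_phi, Filter.mem_map]
    filter_upwards [T.local_cover c hy] with w hw
    rcases hw with hw | hw | hw
    · exact Or.inl ⟨t, ht, w, hw, rfl⟩
    · exact Or.inl ⟨G.nbr c t, hS c t ht, _, hw, h.glue' hc w⟩
    · exact Or.inr ⟨t, ht, c, hc, w, hw, rfl⟩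

theorem isOpen_domain : IsOpen (domain T G φ) := by
  rw [← domS_univ]
  exact h.isOpen_domS (fun c t _ => mem_univ _)

theorem loc {t : ι} {c : Fin k} (hc : G.nbr c t ≠ t) {y : ℂ}
    (hy : y ∈ openSegment ℝ (T.a c) (T.b c)) {s : ι} (hs : φ t y ∈ closure (φ s '' T.U)) :
    s = t ∨ s = G.nbr c t := by
  rw [mem_closure_iff_frequently, ← map_nhds_phi, Filter.frequently_map] at hs
  obtain ⟨w, hw1, hw2⟩ := (hs.and_eventually (T.local_cover c hy)).exists
  rcases hw2 with hw | hw | hw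
  · left
    exact h.meet hw1 (subset_closure ⟨w, hw, rfl⟩)
  · right
    exact h.meet hw1 (subset_closure ⟨_, hw, h.glue' hc w⟩)
  · left
    refine h.meet hw1 ?_
    rw [← image_closure_tile]
    exact ⟨w, T.side_subset_closure c hw, rfl⟩

theorem corner_not_mem {q : ℂ} (hq : T.Corner q) (t : ι) : φ t q ∉ domain T G φ := by
  have hcl : φ t q ∈ closure (φ t '' T.U) := by
    rw [← image_closure_tile]
    exact ⟨q, hq.cl, rfl⟩
  rintro (⟨s, hs⟩ | ⟨s, c, hc, y, hy, hyq⟩)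
  · have := h.meet hs hcl
    subst this
    obtain ⟨u, hu, huq⟩ := hs
    have := (φ s).injective huq
    subst this
    exact hq.nU hu
  · rw [← hyq] at hcl
    rcases h.loc hc hy hcl with h1 | h1
    · subst h1
      have := (φ t).injective hyq
      subst this
      exact hq.nS c hy
    · subst h1
      rw [← h.glue' hc, mirror_of_im_zero (T.ne c) ((mem_openSegment_iff (T.ne c) y).1 hy).1]
        at hyq
      have := (φ (G.nbr c s)).injective hyq
      subst this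
      exact hq.nS c hy

omit h in
theorem tile_mem {t : ι} {z : ℂ} (hz : z ∈ T.U) : φ t z ∈ domain T G φ :=
  Or.inl ⟨t, z, hz, rfl⟩

omit h in
theorem closure_mem {t : ι} {z : ℂ} (hz : z ∈ closure T.U) : φ t z ∈ closure (domain T G φ) := by
  have : φ t z ∈ closure (φ t '' T.U) := by
    rw [← image_closure_tile]
    exact ⟨z, hz, rfl⟩
  refine closure_mono ?_ this
  rintro _ ⟨w, hw, rfl⟩
  exact tile_mem hw

omit h in
theorem side_mem {t : ι} {c : Fin k} (hc : G.nbr c t ≠ t) {z : ℂ}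
    (hz : z ∈ openSegment ℝ (T.a c) (T.b c)) : φ t z ∈ domain T G φ :=
  Or.inr ⟨t, c, hc, z, hz, rfl⟩

theorem mirror_mem {t : ι} {c : Fin k} (hc : G.nbr c t ≠ t) {z : ℂ} (hz : z ∈ T.U) :
    φ t (mirror (T.a c) (T.b c) z) ∈ domain T G φ := by
  rw [← h.glue c t hc]
  exact tile_mem hz

theorem conn (hP : Convex ℝ (domain T G φ)) : G.Conn := by
  intro S hS hinv
  by_contra hne
  obtain ⟨s, hs⟩ := hS
  obtain ⟨v, hv⟩ : ∃ v, v ∉ S := by
    by_contra hh
    push Not at hh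
    exact hne (eq_univ_of_forall hh)
  have hinv' : ∀ c, ∀ t ∈ Sᶜ, G.nbr c t ∈ Sᶜ := by
    intro c t ht ht'
    have := hinv c _ ht'
    rw [G.invol] at this
    exact ht this
  have ho1 := h.isOpen_domS hinv
  have ho2 := h.isOpen_domS hinv'
  obtain ⟨x, hx⟩ := T.isConnected.nonempty
  have hpre := hP.isPreconnected
  have hcov : domain T G φ ⊆ domS T G φ S ∪ domS T G φ Sᶜ := by
    rintro z (⟨t, ht⟩ | ⟨t, c, hc, hz⟩)
    · by_cases htS : t ∈ S
      · exact Or.inl (Or.inl ⟨t, htS, ht⟩)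
      · exact Or.inr (Or.inl ⟨t, htS, ht⟩)
    · by_cases htS : t ∈ S
      · exact Or.inl (Or.inr ⟨t, htS, c, hc, hz⟩)
      · exact Or.inr (Or.inr ⟨t, htS, c, hc, hz⟩)
  obtain ⟨z, -, hz1, hz2⟩ := hpre _ _ ho1 ho2 hcov
    ⟨φ s x, tile_mem hx, Or.inl ⟨s, hs, x, hx, rfl⟩⟩
    ⟨φ v x, tile_mem hx, Or.inl ⟨v, hv, x, hx, rfl⟩⟩
  have hside : ∀ {t : ι} {c : Fin k} {y : ℂ}, y ∈ openSegment ℝ (T.a c) (T.b c) →
      φ t y ∈ closure (φ t '' T.U) := by
    intro t c y hy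
    rw [← image_closure_tile]
    exact ⟨y, T.side_subset_closure c hy, rfl⟩
  rcases hz1 with ⟨t, ht, hz1⟩ | ⟨t, ht, c, hc, y, hy, rfl⟩
  · rcases hz2 with ⟨u, hu, hz2⟩ | ⟨u, hu, d, hd, y, hy, rfl⟩
    · have := h.meet hz1 (subset_closure hz2)
      subst this
      exact hu ht
    · have := h.meet hz1 (hside hy)
      subst this
      exact hu ht
  · rcases hz2 with ⟨u, hu, hz2⟩ | ⟨u, hu, d, hd, y', hy', hyy⟩
    · have := h.meet hz2 (hside hy)
      subst this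
      exact hu ht
    · have h1 : φ t y ∈ closure (φ u '' T.U) := by
        rw [← hyy]; exact hside hy'
      rcases h.loc hc hy h1 with h2 | h2
      · subst h2; exact hu ht
      · subst h2; exact hu (hinv c t ht)

end IsUnfolding

end Pool.Agent.Helper58_Iso
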